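import Mathlib
import Pool.Agent.Work.MP_2fa4be_gt.Defs

/-!
# Multiply twisted bands: definitions

The coordinates are divided into blocks by a map `b : ι → J` (the label of a coordinate).

* `bfr e b K`, `blk b K G`: the coordinate vectors and the coefficients with label `K`;
* `mcm b v G`: the matrix of `∑_K exp(2 v_K) G_K`, where `G_K` is the block with label `K`;
* `pathMat A N`: the coefficient matrix of `N(y)² dt² + A(y,t)` in the coordinates `(y,t)`;
* `BlockAtlas b`: the changes of charts respect the blocks, so that `M` is locally a product;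
* `BlockPath b h`: a smooth path of metrics `h t`, block diagonal in all charts, such that the
  block `(h t)_K` has scalar curvature `≤ 0` along the leaves of label `K` and a volume density
  which depends neither on `t` nor on the other coordinates;
* `LeafConst b K v`: the function `v` on `M × (-1, 1)` is constant along the leaves of label `K`;
* `mbScal b h N v x t`: the scalar curvature at `(x, t)` of the metric
  `N(x)² dt² + ∑_K exp(2 v_K(x,t)) (h t)_K` on `M × (-1, 1)`.
-/

namespace Pool.Agent.Work.MP_2fa4be_gt.MB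

open Pool.Agent.Work.MP_2fa4be_gt
open scoped Manifold ContDiff

section Coordinates

variable {E ι J : Type*}

/-- the coordinate vectors with label `K` -/
def bfr (e : ι → E) (b : ι → J) (K : J) (i : {i // b i = K}) : E := e i

/-- the block with label `K` of the matrix `G` -/
def blk (b : ι → J) (K : J) (G : E → Matrix ι ι ℝ) (y : E) :
    Matrix {i // b i = K} {i // b i = K} ℝ :=
  Matrix.of fun i j => G y i j

/-- the matrix with entries `exp(v_{b(i)} + v_{b(j)}) G_{ij}`; if `G` is block diagonal, this is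
`∑_K exp(2 v_K) G_K` -/
noncomputable def mcm (b : ι → J) (v : J → E → ℝ) (G : E → Matrix ι ι ℝ) (y : E) : Matrix ι ι ℝ :=
  Matrix.of fun i j => Real.exp (v (b i) y + v (b j) y) * G y i j

/-- the coefficient matrix of `N(y)² dt² + A(y,t)` -/
def pathMat (A : E × ℝ → Matrix ι ι ℝ) (N : E → ℝ) (z : E × ℝ) :
    Matrix (ι ⊕ Unit) (ι ⊕ Unit) ℝ :=
  Matrix.fromBlocks (A z) 0 0 (Matrix.of fun _ _ => N z.1 ^ 2)

end Coordinates

section Manifold

variable {m : ℕ} {J M : Type*} [TopologicalSpace M] [ChartedSpace (Eu m) M]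

/-- the changes of charts respect the blocks: the coordinates with label `K` in one chart are
locally functions of the coordinates with label `K` in the other one -/
def BlockAtlas (b : Fin m → J) (M : Type*) [TopologicalSpace M] [ChartedSpace (Eu m) M] : Prop :=
  ∀ c ∈ atlas (Eu m) M, ∀ c' ∈ atlas (Eu m) M, ∀ y ∈ c.target, c.symm y ∈ c'.source →
    ∀ i j, b i ≠ b j → jac c c' y i j = 0

/-- A smooth path `h t`, `t ∈ (-1, 1)`, of block diagonal metrics. The determinant of each block
does not depend on `t`, nor on the coordinates of the other blocks, and the scalar curvature of the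
block as a metric on the leaves (the other coordinates and `t` being fixed) is nowhere positive. -/
structure BlockPath [DecidableEq J] (b : Fin m → J) (h : ℝ → RMetric m M) : Prop where
  smooth : ∀ c ∈ atlas (Eu m) M, ∀ i j, ContDiffOn ℝ ∞
    (fun z : Eu m × ℝ => (h z.2).co c z.1 i j) (c.target ×ˢ Set.Ioo (-1) 1)
  diag : ∀ t ∈ Set.Ioo (-1 : ℝ) 1, ∀ c ∈ atlas (Eu m) M, ∀ y ∈ c.target, ∀ i j, b i ≠ b j →
    (h t).co c y i j = 0
  volt : ∀ t ∈ Set.Ioo (-1 : ℝ) 1, ∀ c ∈ atlas (Eu m) M, ∀ y ∈ c.target, ∀ K,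
    (blk b K ((h t).co c) y).det = (blk b K ((h 0).co c) y).det
  voly : ∀ c ∈ atlas (Eu m) M, ∀ y ∈ c.target, ∀ K i, b i ≠ K →
    pd (bas m) i (fun z => (blk b K ((h 0).co c) z).det) y = 0
  scal : ∀ t ∈ Set.Ioo (-1 : ℝ) 1, ∀ x : M, ∀ K,
    scal (bfr (bas m) b K) (blk b K (coeff (h t) x)) (chartAt (Eu m) x x) ≤ 0

/-- `v` is constant along the leaves with label `K` -/
def LeafConst (b : Fin m → J) (K : J) (v : M × ℝ → ℝ) : Prop :=
  ∀ c ∈ atlas (Eu m) M, ∀ y ∈ c.target, ∀ t ∈ Set.Ioo (-1 : ℝ) 1, ∀ i, b i = K →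
    pd (bas m) i (fun z => v (c.symm z, t)) y = 0

/-- the scalar curvature at `(x, t)` of the metric `N(x)² dt² + ∑_K exp(2 v_K(x,t)) (h t)_K` -/
noncomputable def mbScal (b : Fin m → J) (h : ℝ → RMetric m M) (N : M → ℝ) (v : J → M × ℝ → ℝ)
    (x : M) (t : ℝ) : ℝ :=
  scal (fr (bas m)) (pathMat
    (mcm b (fun K z => v K (pt x z.1, z.2)) (fun z => coeff (h z.2) x z.1))
    (fun y => N (pt x y))) (chartAt (Eu m) x x, t)

end Manifold

end Pool.Agent.Work.MP_2fa4be_gt.MB
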