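import Mathlib

/-!
# Module Ode (size S-M): the Riccati inequality

Only real analysis. If `f' ≤ -(1/2) (n m N² + (n/m) f²)` on `(-1, 1)`, `n = m + 1`, then `n N ≤ π`.

Proof: `θ = arctan(f/(m N))` has `θ' = (f'/(mN)) / (1 + f²/(mN)²) ≤ -n N / 2`, because
`(1/2)(n m N² + (n/m) f²) = (n/(2m)) (m² N² + f²)` and `m²N² + f² = m² N² (1 + f²/(mN)²)`. So
`θ(t) + (nN/2) t` is antitone on `(-1,1)` (`antitoneOn_of_deriv_nonpos`) and for `0 < r < 1`:
`n N r ≤ θ(-r) - θ(r) < π` (`Real.arctan_lt_pi_div_two`, `Real.neg_pi_div_two_lt_arctan`).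
Let `r → 1` (`le_of_forall_lt` or a limit).
-/

namespace Pool.Agent.Work.MP_2fa4be_gt.MB

theorem ode_bound {f f' : ℝ → ℝ} {m N : ℝ} (hm : 0 < m) (hN : 0 < N)
    (hf : ∀ t ∈ Set.Ioo (-1 : ℝ) 1, HasDerivAt f (f' t) t)
    (h : ∀ t ∈ Set.Ioo (-1 : ℝ) 1,
      f' t ≤ -(1 / 2) * ((m + 1) * m * N ^ 2 + (m + 1) / m * f t ^ 2)) :
    (m + 1) * N ≤ Real.pi := by
  have hmN : 0 < m * N := mul_pos hm hN
  set g : ℝ → ℝ := fun t => Real.arctan (f t / (m * N)) + (m + 1) * N / 2 * t with hgdef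
  set g' : ℝ → ℝ := fun t =>
    1 / (1 + (f t / (m * N)) ^ 2) * (f' t / (m * N)) + (m + 1) * N / 2 with hg'def
  have hg : ∀ t ∈ Set.Ioo (-1 : ℝ) 1, HasDerivAt g (g' t) t := by
    intro t ht
    have h1 := ((hf t ht).div_const (m * N)).arctan
    have h2 : HasDerivAt (fun t : ℝ => (m + 1) * N / 2 * t) ((m + 1) * N / 2) t := by
      simpa using (hasDerivAt_id t).const_mul ((m + 1) * N / 2)
    exact h1.add h2
  have hg' : ∀ t ∈ Set.Ioo (-1 : ℝ) 1, g' t ≤ 0 := by
    intro t ht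
    have h3 := h t ht
    have hden : 0 < 1 + (f t / (m * N)) ^ 2 := by positivity
    have h4 : f' t / (m * N) ≤ -((m + 1) * N / 2) * (1 + (f t / (m * N)) ^ 2) := by
      rw [div_le_iff₀ hmN]
      have h5 : -((m + 1) * N / 2) * (1 + (f t / (m * N)) ^ 2) * (m * N) =
          -(1 / 2) * ((m + 1) * m * N ^ 2 + (m + 1) / m * f t ^ 2) := by
        field_simp
      rw [h5]
      exact h3
    have h5 : 1 / (1 + (f t / (m * N)) ^ 2) * (f' t / (m * N)) ≤ -((m + 1) * N / 2) := by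
      rw [one_div, inv_mul_le_iff₀ hden]
      linarith
    simp only [hg'def]
    linarith
  have hanti : AntitoneOn g (Set.Ioo (-1 : ℝ) 1) := by
    apply antitoneOn_of_deriv_nonpos (convex_Ioo _ _)
    · exact fun t ht => (hg t ht).continuousAt.continuousWithinAt
    · intro t ht
      rw [interior_Ioo] at ht
      exact (hg t ht).differentiableAt.differentiableWithinAt
    · intro t ht
      rw [interior_Ioo] at ht
      rw [(hg t ht).deriv]
      exact hg' t ht
  have hr : ∀ r : ℝ, 0 < r → r < 1 → (m + 1) * N * r ≤ Real.pi := by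
    intro r hr0 hr1
    have h6 := hanti (a := -r) (b := r) ⟨by linarith, by linarith⟩
      ⟨by linarith, by linarith⟩ (by linarith)
    simp only [hgdef] at h6
    have h7 := Real.arctan_lt_pi_div_two (f (-r) / (m * N))
    have h8 := Real.neg_pi_div_two_lt_arctan (f r / (m * N))
    linarith
  by_contra hcon
  push Not at hcon
  have hK : 0 < (m + 1) * N := by positivity
  have h9 := hr ((Real.pi / ((m + 1) * N) + 1) / 2) (by positivity) (by
    have : Real.pi / ((m + 1) * N) < 1 := by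
      rw [div_lt_one hK]
      exact hcon
    linarith)
  have h10 : (m + 1) * N * ((Real.pi / ((m + 1) * N) + 1) / 2) = (Real.pi + (m + 1) * N) / 2 := by
    field_simp
  rw [h10] at h9
  linarith

end Pool.Agent.Work.MP_2fa4be_gt.MB
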