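import Pool.Agent.Work.MP_2fa4be_gt.MB.Tools

/-!
# Module TimeD (size M): differentiation under the integral

`F` on `M × (-1, 1)` is smooth in the charts (`LocSm`, Cont.lean); `F` and `dt F` are continuous on
`M × (-1, 1)` (`LocSm.continuousOn`, `LocSm.step`), `LocSm.hasDerivAt`. Use
`hasDerivAt_integral_of_dominated_loc_of_deriv_le` on a small ball around `t` whose closure lies in
`(-1,1)`; the bound is the maximum of `|g dt F|` on the compact set `M × closedBall` (a constant is
integrable for the finite measure). All slices are continuous, hence measurable and integrable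
(`M` is compact).
-/

namespace Pool.Agent.Work.MP_2fa4be_gt.MB

open Pool.Agent.Work.MP_2fa4be_gt
open MeasureTheory
open scoped Manifold ContDiff

variable {m : ℕ} {M : Type*} [TopologicalSpace M] [ChartedSpace (Eu m) M] [CompactSpace M]
  [MeasurableSpace M] [BorelSpace M] {μ : Measure M} [IsFiniteMeasure μ]

omit [CompactSpace M] [MeasurableSpace M] [BorelSpace M] in
theorem continuous_slice {F : M × ℝ → ℝ} (hF : LocSm m F) {t : ℝ}
    (ht : t ∈ Set.Ioo (-1 : ℝ) 1) : Continuous fun x => F (x, t) :=
  hF.continuousOn.comp_continuous (continuous_id.prodMk continuous_const)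
    fun _ => ⟨Set.mem_univ _, ht⟩

theorem hasDerivAt_int {F : M × ℝ → ℝ} (hF : LocSm m F) {g : M → ℝ} (hg : Continuous g) {t : ℝ}
    (ht : t ∈ Set.Ioo (-1 : ℝ) 1) :
    HasDerivAt (fun s => ∫ x, g x * F (x, s) ∂μ) (∫ x, g x * dt F (x, t) ∂μ) t := by
  obtain ⟨r, hr, hsub⟩ := Metric.nhds_basis_closedBall.mem_iff.1 (isOpen_Ioo.mem_nhds ht)
  have hmeas : ∀ (H : M → ℝ), Continuous H → AEStronglyMeasurable H μ :=
    fun H hH => hH.aestronglyMeasurable
  have hint : ∀ (H : M → ℝ), Continuous H → Integrable H μ := by
    intro H hH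
    obtain ⟨C, hC⟩ := isCompact_univ.exists_bound_of_continuousOn (f := H) hH.continuousOn
    exact Integrable.of_bound (hmeas H hH) C
      (Filter.Eventually.of_forall fun x => hC x (Set.mem_univ x))
  have hcK : IsCompact ((Set.univ : Set M) ×ˢ Metric.closedBall t r) :=
    isCompact_univ.prod (isCompact_closedBall t r)
  have hcont : ContinuousOn (fun z : M × ℝ => g z.1 * dt F z)
      ((Set.univ : Set M) ×ˢ Metric.closedBall t r) := by
    refine ContinuousOn.mul (hg.comp continuous_fst).continuousOn ?_
    exact hF.step.continuousOn.mono (Set.prod_mono le_rfl hsub)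
  obtain ⟨C, hC⟩ := hcK.exists_bound_of_continuousOn hcont
  refine (hasDerivAt_integral_of_dominated_loc_of_deriv_le
    (F := fun s x => g x * F (x, s)) (F' := fun s x => g x * dt F (x, s))
    (bound := fun _ => C) (s := Metric.closedBall t r)
    (Metric.closedBall_mem_nhds t hr) ?_ ?_ ?_ ?_ ?_ ?_).2
  · filter_upwards [Metric.closedBall_mem_nhds t hr] with s hs
    exact hmeas _ (hg.mul (continuous_slice hF (hsub hs)))
  · exact hint _ (hg.mul (continuous_slice hF ht))
  · exact hmeas _ (hg.mul (continuous_slice hF.step ht))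
  · exact Filter.Eventually.of_forall fun x s hs => hC (x, s) ⟨Set.mem_univ x, hs⟩
  · exact integrable_const C
  · exact Filter.Eventually.of_forall fun x s hs => (hF.hasDerivAt x (hsub hs)).const_mul (g x)

end Pool.Agent.Work.MP_2fa4be_gt.MB
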