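import Pool.Agent.Work.MP_2fa4be_gt.MB.ChartSm

/-!
# Module ChVar (size M): change of variables between two charts

`φ = c' ∘ c.symm` maps `S = ov c c'` bijectively to `S' = ov c' c`, with inverse `c ∘ c'.symm`.
`MeasureTheory.integral_image_eq_integral_abs_det_fderiv_smul` (on the measurable set `S`,
derivative from `trans_smooth`, injective) gives
`∫_{S'} g = ∫_S |det Dφ(y)| g(φ y) dy`, and `det Dφ(y) = det (jac c c' y)` (the matrix of `Dφ(y)` in
the basis `bas m` is `jac c c' y`, by `fderiv_trans`; `LinearMap.det_toLin`,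
`EuclideanSpace.basisFun`). With `g(z) = f(c'.symm z) ρ' z` and `g(φ y) = f(c.symm y) ρ'(φ y)` this
is the claim, since `f(c.symm y) = 0` for `y ∈ c.target` outside `S` (then
`c.symm y ∉ c'.source ⊇ tsupport f`), similarly for `c'`
(`MeasureTheory.setIntegral_eq_of_subset_of_forall_diff_eq_zero`).
-/

namespace Pool.Agent.Work.MP_2fa4be_gt.MB

open Pool.Agent.Work.MP_2fa4be_gt
open MeasureTheory
open scoped Manifold ContDiff

variable {m : ℕ} {M : Type*} [TopologicalSpace M] [ChartedSpace (Eu m) M]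
  [IsManifold (𝓡 m) ∞ M] {c c' : OpenPartialHomeomorph M (Eu m)}

private theorem det_fderiv (hc : c ∈ atlas (Eu m) M) (hc' : c' ∈ atlas (Eu m) M) {y : Eu m}
    (hy : y ∈ ov c c') :
    (fderiv ℝ (fun z => c' (c.symm z)) y).det = (jac c c' y).det := by
  have h1 := LinearMap.det_toMatrix (EuclideanSpace.basisFun (Fin m) ℝ).toBasis
    (fderiv ℝ (fun z => c' (c.symm z)) y).toLinearMap
  change LinearMap.det (fderiv ℝ (fun z => c' (c.symm z)) y).toLinearMap = _
  rw [← h1]
  congr 1
  ext i j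
  rw [LinearMap.toMatrix_apply]
  have h2 : ((EuclideanSpace.basisFun (Fin m) ℝ).toBasis j : Eu m) = bas m j := by
    simp [bas]
  rw [h2]
  change ((EuclideanSpace.basisFun (Fin m) ℝ).toBasis.repr
    (fderiv ℝ (fun z => c' (c.symm z)) y (bas m j))) i = _
  rw [fderiv_trans hc hc' hy j]
  simp [bas]

theorem ch_var (hc : c ∈ atlas (Eu m) M) (hc' : c' ∈ atlas (Eu m) M) {ρ ρ' : Eu m → ℝ}
    (hρ : ∀ y ∈ ov c c', ρ y = |(jac c c' y).det| * ρ' (c' (c.symm y))) {f : M → ℝ}
    (hf : tsupport f ⊆ c.source ∩ c'.source) :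
    ∫ y in c.target, f (c.symm y) * ρ y = ∫ y in c'.target, f (c'.symm y) * ρ' y := by
  have hS : MeasurableSet (ov c c') := ov_open.measurableSet
  have himg : (fun z => c' (c.symm z)) '' ov c c' = ov c' c := by
    ext z
    constructor
    · rintro ⟨y, ⟨hy1, hy2⟩, rfl⟩
      refine ⟨c'.map_source hy2, ?_⟩
      change c'.symm (c' (c.symm y)) ∈ c.source
      rw [c'.left_inv hy2]
      exact c.map_target hy1
    · rintro ⟨hz1, hz2⟩
      refine ⟨c (c'.symm z), ⟨c.map_source hz2, ?_⟩, ?_⟩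
      · change c.symm (c (c'.symm z)) ∈ c'.source
        rw [c.left_inv hz2]
        exact c'.map_target hz1
      · change c' (c.symm (c (c'.symm z))) = z
        rw [c.left_inv hz2, c'.right_inv hz1]
  have hinj : Set.InjOn (fun z => c' (c.symm z)) (ov c c') := by
    rintro y₁ ⟨h1, h2⟩ y₂ ⟨h3, h4⟩ h5
    exact c.symm.injOn h1 h3 (c'.injOn h2 h4 h5)
  have hder : ∀ y ∈ ov c c', HasFDerivWithinAt (fun z => c' (c.symm z))
      (fderiv ℝ (fun z => c' (c.symm z)) y) (ov c c') y := by
    intro y hy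
    have h1 : DifferentiableAt ℝ (fun z => c' (c.symm z)) y :=
      ((trans_smooth hc hc').contDiffAt (ov_open.mem_nhds hy)).differentiableAt (by simp)
    exact h1.hasFDerivAt.hasFDerivWithinAt
  have hmain := integral_image_eq_integral_abs_det_fderiv_smul volume hS hder hinj
    (fun z => f (c'.symm z) * ρ' z)
  rw [himg] at hmain
  have h1 : ∫ y in c.target, f (c.symm y) * ρ y = ∫ y in ov c c', f (c.symm y) * ρ y := by
    refine setIntegral_eq_of_subset_of_forall_sdiff_eq_zero c.open_target.measurableSet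
      Set.inter_subset_left fun y hy => ?_
    have h2 : c.symm y ∉ tsupport f := fun h3 => hy.2 ⟨hy.1, (hf h3).2⟩
    rw [image_eq_zero_of_notMem_tsupport h2, zero_mul]
  have h2 : ∫ y in c'.target, f (c'.symm y) * ρ' y = ∫ y in ov c' c, f (c'.symm y) * ρ' y := by
    refine setIntegral_eq_of_subset_of_forall_sdiff_eq_zero c'.open_target.measurableSet
      Set.inter_subset_left fun y hy => ?_
    have h2 : c'.symm y ∉ tsupport f := fun h3 => hy.2 ⟨hy.1, (hf h3).1⟩
    rw [image_eq_zero_of_notMem_tsupport h2, zero_mul]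
  rw [h1, h2, hmain]
  refine setIntegral_congr_fun hS fun y hy => ?_
  change f (c.symm y) * ρ y = |(fderiv ℝ (fun z => c' (c.symm z)) y).det| •
    (f (c'.symm (c' (c.symm y))) * ρ' (c' (c.symm y)))
  rw [c'.left_inv hy.2, det_fderiv hc hc' hy, hρ y hy, smul_eq_mul]
  ring

end Pool.Agent.Work.MP_2fa4be_gt.MB
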