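import Pool.Agent.Work.MP_2fa4be_gt.MB.InvM

/-!
# Module Dens (size M): the volume density `√det`

* `dens_smooth`, `dens_pos`: `det > 0` on `c.target`, smooth (`det_smooth'`), `Real.sqrt` is smooth
  off zero.
* `dens_trans`: `det` of `RMetric.compat`: `det G = (det J)² det G'`, `√(d² g) = |d| √g`.
* `dens_exp`: `√(det) = exp((1/2) log det) = exp(lnv)`.
* `dens_pd`: `lnv (h.co c) = ∑_L lnv (blk b L (h.co c))` on `c.target` (`lnv_blk`), and for `k` of
  label `K` and `L ≠ K` the derivative of `lnv (blk b L ..)` in the direction `k` vanishes (`VolM`,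
  `pd_log`); so `∂_k dens = dens ∂_k lnv (h.co c) = dens ∂_k lnv (blk b K (h.co c))`.
* `dens_path`: the determinants of all blocks of `h t` and `h 0` agree, so do the determinants
  (`lnv_blk` and `dens_exp`), by `BlockPath.volt` and `BlockPath.diag`.
* `vol_path`, `diag_path`: `VolM`, `DiagM` for every `h t` (the functions agree on the open set
  `c.target`, `pd_congr_on`).
-/

namespace Pool.Agent.Work.MP_2fa4be_gt.MB

open Pool.Agent.Work.MP_2fa4be_gt
open scoped Manifold ContDiff

variable {m : ℕ} {J M : Type*} [TopologicalSpace M] [ChartedSpace (Eu m) M]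
  [Fintype J] [DecidableEq J] {b : Fin m → J} {c c' : OpenPartialHomeomorph M (Eu m)} {y : Eu m}

theorem dens_smooth (h : RMetric m M) (hc : c ∈ atlas (Eu m) M) :
    ContDiffOn ℝ ∞ (dens h c) c.target := by
  have h1 : ContDiffOn ℝ ∞ (fun z => (h.co c z).det) c.target := det_smooth' (good_co hc)
  exact h1.sqrt fun y hy => (h.pos c hc y hy).det_pos.ne'

theorem dens_pos (h : RMetric m M) (hc : c ∈ atlas (Eu m) M) (hy : y ∈ c.target) :
    0 < dens h c y :=
  Real.sqrt_pos.2 (h.pos c hc y hy).det_pos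

theorem dens_trans (h : RMetric m M) (hc : c ∈ atlas (Eu m) M) (hc' : c' ∈ atlas (Eu m) M)
    (hy : y ∈ ov c c') : dens h c y = |(jac c c' y).det| * dens h c' (c' (c.symm y)) := by
  have h1 := h.compat c hc c' hc' y hy.1 hy.2
  have h2 : (h.co c y).det = (jac c c' y).det * (jac c c' y).det * (h.co c' (c' (c.symm y))).det := by
    rw [h1, Matrix.det_mul, Matrix.det_mul, Matrix.det_transpose]
    ring
  unfold dens
  rw [h2, Real.sqrt_mul (mul_self_nonneg _), Real.sqrt_mul_self_eq_abs]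

theorem dens_exp (h : RMetric m M) (hc : c ∈ atlas (Eu m) M) (hy : y ∈ c.target) :
    dens h c y = Real.exp (lnv (h.co c) y) := by
  have h1 : 0 < (h.co c y).det := (h.pos c hc y hy).det_pos
  have h2 : lnv (h.co c) y = Real.log (Real.sqrt (h.co c y).det) := by
    rw [Real.log_sqrt h1.le]
    unfold lnv
    ring
  rw [h2, Real.exp_log (Real.sqrt_pos.2 h1)]
  rfl

theorem dens_pd {h : RMetric m M} (hd : DiagM b h) (hv : VolM b h) (hc : c ∈ atlas (Eu m) M)
    (hy : y ∈ c.target) (K : J) (k : {i // b i = K}) :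
    pd (bfr (bas m) b K) k (dens h c) y =
      dens h c y * pd (bfr (bas m) b K) k (lnv (blk b K (h.co c))) y := by
  have hg : GoodMat c.target (h.co c) := good_co hc
  have hdd : ∀ z ∈ c.target, ∀ i j, b i ≠ b j → h.co c z i j = 0 := hd c hc
  have hs : ∀ L : J, ContDiffOn ℝ ∞ (lnv (blk b L (h.co c))) c.target := fun L =>
    lnv_smooth (good_blk hg L)
  have hU : IsOpen c.target := c.open_target
  have h1 : pd (bfr (bas m) b K) k (dens h c) y =
      pd (bfr (bas m) b K) k (fun z => Real.exp (lnv (h.co c) z)) y :=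
    pd_congr_on hU (fun z hz => dens_exp h hc hz) hy k
  have h2 : pd (bfr (bas m) b K) k (lnv (h.co c)) y =
      pd (bfr (bas m) b K) k (fun z => ∑ L, lnv (blk b L (h.co c)) z) y :=
    pd_congr_on hU (fun z hz => lnv_blk hg hdd hz) hy k
  have h3 : pd (bfr (bas m) b K) k (fun z => ∑ L, lnv (blk b L (h.co c)) z) y =
      ∑ L, pd (bfr (bas m) b K) k (lnv (blk b L (h.co c))) y :=
    pd_sum (fun L _ => diffAt hU (hs L) hy) k
  have h4 : ∀ L : J, L ≠ K → pd (bfr (bas m) b K) k (lnv (blk b L (h.co c))) y = 0 := by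
    intro L hL
    have hgL := good_blk hg (b := b) L
    have h5 : DifferentiableAt ℝ (fun z => (blk b L (h.co c) z).det) y :=
      diffAt hU (det_smooth' hgL) hy
    have h6 : (blk b L (h.co c) y).det ≠ 0 := hgL.det_ne hy
    have h7 : pd (bfr (bas m) b K) k (lnv (blk b L (h.co c))) y =
        pd (bfr (bas m) b K) k (fun z => (1 / 2) * Real.log (blk b L (h.co c) z).det) y := rfl
    rw [h7, pd_const_mul (h5.log h6), pd_log h5 h6]
    have h8 : pd (bfr (bas m) b K) k (fun z => (blk b L (h.co c) z).det) y = 0 :=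
      hv c hc y hy L k.1 (by rw [k.2]; exact fun hKL => hL hKL.symm)
    rw [h8]
    simp
  have h9 : pd (bfr (bas m) b K) k (lnv (h.co c)) y =
      pd (bfr (bas m) b K) k (lnv (blk b K (h.co c))) y := by
    rw [h2, h3]
    exact Finset.sum_eq_single K (fun L _ hL => h4 L hL) (fun hK => absurd (Finset.mem_univ K) hK)
  rw [h1, pd_exp (diffAt hU (lnv_smooth hg) hy), h9, dens_exp h hc hy]

theorem diag_path {h : ℝ → RMetric m M} (hh : BlockPath b h) {t : ℝ}
    (ht : t ∈ Set.Ioo (-1 : ℝ) 1) : DiagM b (h t) :=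
  hh.diag t ht

theorem vol_path {h : ℝ → RMetric m M} (hh : BlockPath b h) {t : ℝ}
    (ht : t ∈ Set.Ioo (-1 : ℝ) 1) : VolM b (h t) := by
  intro c hc y hy K i hi
  rw [pd_congr_on c.open_target (fun z hz => hh.volt t ht c hc z hz K) hy i]
  exact hh.voly c hc y hy K i hi

theorem dens_path {h : ℝ → RMetric m M} (hh : BlockPath b h) {t : ℝ}
    (ht : t ∈ Set.Ioo (-1 : ℝ) 1) (hc : c ∈ atlas (Eu m) M) (hy : y ∈ c.target) :
    dens (h t) c y = dens (h 0) c y := by
  have h0 : (0 : ℝ) ∈ Set.Ioo (-1 : ℝ) 1 := ⟨by norm_num, by norm_num⟩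
  have h1 : lnv ((h t).co c) y = lnv ((h 0).co c) y := by
    rw [lnv_blk (good_co hc) (hh.diag t ht c hc) hy, lnv_blk (good_co hc) (hh.diag 0 h0 c hc) hy]
    refine Finset.sum_congr rfl fun K _ => ?_
    unfold lnv
    rw [hh.volt t ht c hc y hy K]
  rw [dens_exp (h t) hc hy, dens_exp (h 0) hc hy, h1]

end Pool.Agent.Work.MP_2fa4be_gt.MB
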