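import Pool.Agent.Work.MP_2fa4be_gt.MB.Part
import Pool.Agent.Work.MP_2fa4be_gt.MB.ChVar
import Pool.Agent.Work.MP_2fa4be_gt.MB.Dens

/-!
# Module Vol (size M-L): the Riemannian measure

Take `k, c, χ` from `exists_part` and put
`μ = ∑_i ((volume.restrict (c i).target).withDensity (fun y => ENNReal.ofReal (χ i ((c i).symm y) *
dens h (c i) y))).map (c i).symm`.

* `(c i).symm` is continuous on the open set `(c i).target`, hence `AEMeasurable` for the restricted
  measure (`ContinuousOn.aemeasurable`), also for the measure with density (absolute continuity).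
* `y ↦ χ i ((c i).symm y) * dens h (c i) y` is continuous on `(c i).target`, nonnegative, and
  vanishes on `(c i).target` outside the compact set `(c i) '' tsupport (χ i)` (`tsupport (χ i)` is
  closed in the compact `M` and contained in `(c i).source`); so it is bounded and integrable over
  `(c i).target`; the measure is finite.
* For continuous `f`: `∫ f dμ = ∑_i ∫_{(c i).target} χ_i((c i).symm y) f((c i).symm y) dens y dy`
  (`integral_map`, `integral_withDensity_eq_integral_toReal_smul` or the like,
  `integral_finset_sum_measure`).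
* `IsVol`: if `tsupport f ⊆ c.source` then by `ch_var` (with `ρ = dens h (c i)`, `ρ' = dens h c`,
  `dens_trans`) for the function `χ_i f`, whose support lies in both sources, the `i`-th term is
  `∫_{c.target} (χ_i f)(c.symm y) dens h c y dy`; sum over `i`, `∑_i χ_i = 1` (integrability of each
  term as above).
* `μ ≠ 0` for nonempty `M`: some `χ_i(x) > 0` at some point `x`, and then the function
  `χ_i ∘ (c i).symm * dens` is positive on a nonempty open set; or: if `μ = 0` then
  `∫ 1 dμ = ∑_i ∫ χ_i dens = 0` with nonnegative continuous integrands, contradiction.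
-/

namespace Pool.Agent.Work.MP_2fa4be_gt.MB

open Pool.Agent.Work.MP_2fa4be_gt
open MeasureTheory
open scoped Manifold ContDiff

variable {m : ℕ} {M : Type*} [TopologicalSpace M] [ChartedSpace (Eu m) M]
  [IsManifold (𝓡 m) ∞ M] [CompactSpace M] [T2Space M] [Nonempty M] [MeasurableSpace M]
  [BorelSpace M]

private theorem integrable_cont {N : Type*} [TopologicalSpace N] [CompactSpace N]
    [MeasurableSpace N] [BorelSpace N] {μ : Measure N} [IsFiniteMeasure μ] {f : N → ℝ}
    (hf : Continuous f) : Integrable f μ := by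
  obtain ⟨C, hC⟩ := (isCompact_range hf.norm).bddAbove
  exact Integrable.of_bound hf.aestronglyMeasurable C
    (Filter.Eventually.of_forall fun x => hC ⟨x, rfl⟩)

omit [IsManifold (𝓡 m) ∞ M] [T2Space M] [Nonempty M] [MeasurableSpace M] [BorelSpace M] in
private theorem int_on {c : OpenPartialHomeomorph M (Eu m)} {g : M → ℝ} (hg : Continuous g)
    (hgs : tsupport g ⊆ c.source) {ρ : Eu m → ℝ} (hρ : ContinuousOn ρ c.target) :
    IntegrableOn (fun y => g (c.symm y) * ρ y) c.target := by
  have hK : IsCompact (c '' tsupport g) :=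
    (isClosed_tsupport g).isCompact.image_of_continuousOn (c.continuousOn.mono hgs)
  have hKT : c '' tsupport g ⊆ c.target := by
    rintro _ ⟨x, hx, rfl⟩
    exact c.map_source (hgs hx)
  have hc : ContinuousOn (fun y => g (c.symm y) * ρ y) c.target :=
    (hg.comp_continuousOn c.symm.continuousOn).mul hρ
  have h1 : IntegrableOn (fun y => g (c.symm y) * ρ y) (c '' tsupport g) :=
    (hc.mono hKT).integrableOn_compact hK
  refine h1.of_forall_diff_eq_zero c.open_target.measurableSet fun y hy => ?_
  have h2 : c.symm y ∉ tsupport g := fun h3 => hy.2 ⟨c.symm y, h3, c.right_inv hy.1⟩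
  change g (c.symm y) * ρ y = 0
  rw [image_eq_zero_of_notMem_tsupport h2, zero_mul]

omit [IsManifold (𝓡 m) ∞ M] [T2Space M] [Nonempty M] in
private theorem chart_measure {c : OpenPartialHomeomorph M (Eu m)} {χ : M → ℝ}
    (hχ : Continuous χ) (hχ0 : ∀ x, 0 ≤ χ x) (hχs : tsupport χ ⊆ c.source) {ρ : Eu m → ℝ}
    (hρ : ContinuousOn ρ c.target) (hρ0 : ∀ y ∈ c.target, 0 < ρ y) :
    ∃ μ : Measure M, IsFiniteMeasure μ ∧
      (∀ f : M → ℝ, Continuous f → ∫ x, f x ∂μ =
        ∫ y in c.target, f (c.symm y) * (χ (c.symm y) * ρ y)) ∧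
      ((∃ x, 0 < χ x) → μ ≠ 0) := by
  have hi : IntegrableOn (fun y => χ (c.symm y) * ρ y) c.target := int_on hχ hχs hρ
  have hpos : ∀ y ∈ c.target, 0 ≤ χ (c.symm y) * ρ y := fun y hy =>
    mul_nonneg (hχ0 _) (hρ0 y hy).le
  set ν : Measure (Eu m) := (volume.restrict c.target).withDensity
    (fun y => ENNReal.ofReal (χ (c.symm y) * ρ y)) with hν
  have hνf : IsFiniteMeasure ν := isFiniteMeasure_withDensity_ofReal hi.2
  have hae0 : AEMeasurable c.symm (volume.restrict c.target) :=
    c.symm.continuousOn.aemeasurable c.open_target.measurableSet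
  have hae : AEMeasurable c.symm ν := hae0.mono_ac (withDensity_absolutelyContinuous _ _)
  have hint : ∀ f : M → ℝ, Continuous f → ∫ x, f x ∂(ν.map c.symm) =
      ∫ y in c.target, f (c.symm y) * (χ (c.symm y) * ρ y) := by
    intro f hf
    rw [integral_map hae hf.aestronglyMeasurable, hν,
      integral_withDensity_eq_integral_toReal_smul₀ hi.1.aemeasurable.ennreal_ofReal
        (Filter.Eventually.of_forall fun y => ENNReal.ofReal_lt_top)]
    refine setIntegral_congr_fun c.open_target.measurableSet fun y hy => ?_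
    change (ENNReal.ofReal (χ (c.symm y) * ρ y)).toReal • f (c.symm y) = _
    rw [ENNReal.toReal_ofReal (hpos y hy), smul_eq_mul, mul_comm]
  refine ⟨ν.map c.symm, inferInstance, hint, ?_⟩
  rintro ⟨x, hx⟩ h0
  have h1 := hint (fun _ => 1) continuous_const
  rw [h0] at h1
  simp only [integral_zero_measure, one_mul] at h1
  have hxs : x ∈ c.source := hχs (subset_tsupport χ (Function.mem_support.2 hx.ne'))
  have h2 : (fun y => χ (c.symm y) * ρ y) =ᵐ[volume.restrict c.target] 0 := by
    rw [← integral_eq_zero_iff_of_nonneg_ae ?_ hi]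
    · exact h1.symm
    · exact (ae_restrict_iff' c.open_target.measurableSet).2
        (Filter.Eventually.of_forall fun y hy => hpos y hy)
  have hcont : ContinuousOn (fun y => χ (c.symm y) * ρ y) c.target :=
    (hχ.comp_continuousOn c.symm.continuousOn).mul hρ
  have hopen : IsOpen (c.target ∩ (fun y => χ (c.symm y) * ρ y) ⁻¹' Set.Ioi 0) :=
    hcont.isOpen_inter_preimage c.open_target isOpen_Ioi
  have hne : (c.target ∩ (fun y => χ (c.symm y) * ρ y) ⁻¹' Set.Ioi 0).Nonempty := by
    refine ⟨c x, c.map_source hxs, ?_⟩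
    change 0 < χ (c.symm (c x)) * ρ (c x)
    rw [c.left_inv hxs]
    exact mul_pos hx (hρ0 _ (c.map_source hxs))
  have h3 := hopen.measure_pos volume hne
  have h4 := (ae_restrict_iff' c.open_target.measurableSet).1 h2
  have h5 : volume (c.target ∩ (fun y => χ (c.symm y) * ρ y) ⁻¹' Set.Ioi 0) = 0 := by
    refine measure_mono_null ?_ h4
    rintro y ⟨hy1, hy2⟩ hy3
    have h6 := hy3 hy1
    exact (ne_of_gt (show 0 < χ (c.symm y) * ρ y from hy2)) h6
  exact h3.ne' h5

theorem exists_vol (h : RMetric m M) :
    ∃ μ : Measure M, IsFiniteMeasure μ ∧ μ ≠ 0 ∧ IsVol h μ := by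
  obtain ⟨k, c, χ, hc, hχ, hχ0, hχs, hχ1⟩ := exists_part m M
  have hχc : ∀ i, Continuous (χ i) := fun i => ContMDiff.continuous (hχ i)
  have hex : ∀ i, ∃ μ : Measure M, IsFiniteMeasure μ ∧
      (∀ f : M → ℝ, Continuous f → ∫ x, f x ∂μ =
        ∫ y in (c i).target, f ((c i).symm y) * (χ i ((c i).symm y) * dens h (c i) y)) ∧
      ((∃ x, 0 < χ i x) → μ ≠ 0) := fun i =>
    chart_measure (hχc i) (hχ0 i) (hχs i) (dens_smooth h (hc i)).continuousOn
      fun y hy => dens_pos h (hc i) hy
  choose ν hνf hνi hν0 using hex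
  refine ⟨∑ i, ν i, ?_, ?_, ?_⟩
  · infer_instance
  · intro h0
    obtain ⟨x⟩ := ‹Nonempty M›
    have h1 : ∃ i, 0 < χ i x := by
      by_contra h2
      push_neg at h2
      have h3 : ∑ i, χ i x ≤ 0 := Finset.sum_nonpos fun i _ => h2 i
      rw [hχ1 x] at h3
      linarith
    obtain ⟨i, hi⟩ := h1
    apply hν0 i ⟨x, hi⟩
    rw [← Measure.measure_univ_eq_zero]
    have h4 : (∑ i, ν i) Set.univ = 0 := by
      rw [h0]
      rfl
    rw [Measure.finsetSum_apply, Finset.sum_eq_zero_iff] at h4
    exact h4 i (Finset.mem_univ i)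
  · intro c' hc' f hf hfs
    have hd : ContinuousOn (dens h c') c'.target := (dens_smooth h hc').continuousOn
    have hprod : ∀ i, Continuous fun x => χ i x * f x := fun i => (hχc i).mul hf
    have hs1 : ∀ i, tsupport (fun x => χ i x * f x) ⊆ (c i).source := fun i =>
      (tsupport_mul_subset_left).trans (hχs i)
    have hs2 : ∀ i, tsupport (fun x => χ i x * f x) ⊆ c'.source := fun i =>
      (tsupport_mul_subset_right).trans hfs
    have h1 : ∫ x, f x ∂(∑ i, ν i) = ∑ i, ∫ x, f x ∂(ν i) :=
      integral_finsetSum_measure fun i _ => integrable_cont hf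
    have h2 : ∀ i, ∫ x, f x ∂(ν i) =
        ∫ y in c'.target, (χ i (c'.symm y) * f (c'.symm y)) * dens h c' y := by
      intro i
      rw [hνi i f hf, ← ch_var (hc i) hc' (ρ := dens h (c i)) (ρ' := dens h c')
        (fun y hy => dens_trans h (hc i) hc' hy) (f := fun x => χ i x * f x)
        (Set.subset_inter (hs1 i) (hs2 i))]
      refine setIntegral_congr_fun (c i).open_target.measurableSet fun y _ => ?_
      change f ((c i).symm y) * (χ i ((c i).symm y) * dens h (c i) y) =
        χ i ((c i).symm y) * f ((c i).symm y) * dens h (c i) y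
      ring
    rw [h1, Finset.sum_congr rfl fun i _ => h2 i, ← integral_finsetSum _ fun i _ =>
      int_on (hprod i) (hs2 i) hd]
    refine setIntegral_congr_fun c'.open_target.measurableSet fun y _ => ?_
    change ∑ i, (χ i (c'.symm y) * f (c'.symm y)) * dens h c' y = f (c'.symm y) * dens h c' y
    rw [← Finset.sum_mul, ← Finset.sum_mul, hχ1, one_mul]

end Pool.Agent.Work.MP_2fa4be_gt.MB
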