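import Pool.Agent.Work.MP_2fa4be_gt.MB.Bulk
import Pool.Agent.Work.MP_2fa4be_gt.MB.Vol
import Pool.Agent.Work.MP_2fa4be_gt.MB.Ode
import Pool.Agent.Work.MP_2fa4be_gt.MB.TimeD

/-!
# Module Main: the width estimate for multiply twisted bands (assembly)
-/

namespace Pool.Agent.Work.MP_2fa4be_gt.MB

open Pool.Agent.Work.MP_2fa4be_gt
open MeasureTheory
open scoped Manifold ContDiff

section Aux

variable {m : ℕ} {M : Type*} [TopologicalSpace M] [ChartedSpace (Eu m) M]

theorem smoothBand_sum {ι : Type*} (s : Finset ι) {f : ι → M × ℝ → ℝ}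
    (hf : ∀ i, SmoothBand m (f i)) : SmoothBand m (fun z => ∑ i ∈ s, f i z) := by
  classical
  induction s using Finset.induction_on with
  | empty =>
    simp only [Finset.sum_empty]
    exact contMDiffOn_const
  | insert a s ha ih =>
    simp only [Finset.sum_insert ha]
    exact (hf a).add ih

theorem cont_int [CompactSpace M] [MeasurableSpace M] [BorelSpace M] {μ : Measure M}
    [IsFiniteMeasure μ] {f : M → ℝ} (hf : Continuous f) : Integrable f μ := by
  have h1 : BddAbove (Set.range fun x => ‖f x‖) :=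
    (isCompact_range hf.norm).bddAbove
  obtain ⟨C, hC⟩ := h1
  refine Integrable.of_bound hf.aestronglyMeasurable C
    (Filter.Eventually.of_forall fun x => hC ⟨x, rfl⟩)

end Aux

variable {m : ℕ} {J M : Type*} [TopologicalSpace M] [ChartedSpace (Eu m) M]
  [IsManifold (𝓡 m) ∞ M] [CompactSpace M] [T2Space M] [Nonempty M] [Fintype J] [DecidableEq J]
  {b : Fin m → J} {h : ℝ → RMetric m M} {N : M → ℝ} {v : J → M × ℝ → ℝ}

theorem main (hm : 0 < m) (hA : BlockAtlas b M) (hh : BlockPath b h)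
    (hN : SmoothFun m N) (hN0 : ∀ x, 0 < N x) (hv : ∀ K, SmoothBand m (v K))
    (hK : ∀ K, 2 ≤ Fintype.card {i // b i = K} ∨ LeafConst b K (v K))
    (hs : ∀ x, ∀ t ∈ Set.Ioo (-1 : ℝ) 1, ((m : ℝ) + 1) * m ≤ mbScal b h N v x t) :
    ∃ x, 2 * N x ≤ 2 * Real.pi / ((m : ℝ) + 1) := by
  let _ : MeasurableSpace M := borel M
  have _ : BorelSpace M := ⟨rfl⟩
  obtain ⟨μ, hμf, hμ0, hμ⟩ := exists_vol (h 0)
  have hμt : ∀ t ∈ Set.Ioo (-1 : ℝ) 1, IsVol (h t) μ := by
    intro t ht c hc f hf hfc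
    rw [hμ c hc f hf hfc]
    refine setIntegral_congr_fun c.open_target.measurableSet fun y hy => ?_
    change f (c.symm y) * dens (h 0) c y = f (c.symm y) * dens (h t) c y
    rw [dens_path hh ht hc hy]
  have hNc : Continuous N := ContMDiff.continuous hN
  obtain ⟨x₀, -, hx₀⟩ := isCompact_univ.exists_isMinOn Set.univ_nonempty hNc.continuousOn
  have hmin : ∀ x, N x₀ ≤ N x := fun x => hx₀ (Set.mem_univ x)
  set D : M × ℝ → ℝ := fun z => ∑ i, v (b i) z with hD
  have hDs : SmoothBand m D := smoothBand_sum Finset.univ fun i => hv (b i)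
  have hD0 : LocSm m D := locSm_of hDs
  have hD1 : LocSm m (dt D) := hD0.step
  have hD2 : LocSm m (dt (dt D)) := hD1.step
  set g : M → ℝ := fun x => (N x ^ 2)⁻¹ with hg
  have hgc : Continuous g := (hNc.pow 2).inv₀ fun x => (pow_pos (hN0 x) 2).ne'
  have hgpos : ∀ x, 0 < g x := fun x => inv_pos.2 (pow_pos (hN0 x) 2)
  set Z : ℝ := ∫ x, g x ∂μ with hZ
  have hgi : Integrable g μ := cont_int hgc
  have hmp : 0 < μ.real Set.univ := by
    rw [Measure.real, ENNReal.toReal_pos_iff]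
    exact ⟨by simpa using (pos_iff_ne_zero.2 fun h0 => hμ0 (Measure.measure_univ_eq_zero.1 h0)),
      measure_lt_top μ _⟩
  have hone : ∫ x, (1 : ℝ) ∂μ = μ.real Set.univ := by simp
  have hZle : N x₀ ^ 2 * Z ≤ μ.real Set.univ := by
    rw [hZ, ← integral_const_mul, ← hone]
    refine integral_mono (hgi.const_mul _) (integrable_const _) fun x => ?_
    change N x₀ ^ 2 * (N x ^ 2)⁻¹ ≤ 1
    rw [← div_eq_mul_inv, div_le_one (pow_pos (hN0 x) 2)]
    exact pow_le_pow_left₀ (hN0 x₀).le (hmin x) 2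
  have hZpos : 0 < Z := by
    obtain ⟨C, hC⟩ : ∃ C, ∀ x, N x ≤ C := by
      obtain ⟨x₁, -, hx₁⟩ := isCompact_univ.exists_isMaxOn Set.univ_nonempty hNc.continuousOn
      exact ⟨N x₁, fun x => hx₁ (Set.mem_univ x)⟩
    have hC0 : 0 < C := lt_of_lt_of_le (hN0 x₀) (hC x₀)
    have h1 : μ.real Set.univ * (C ^ 2)⁻¹ ≤ Z := by
      rw [hZ, ← hone, ← integral_mul_const]
      refine integral_mono ((integrable_const _).mul_const _) hgi fun x => ?_
      change 1 * (C ^ 2)⁻¹ ≤ (N x ^ 2)⁻¹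
      rw [one_mul]
      exact inv_anti₀ (pow_pos (hN0 x) 2) (pow_le_pow_left₀ (hN0 x).le (hC x) 2)
    exact lt_of_lt_of_le (mul_pos hmp (inv_pos.2 (pow_pos hC0 2))) h1
  have hmR : (0 : ℝ) < m := by exact_mod_cast hm
  -- the function to which the Riccati inequality applies
  have hf : ∀ t ∈ Set.Ioo (-1 : ℝ) 1, HasDerivAt (fun s => (∫ x, g x * dt D (x, s) ∂μ) / Z)
      ((∫ x, g x * dt (dt D) (x, t) ∂μ) / Z) t := fun t ht =>
    (hasDerivAt_int hD1 hgc ht).div_const Z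
  have hineq : ∀ t ∈ Set.Ioo (-1 : ℝ) 1, (∫ x, g x * dt (dt D) (x, t) ∂μ) / Z ≤
      -(1 / 2) * (((m : ℝ) + 1) * m * N x₀ ^ 2 + ((m : ℝ) + 1) / m *
        ((∫ x, g x * dt D (x, t) ∂μ) / Z) ^ 2) := by
    intro t ht
    have hc1 : Continuous fun x => dt D (x, t) := continuous_slice hD1 ht
    have hc2 : Continuous fun x => dt (dt D) (x, t) := continuous_slice hD2 ht
    have hi1 : Integrable (fun x => g x * dt D (x, t)) μ := cont_int (hgc.mul hc1)
    have hi2 : Integrable (fun x => g x * dt (dt D) (x, t)) μ := cont_int (hgc.mul hc2)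
    have hi3 : Integrable (fun x => g x * dt D (x, t) ^ 2) μ :=
      cont_int (hgc.mul (hc1.pow 2))
    have hcb : ∀ K, Continuous (bulk b h N v t K) := fun K => continuous_bulk hA hN hN0 hv ht K
    have hib : ∀ K, Integrable (bulk b h N v t K) μ := fun K => cont_int (hcb K)
    have h1 : ∀ x, ((m : ℝ) + 1) * m + (2 * (g x * dt (dt D) (x, t)) +
        (1 + 1 / (m : ℝ)) * (g x * dt D (x, t) ^ 2)) ≤ ∑ K, bulk b h N v t K x := by
      intro x
      have h2 := point_le hm hh hN hN0 hv x ht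
      have h3 := hs x t ht
      have h4 : (N x ^ 2)⁻¹ * (2 * dt (dt D) (x, t) + (1 + 1 / (m : ℝ)) * dt D (x, t) ^ 2) =
          2 * (g x * dt (dt D) (x, t)) + (1 + 1 / (m : ℝ)) * (g x * dt D (x, t) ^ 2) := by
        simp only [hg]
        ring
      rw [← hD, h4] at h2
      linarith
    have h5 : ∫ x, (((m : ℝ) + 1) * m + (2 * (g x * dt (dt D) (x, t)) +
        (1 + 1 / (m : ℝ)) * (g x * dt D (x, t) ^ 2))) ∂μ ≤ ∫ x, ∑ K, bulk b h N v t K x ∂μ := by
      refine integral_mono ?_ (integrable_finsetSum _ fun K _ => hib K) h1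
      exact (integrable_const _).add ((hi2.const_mul 2).add (hi3.const_mul _))
    have hj2 : Integrable (fun x => 2 * (g x * dt (dt D) (x, t))) μ := hi2.const_mul 2
    have hj3 : Integrable (fun x => (1 + 1 / (m : ℝ)) * (g x * dt D (x, t) ^ 2)) μ :=
      hi3.const_mul _
    have hj4 : Integrable (fun x => 2 * (g x * dt (dt D) (x, t)) +
        (1 + 1 / (m : ℝ)) * (g x * dt D (x, t) ^ 2)) μ := hj2.add hj3
    have hj5 : ∫ x, 2 * (g x * dt (dt D) (x, t)) ∂μ = 2 * ∫ x, g x * dt (dt D) (x, t) ∂μ :=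
      integral_const_mul _ _
    have hj6 : ∫ x, (1 + 1 / (m : ℝ)) * (g x * dt D (x, t) ^ 2) ∂μ =
        (1 + 1 / (m : ℝ)) * ∫ x, g x * dt D (x, t) ^ 2 ∂μ := integral_const_mul _ _
    rw [integral_finsetSum _ fun K _ => hib K, integral_add (integrable_const _) hj4,
      integral_add hj2 hj3, hj5, hj6, integral_const, smul_eq_mul] at h5
    have h6 : ∑ K, ∫ x, bulk b h N v t K x ∂μ ≤ 0 := Finset.sum_nonpos fun K _ =>
      int_bulk hA hN hN0 hv ht (diag_path hh ht) (vol_path hh ht) (hμt t ht) K (hK K)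
    set a1 : ℝ := ∫ x, g x * dt D (x, t) ∂μ with ha1
    set a2 : ℝ := ∫ x, g x * dt (dt D) (x, t) ∂μ with ha2
    set a3 : ℝ := ∫ x, g x * dt D (x, t) ^ 2 ∂μ with ha3
    -- Cauchy-Schwarz
    have hcs : Z * (a1 / Z) ^ 2 ≤ a3 := by
      have h7 : 0 ≤ ∫ x, g x * (dt D (x, t) - a1 / Z) ^ 2 ∂μ :=
        integral_nonneg fun x => mul_nonneg (hgpos x).le (sq_nonneg _)
      have h8 : (fun x => g x * (dt D (x, t) - a1 / Z) ^ 2) = fun x =>
          g x * dt D (x, t) ^ 2 - (2 * (a1 / Z)) * (g x * dt D (x, t)) + (a1 / Z) ^ 2 * g x := by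
        funext x
        ring
      have hk1 : Integrable (fun x => (2 * (a1 / Z)) * (g x * dt D (x, t))) μ := hi1.const_mul _
      have hk2 : Integrable (fun x => g x * dt D (x, t) ^ 2 -
          (2 * (a1 / Z)) * (g x * dt D (x, t))) μ := hi3.sub hk1
      rw [h8, integral_add hk2 (hgi.const_mul _), integral_sub hi3 hk1, integral_const_mul,
        integral_const_mul] at h7
      have h9 : 2 * (a1 / Z) * a1 = 2 * (Z * (a1 / Z) ^ 2) := by
        field_simp
      rw [← ha1, ← ha3, ← hZ, h9] at h7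
      nlinarith [h7]
    have hcs' : 0 ≤ (1 + 1 / (m : ℝ)) := by positivity
    have h10 : ((m : ℝ) + 1) * m * (N x₀ ^ 2 * Z) + 2 * a2 + (1 + 1 / (m : ℝ)) *
        (Z * (a1 / Z) ^ 2) ≤ 0 := by
      have h11 := mul_le_mul_of_nonneg_left hcs hcs'
      have h12 := mul_le_mul_of_nonneg_left hZle (by positivity : 0 ≤ ((m : ℝ) + 1) * m)
      nlinarith [h5, h6, h11, h12]
    have h13 : (1 + 1 / (m : ℝ)) = ((m : ℝ) + 1) / m := by
      field_simp
    rw [h13] at h10
    rw [div_le_iff₀ hZpos]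
    nlinarith [h10]
  have hfin := ode_bound hmR (hN0 x₀) hf hineq
  refine ⟨x₀, ?_⟩
  rw [le_div_iff₀ (by positivity)]
  linarith

end Pool.Agent.Work.MP_2fa4be_gt.MB
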