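import Pool.Agent.Work.MP_2fa4be_gt.MB.Mcm

/-!
# Module BlockIneq (size M): the slices

`G` block diagonal; the determinant of the block with label `K` has zero derivative in the
directions of the other labels. For smooth `v_K` and `u`, with `q` the number of indices of label
`K`, `Δ`, `grd` for the block `G_K` and its directions, `w = ww b v u K = u + ∑_{L ≠ K} q_L v_L`:

  `Φ(mcm b v G, u) ≤ ∑_K exp(-2 v_K) (scal G_K - 2(q-1) Δ v_K - (q-1)(q-2) |∇v_K|²
       - 2 (Δ w + (q-2) ∇v_K·∇w) - |∇w|²)`.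

Proof. `Phi_multi` for `mcm b v G` (`mcm_good`, `mcm_diag`), `blk_mcm`: the `K`-th term is
`Φ(cm v_K G_K, W)` with `W = u + lnv (mcm b v G) - lnv (cm v_K G_K)`. By `lnv_mcm`, `lnv_blk`,
`lnv_cm` on `U`: `W = u + ∑_L q_L v_L - q_K v_K + ∑_{L ≠ K} lnv G_L = w + c`,
`c = ∑_{L ≠ K} lnv G_L` (note `∑_i v_{b(i)} = ∑_L q_L v_L`, `Finset.sum_fiberwise`). For `i` with
label `K` and all `z ∈ U`: `∂_i c (z) = 0`, because `∂_i det G_L = 0` for `L ≠ K` and
`lnv = (1/2) log det` (`pd_const_mul`, `pd_log`). Hence `∂_i W = ∂_i w` on `U` for these `i`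
(`pd_add`), and also the second derivatives in such directions agree (`pd_congr_on`); so
`lap (bfr e b K) G' W y = lap (bfr e b K) G' w y` and the same for `grd`, for every `G'`.
Finally `scal_cm`, `lap_cm`, `grd_cm` (for the block matrix `G_K`, frame `bfr e b K`,
`Fintype.card {i // b i = K} = q`).
-/

namespace Pool.Agent.Work.MP_2fa4be_gt.MB

open Pool.Agent.Work.MP_2fa4be_gt
open scoped ContDiff

variable {E ι J : Type*} [NormedAddCommGroup E] [NormedSpace ℝ E] [Fintype ι] [DecidableEq ι]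
  [Fintype J] [DecidableEq J] {U : Set E} {G : E → Matrix ι ι ℝ} {y : E} {u : E → ℝ} {b : ι → J}
  {v : J → E → ℝ}

private theorem lap_of_pd {κ : Type*} [Fintype κ] [DecidableEq κ] (hU : IsOpen U) {e : κ → E}
    {A : E → Matrix κ κ ℝ} {W w : E → ℝ} (hW : ∀ z ∈ U, ∀ i, pd e i W z = pd e i w z)
    (hy : y ∈ U) : lap e A W y = lap e A w y := by
  unfold lap
  refine Finset.sum_congr rfl fun i _ => Finset.sum_congr rfl fun j _ => ?_
  have h1 : pd e i (pd e j W) y = pd e i (pd e j w) y :=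
    pd_congr_on hU (fun z hz => hW z hz j) hy i
  have h2 : ∀ k, pd e k W y = pd e k w y := fun k => hW y hy k
  simp only [h1, h2]

private theorem grd_of_pd {κ : Type*} [Fintype κ] [DecidableEq κ] {e : κ → E}
    {A : E → Matrix κ κ ℝ} {W w : E → ℝ} (hW : ∀ z ∈ U, ∀ i, pd e i W z = pd e i w z)
    (hy : y ∈ U) : grd e A W W y = grd e A w w y := by
  unfold grd
  refine Finset.sum_congr rfl fun i _ => Finset.sum_congr rfl fun j _ => ?_
  rw [hW y hy i, hW y hy j]

private theorem sum_lab (b : ι → J) (f : J → ℝ) :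
    ∑ i, f (b i) = ∑ L, (Fintype.card {i // b i = L} : ℝ) * f L := by
  rw [← Finset.sum_fiberwise (s := (Finset.univ : Finset ι)) (g := b) (f := fun i => f (b i))]
  refine Finset.sum_congr rfl fun L _ => ?_
  rw [Finset.sum_congr rfl (g := fun _ => f L)]
  · rw [Finset.sum_const, nsmul_eq_mul, Fintype.card_subtype]
  · intro i hi
    rw [(Finset.mem_filter.mp hi).2]

theorem block_le (h : GoodMat U G) (hd : ∀ z ∈ U, ∀ i j, b i ≠ b j → G z i j = 0) (e : ι → E)
    (hvol : ∀ z ∈ U, ∀ K i, b i ≠ K → pd e i (fun z => (blk b K G z).det) z = 0)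
    (hv : ∀ K, ContDiffOn ℝ ∞ (v K) U) (hu : ContDiffOn ℝ ∞ u U) (hy : y ∈ U) :
    Phi e (mcm b v G) u y ≤ ∑ K, Real.exp (-(2 * v K y)) *
      (scal (bfr e b K) (blk b K G) y -
        2 * ((Fintype.card {i // b i = K} : ℝ) - 1) * lap (bfr e b K) (blk b K G) (v K) y -
        ((Fintype.card {i // b i = K} : ℝ) - 1) * ((Fintype.card {i // b i = K} : ℝ) - 2) *
          grd (bfr e b K) (blk b K G) (v K) (v K) y -
        2 * (lap (bfr e b K) (blk b K G) (ww b v u K) y +
          ((Fintype.card {i // b i = K} : ℝ) - 2) *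
            grd (bfr e b K) (blk b K G) (v K) (ww b v u K) y) -
        grd (bfr e b K) (blk b K G) (ww b v u K) (ww b v u K) y) := by
  have hG' := mcm_good (b := b) h hv
  refine (Phi_multi hG' (mcm_diag hd) hu hy e).trans (le_of_eq ?_)
  refine Finset.sum_congr rfl fun K _ => ?_
  have hK : GoodMat U (blk b K G) := good_blk h K
  rw [blk_mcm]
  set W : E → ℝ := fun z => u z + (lnv (mcm b v G) z - lnv (cm (v K) (blk b K G)) z) with hWdef
  have hww : ContDiffOn ℝ ∞ (ww b v u K) U := by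
    unfold ww
    exact hu.add (ContDiffOn.sum fun L _ => contDiffOn_const.mul (hv L))
  have hln : ∀ L, ContDiffOn ℝ ∞ (lnv (blk b L G)) U := fun L => lnv_smooth (good_blk h L)
  have hW1 : ∀ z ∈ U, W z = ww b v u K z + ∑ L ∈ Finset.univ.erase K, lnv (blk b L G) z := by
    intro z hz
    simp only [hWdef, ww]
    rw [lnv_mcm h hz, lnv_cm hK hz, lnv_blk h hd hz, sum_lab b (fun L => v L z),
      ← Finset.add_sum_erase Finset.univ _ (Finset.mem_univ K),
      ← Finset.add_sum_erase Finset.univ (fun L => lnv (blk b L G) z) (Finset.mem_univ K)]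
    ring
  have hW : ∀ z ∈ U, ∀ i, pd (bfr e b K) i W z = pd (bfr e b K) i (ww b v u K) z := by
    intro z hz i
    have h1 : pd (bfr e b K) i W z =
        pd (bfr e b K) i (fun z => ww b v u K z + ∑ L ∈ Finset.univ.erase K, lnv (blk b L G) z)
          z := pd_congr_on h.isOpen hW1 hz i
    have hdl : ∀ L ∈ Finset.univ.erase K, DifferentiableAt ℝ (lnv (blk b L G)) z :=
      fun L _ => diffAt h.isOpen (hln L) hz
    rw [h1, pd_add (diffAt h.isOpen hww hz) (DifferentiableAt.fun_sum hdl), pd_sum hdl]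
    have h2 : ∑ L ∈ Finset.univ.erase K, pd (bfr e b K) i (lnv (blk b L G)) z = 0 := by
      refine Finset.sum_eq_zero fun L hL => ?_
      have hL' : L ≠ K := Finset.ne_of_mem_erase hL
      have hGL := good_blk (b := b) h L
      have hdet : DifferentiableAt ℝ (fun z => (blk b L G z).det) z :=
        diffAt h.isOpen (det_smooth' hGL) hz
      have h3 : pd (bfr e b K) i (fun z => (blk b L G z).det) z = 0 :=
        hvol z hz L i.1 (by rw [i.2]; exact hL'.symm)
      have h4 : pd (bfr e b K) i (fun z => (1 / 2) * Real.log (blk b L G z).det) z = 0 := by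
        rw [pd_const_mul (hdet.log (hGL.det_ne hz)), pd_log hdet (hGL.det_ne hz), h3, mul_zero,
          mul_zero]
      exact h4
    rw [h2, add_zero]
  unfold Phi
  rw [lap_of_pd h.isOpen hW hy, grd_of_pd hW hy, scal_cm hK (hv K) hy, lap_cm hK (hv K) hy,
    grd_cm hK hy]
  ring

end Pool.Agent.Work.MP_2fa4be_gt.MB
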