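import Pool.Agent.Work.MP_2fa4be_gt.MB.LnD

/-!
# Module Slice (size S-M): curvature of the slices

`A` is a smooth positive matrix function on `U × I ⊂ E × ℝ`, `A_t = A (·, t)`. The frame
`fun i => fr e (Sum.inl i)` consists of the vectors `(e i, 0)`.

`pd_inl` (Band.lean): `pd (fr e) (Sum.inl i) F (y,t) = pd e i (sl t F) y` for `F` differentiable at
`(y,t)`, and `pd (fun i => fr e (Sum.inl i)) i F z = pd (fr e) (Sum.inl i) F z` by `rfl`. So the
Christoffel symbols of `A` at `(y,t)` in this frame are those of `A_t` at `y`, for all `y ∈ U`;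
then their derivatives agree (`pd_congr_on` on the open set `U`), so do the Ricci curvature and
everything else.
-/

namespace Pool.Agent.Work.MP_2fa4be_gt.MB

open Pool.Agent.Work.MP_2fa4be_gt
open scoped ContDiff

variable {E ι : Type*} [NormedAddCommGroup E] [NormedSpace ℝ E] [Fintype ι] [DecidableEq ι]
  {U : Set E} {I : Set ℝ} {A : E × ℝ → Matrix ι ι ℝ} {y : E} {t : ℝ} {u w : E × ℝ → ℝ}

theorem good_sl (hA : GoodMat (U ×ˢ I) A) (hU : IsOpen U) (ht : t ∈ I) :
    GoodMat U (fun z => A (z, t)) where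
  isOpen := hU
  smooth i j := by
    have h1 : ContDiffOn ℝ ∞ (fun z : E => (z, t)) U := contDiffOn_id.prodMk contDiffOn_const
    exact (hA.smooth i j).comp h1 (fun z hz => Set.mk_mem_prod hz ht)
  pos z hz := hA.pos (z, t) (Set.mk_mem_prod hz ht)

omit [Fintype ι] [DecidableEq ι] in
private theorem sl_pd {F : E × ℝ → ℝ} {y : E} {t : ℝ} (hF : DifferentiableAt ℝ F (y, t))
    (e : ι → E) (i : ι) :
    pd (fun i => fr e (Sum.inl i)) i F (y, t) = pd e i (fun z => F (z, t)) y :=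
  pd_inl hF i

private theorem sl_chr (hA : GoodMat (U ×ˢ I) A) (hy : y ∈ U) (ht : t ∈ I) (e : ι → E)
    (k i j : ι) :
    chr (fun i => fr e (Sum.inl i)) A k i j (y, t) = chr e (fun z => A (z, t)) k i j y := by
  have hd : ∀ i j, DifferentiableAt ℝ (fun z => A z i j) (y, t) := fun i j =>
    diffAt hA.isOpen (hA.smooth i j) (Set.mk_mem_prod hy ht)
  unfold chr
  congr 1
  refine Finset.sum_congr rfl fun l _ => ?_
  rw [sl_pd (hd j l), sl_pd (hd i l), sl_pd (hd i j)]

private theorem sl_ric (hA : GoodMat (U ×ˢ I) A) (hU : IsOpen U) (hy : y ∈ U) (ht : t ∈ I)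
    (e : ι → E) (j k : ι) :
    ric (fun i => fr e (Sum.inl i)) A j k (y, t) = ric e (fun z => A (z, t)) j k y := by
  have hd : ∀ a k i j, pd (fun i => fr e (Sum.inl i)) a
      (chr (fun i => fr e (Sum.inl i)) A k i j) (y, t) =
      pd e a (chr e (fun z => A (z, t)) k i j) y := by
    intro a k i j
    rw [sl_pd (diffAt hA.isOpen (hA.chr_smooth k i j) (Set.mk_mem_prod hy ht))]
    exact pd_congr_on hU (fun z hz => sl_chr hA hz ht e k i j) hy a
  unfold ric
  simp only [hd, sl_chr hA hy ht e]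

theorem scal_sl (hA : GoodMat (U ×ˢ I) A) (hU : IsOpen U) (hy : y ∈ U) (ht : t ∈ I) (e : ι → E) :
    scal (fun i => fr e (Sum.inl i)) A (y, t) = scal e (fun z => A (z, t)) y := by
  unfold scal
  simp only [sl_ric hA hU hy ht e]

theorem lap_sl (hA : GoodMat (U ×ˢ I) A) (hU : IsOpen U) (hu : ContDiffOn ℝ ∞ u (U ×ˢ I))
    (hy : y ∈ U) (ht : t ∈ I) (e : ι → E) :
    lap (fun i => fr e (Sum.inl i)) A u (y, t) =
      lap e (fun z => A (z, t)) (fun z => u (z, t)) y := by
  have hd : ∀ k, pd (fun i => fr e (Sum.inl i)) k u (y, t) = pd e k (fun z => u (z, t)) y :=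
    fun k => sl_pd (diffAt hA.isOpen hu (Set.mk_mem_prod hy ht)) e k
  have hdd : ∀ i j, pd (fun i => fr e (Sum.inl i)) i (pd (fun i => fr e (Sum.inl i)) j u) (y, t) =
      pd e i (pd e j (fun z => u (z, t))) y := by
    intro i j
    rw [sl_pd (diffAt hA.isOpen (pd_smooth hA.isOpen hu j) (Set.mk_mem_prod hy ht))]
    exact pd_congr_on hU (fun z hz =>
      sl_pd (diffAt hA.isOpen hu (Set.mk_mem_prod hz ht)) e j) hy i
  unfold lap
  simp only [hd, hdd, sl_chr hA hy ht e]

theorem grd_sl (hA : GoodMat (U ×ˢ I) A) (hu : ContDiffOn ℝ ∞ u (U ×ˢ I))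
    (hw : ContDiffOn ℝ ∞ w (U ×ˢ I)) (hy : y ∈ U) (ht : t ∈ I) (e : ι → E) :
    grd (fun i => fr e (Sum.inl i)) A u w (y, t) =
      grd e (fun z => A (z, t)) (fun z => u (z, t)) (fun z => w (z, t)) y := by
  have hd : ∀ k, pd (fun i => fr e (Sum.inl i)) k u (y, t) = pd e k (fun z => u (z, t)) y :=
    fun k => sl_pd (diffAt hA.isOpen hu (Set.mk_mem_prod hy ht)) e k
  have hd' : ∀ k, pd (fun i => fr e (Sum.inl i)) k w (y, t) = pd e k (fun z => w (z, t)) y :=
    fun k => sl_pd (diffAt hA.isOpen hw (Set.mk_mem_prod hy ht)) e k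
  unfold grd
  simp only [hd, hd']

end Pool.Agent.Work.MP_2fa4be_gt.MB
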