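import Pool.Agent.Work.MP_2fa4be_gt.MB.LnD

/-!
# Module TauPos (size M): positivity of the trace terms

`rr e B a = (1/2) B⁻¹ S_a` with `S_a = ∂_a B` symmetric (`GoodMat.pd_symm`, stated for a family
indexed like the matrix; use it with the constant family `fun _ => e a`).

* Key fact: if `B` is positive definite and `S` symmetric then `tr((B⁻¹ S)²) ≥ 0` and
  `(tr(B⁻¹ S))² ≤ q tr((B⁻¹ S)²)`, `q` the size. Proof: write `B⁻¹ = Dᵀ D`
  (`Matrix.posSemidef_iff_eq_conjTranspose_mul_self` or the like); with the symmetric matrix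
  `X = D S Dᵀ` we have `tr(B⁻¹ S) = tr X` and `tr(B⁻¹ S B⁻¹ S) = tr(X X) = ∑_{ij} X_{ij}²`
  (cyclicity of the trace), and `(∑_i X_{ii})² ≤ q ∑_i X_{ii}²` (`sq_sum_le_card_mul_sum_sq`).
* `tr_sq_le` is the second fact divided by 4.
* `tau_nonneg`: `A⁻¹` is positive definite, write `A⁻¹ = Cᵀ C`, so `A^{ab} = ∑_k C_{ka} C_{kb}` and
  `tau = ∑_k tr(R_k²)`, `R_k = ∑_a C_{ka} rr e B a = (1/2) B⁻¹ (∑_a C_{ka} S_a)`; apply the first
  fact to each `k`.
-/

namespace Pool.Agent.Work.MP_2fa4be_gt.MB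

open Pool.Agent.Work.MP_2fa4be_gt
open scoped ContDiff

variable {E ι κ η : Type*} [NormedAddCommGroup E] [NormedSpace ℝ E] [Fintype ι] [DecidableEq ι]
  [Fintype κ] [DecidableEq κ] {U : Set E} {A : E → Matrix ι ι ℝ} {B : E → Matrix κ κ ℝ} {y : E}

open scoped MatrixOrder in
private theorem psd_fac {n : Type*} [Fintype n] [DecidableEq n] {M : Matrix n n ℝ}
    (hM : M.PosSemidef) : ∃ C : Matrix n n ℝ, M = C.transpose * C := by
  obtain ⟨C, hC⟩ := CStarAlgebra.nonneg_iff_eq_star_mul_self.mp hM.nonneg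
  refine ⟨C, ?_⟩
  rw [hC, Matrix.star_eq_conjTranspose, Matrix.conjTranspose_eq_transpose_of_trivial]

private theorem tr_key {n : Type*} [Fintype n] [DecidableEq n] {B S : Matrix n n ℝ}
    (hB : B.PosDef) (hS : S.transpose = S) :
    ∃ X : Matrix n n ℝ, (B⁻¹ * S).trace = X.trace ∧
      (B⁻¹ * S * (B⁻¹ * S)).trace = ∑ i, ∑ j, X i j ^ 2 := by
  obtain ⟨D, hD⟩ := psd_fac hB.inv.posSemidef
  refine ⟨D * S * D.transpose, ?_, ?_⟩
  · rw [hD, Matrix.mul_assoc, Matrix.trace_mul_comm, Matrix.mul_assoc]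
  · have h1 : (B⁻¹ * S * (B⁻¹ * S)).trace =
        ((D * S * D.transpose) * (D * S * D.transpose)).trace := by
      rw [hD]
      rw [show D.transpose * D * S * (D.transpose * D * S) =
        D.transpose * (D * S * (D.transpose * D * S)) by simp only [Matrix.mul_assoc]]
      rw [Matrix.trace_mul_comm]
      simp only [Matrix.mul_assoc]
    rw [h1, Matrix.trace]
    refine Finset.sum_congr rfl fun i _ => ?_
    rw [Matrix.diag_apply, Matrix.mul_apply]
    refine Finset.sum_congr rfl fun j _ => ?_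
    have h2 : (D * S * D.transpose).transpose = D * S * D.transpose := by
      rw [Matrix.transpose_mul, Matrix.transpose_mul, Matrix.transpose_transpose, hS,
        Matrix.mul_assoc]
    have h3 : (D * S * D.transpose) j i = (D * S * D.transpose) i j :=
      congrFun (congrFun h2 i) j
    rw [h3, sq]

private theorem tr_nonneg {n : Type*} [Fintype n] [DecidableEq n] {B S : Matrix n n ℝ}
    (hB : B.PosDef) (hS : S.transpose = S) : 0 ≤ (B⁻¹ * S * (B⁻¹ * S)).trace := by
  obtain ⟨X, _, h⟩ := tr_key hB hS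
  rw [h]
  positivity

private theorem tr_sq {n : Type*} [Fintype n] [DecidableEq n] {B S : Matrix n n ℝ}
    (hB : B.PosDef) (hS : S.transpose = S) :
    (B⁻¹ * S).trace ^ 2 ≤ (Fintype.card n : ℝ) * (B⁻¹ * S * (B⁻¹ * S)).trace := by
  obtain ⟨X, h1, h2⟩ := tr_key hB hS
  rw [h1, h2]
  have h3 : X.trace ^ 2 ≤ (Fintype.card n : ℝ) * ∑ i, X i i ^ 2 := by
    have := sq_sum_le_card_mul_sum_sq (s := (Finset.univ : Finset n)) (f := fun i => X i i)
    rwa [Finset.card_univ] at this
  refine h3.trans ?_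
  refine mul_le_mul_of_nonneg_left ?_ (by positivity)
  refine Finset.sum_le_sum fun i _ => ?_
  exact Finset.single_le_sum (f := fun j => X i j ^ 2) (fun j _ => sq_nonneg _)
    (Finset.mem_univ i)

private theorem pd_symm' (hB : GoodMat U B) (hy : y ∈ U) (v : E) (i j : κ) :
    fderiv ℝ (fun z => B z i j) y v = fderiv ℝ (fun z => B z j i) y v :=
  hB.pd_symm (e := fun _ => v) hy i i j

private theorem S_symm (hB : GoodMat U B) (hy : y ∈ U) (e : η → E) (a : η) :
    (Matrix.of fun i j => pd e a (fun z => B z i j) y : Matrix κ κ ℝ).transpose =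
      Matrix.of fun i j => pd e a (fun z => B z i j) y := by
  ext i j
  rw [Matrix.transpose_apply, Matrix.of_apply, Matrix.of_apply]
  exact pd_symm' hB hy (e a) j i

theorem tr_sq_le (hB : GoodMat U B) (hy : y ∈ U) (e : η → E) (a : η) :
    (rr e B a y).trace ^ 2 ≤ (Fintype.card κ : ℝ) * (rr e B a y * rr e B a y).trace := by
  have h1 := tr_sq (hB.pos y hy) (S_symm hB hy e a)
  unfold rr
  rw [Matrix.smul_mul, Matrix.mul_smul, Matrix.trace_smul, Matrix.trace_smul, Matrix.trace_smul]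
  simp only [smul_eq_mul]
  nlinarith [h1]

theorem tau_nonneg (hA : GoodMat U A) (hB : GoodMat U B) (hy : y ∈ U) (e : ι → E) :
    0 ≤ tau e A B y := by
  obtain ⟨C, hC⟩ := psd_fac (hA.pos y hy).inv.posSemidef
  set S : ι → Matrix κ κ ℝ := fun a => Matrix.of fun i j => pd e a (fun z => B z i j) y with hS
  have hSs : ∀ a, (S a).transpose = S a := fun a => S_symm hB hy e a
  have hR : ∀ a, rr e B a y = (1 / 2 : ℝ) • ((B y)⁻¹ * S a) := fun a => rfl
  have h1 : tau e A B y = ∑ k, (1 / 4 : ℝ) *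
      ((B y)⁻¹ * (∑ a, C k a • S a) * ((B y)⁻¹ * (∑ a, C k a • S a))).trace := by
    have h2 : ∀ k, ((B y)⁻¹ * (∑ a, C k a • S a) * ((B y)⁻¹ * (∑ a, C k a • S a))).trace =
        ∑ a, ∑ b, C k a * C k b * ((B y)⁻¹ * S a * ((B y)⁻¹ * S b)).trace := by
      intro k
      rw [Matrix.mul_sum, Finset.sum_mul, Matrix.trace_sum]
      refine Finset.sum_congr rfl fun a _ => ?_
      rw [Finset.mul_sum, Matrix.trace_sum]
      refine Finset.sum_congr rfl fun b _ => ?_
      rw [Matrix.mul_smul, Matrix.mul_smul, Matrix.smul_mul, Matrix.mul_smul,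
        Matrix.trace_smul, Matrix.trace_smul]
      simp only [smul_eq_mul]
      ring
    have h3 : tau e A B y = ∑ a, ∑ b, ∑ k,
        (1 / 4 : ℝ) * (C k a * C k b * ((B y)⁻¹ * S a * ((B y)⁻¹ * S b)).trace) := by
      unfold tau
      refine Finset.sum_congr rfl fun a _ => Finset.sum_congr rfl fun b _ => ?_
      rw [hC, Matrix.mul_apply, Finset.sum_mul]
      refine Finset.sum_congr rfl fun k _ => ?_
      rw [hR, hR, Matrix.smul_mul, Matrix.mul_smul, Matrix.trace_smul, Matrix.trace_smul,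
        Matrix.transpose_apply]
      simp only [smul_eq_mul]
      ring
    rw [h3, Finset.sum_congr rfl fun a _ => Finset.sum_comm, Finset.sum_comm]
    refine Finset.sum_congr rfl fun k _ => ?_
    rw [h2 k, Finset.mul_sum]
    refine Finset.sum_congr rfl fun a _ => ?_
    rw [Finset.mul_sum]
  rw [h1]
  refine Finset.sum_nonneg fun k _ => mul_nonneg (by norm_num) (tr_nonneg (hB.pos y hy) ?_)
  rw [Matrix.transpose_sum]
  refine Finset.sum_congr rfl fun a _ => ?_
  rw [Matrix.transpose_smul, hSs]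

end Pool.Agent.Work.MP_2fa4be_gt.MB
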