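import Pool.Agent.Work.MP_2fa4be_gt.MB.TwoBlock
import Pool.Agent.Work.MP_2fa4be_gt.MB.TauPos
import Pool.Agent.Work.MP_2fa4be_gt.MB.Slice

/-!
# Module PathIneq (size M): scalar curvature of `N(y)² dt² + A(y,t)`

With `D(y,t) = lnv A (y,t)`, `q` the number of indices of `A`:

  `scal(N² dt² + A) ≤ Φ(A_t, log N) - N⁻² (2 D'' + (1 + 1/q) D'²)`   at `(y,t)`.

Proof. `pathMat A N = two A B`, `B z` the `1 × 1` matrix `N(z.1)²` (by `rfl`), a good matrix
(`lnv B z = log N(z.1)` by `Matrix.det_unique`, `Real.log_pow`). `Phi_two` with `u = 0` and the frame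
`fr e`: the left side is `scal` (`lap` and `grd` of the zero function vanish), so

  `scal = Φ₁(A, log N) + Φ₂(B, lnv A) - tau₁(A; B) - tau₂(B; A)`.

* `Φ₁(A, log N) (y,t) = Φ(A_t, log N) y` by `scal_sl`, `lap_sl`, `grd_sl` (and the function
  `0 + lnv B` is `log N(z.1)`);
* `Φ₂(B, D)`: only the direction `t`; `scal` of a `1 × 1` matrix is zero (its Ricci curvature is
  `(∂Γ - ∂Γ) + (ΓΓ - ΓΓ)`), its Christoffel symbol is zero as `N` does not depend on `t`
  (`pd_inr`, derivative of a constant), so `lap = N⁻² ∂_t ∂_t D`, `grd = N⁻² (∂_t D)²` and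
  `Φ₂ = -2 N⁻² D'' - N⁻² D'²` (use `pd_inr` twice, as for `hf2` in `scal_space`, Space.lean);
* `tau₁ ≥ 0` by `tau_nonneg`;
* `tau₂(B; A) = N⁻² tr(R R)` with `R = rr e₂ A ()` and `tr(R R) ≥ (tr R)²/q = (∂_t D)²/q` by
  `tr_sq_le` and `pd_lnv`.
-/

namespace Pool.Agent.Work.MP_2fa4be_gt.MB

open Pool.Agent.Work.MP_2fa4be_gt
open scoped ContDiff

variable {E ι : Type*} [NormedAddCommGroup E] [NormedSpace ℝ E] [Fintype ι] [DecidableEq ι]
  {U : Set E} {I : Set ℝ} {A : E × ℝ → Matrix ι ι ℝ} {N : E → ℝ} {y : E} {t : ℝ}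

/-- the block of the time direction -/
private noncomputable def Bt (N : E → ℝ) (z : E × ℝ) : Matrix Unit Unit ℝ :=
  Matrix.of fun _ _ => N z.1 ^ 2

omit [NormedSpace ℝ E] in
private theorem Bt_diag (z : E × ℝ) : Bt N z = Matrix.diagonal fun _ => N z.1 ^ 2 := by
  ext i j
  rw [Subsingleton.elim i j, Matrix.diagonal_apply_eq]
  rfl

private theorem Bt_good (hU : IsOpen U) (hI : IsOpen I) (hN : ContDiffOn ℝ ∞ N U)
    (hN0 : ∀ z ∈ U, 0 < N z) : GoodMat (U ×ˢ I) (Bt N) where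
  isOpen := hU.prod hI
  smooth i j := by
    have h1 : ContDiffOn ℝ ∞ (fun z : E × ℝ => N z.1) (U ×ˢ I) :=
      hN.comp contDiffOn_fst (fun z hz => hz.1)
    exact h1.pow 2
  pos z hz := by
    rw [Bt_diag]
    exact Matrix.PosDef.diagonal fun _ => pow_pos (hN0 z.1 hz.1) 2

omit [NormedSpace ℝ E] in
private theorem Bt_lnv (z : E × ℝ) : lnv (Bt N) z = Real.log (N z.1) := by
  unfold lnv
  rw [Matrix.det_unique]
  change 1 / 2 * Real.log (N z.1 ^ 2) = _
  rw [Real.log_pow]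
  push_cast
  ring

omit [NormedSpace ℝ E] in
private theorem Bt_inv {z : E × ℝ} (h : N z.1 ≠ 0) : (Bt N z)⁻¹ () () = (N z.1 ^ 2)⁻¹ := by
  have h2 : (Bt N z)⁻¹ = Matrix.diagonal fun _ => (N z.1 ^ 2)⁻¹ := by
    rw [Bt_diag]
    apply Matrix.inv_eq_right_inv
    rw [Matrix.diagonal_mul_diagonal]
    have h3 : (fun _ : Unit => N z.1 ^ 2 * (N z.1 ^ 2)⁻¹) = fun _ => 1 := by
      funext _
      exact mul_inv_cancel₀ (pow_ne_zero 2 h)
    rw [h3, Matrix.diagonal_one]
  rw [h2, Matrix.diagonal_apply_eq]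

omit [Fintype ι] [DecidableEq ι] in
private theorem pth_pd {F : E × ℝ → ℝ} (hF : DifferentiableAt ℝ F (y, t)) (e : ι → E) :
    pd (fun α => fr e (Sum.inr α)) () F (y, t) = deriv (fun s => F (y, s)) t :=
  pd_inr hF

private theorem pth_zero {κ : Type*} [Fintype κ] [DecidableEq κ] (e' : κ → E × ℝ)
    (G : E × ℝ → Matrix κ κ ℝ) (z : E × ℝ) :
    Phi e' G (fun _ => 0) z = scal e' G z := by
  have h0 : ∀ i, pd e' i (fun _ : E × ℝ => (0 : ℝ)) = fun _ => 0 := by
    intro i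
    funext w
    unfold pd
    simp
  unfold Phi lap grd
  simp only [h0, mul_zero, Finset.sum_const_zero, sub_zero]

private theorem scal_one (e' : Unit → E × ℝ) (G : E × ℝ → Matrix Unit Unit ℝ) (z : E × ℝ) :
    scal e' G z = 0 := by
  unfold scal ric
  simp

theorem path_le (hA : GoodMat (U ×ˢ I) A) (hU : IsOpen U) (hI : IsOpen I)
    (hN : ContDiffOn ℝ ∞ N U) (hN0 : ∀ z ∈ U, 0 < N z) (hq : 0 < Fintype.card ι) (hy : y ∈ U)
    (ht : t ∈ I) (e : ι → E) :
    scal (fr e) (pathMat A N) (y, t) ≤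
      Phi e (fun z => A (z, t)) (fun z => Real.log (N z)) y -
        (N y ^ 2)⁻¹ * (2 * deriv (fun s => deriv (fun r => lnv A (y, r)) s) t +
          (1 + 1 / (Fintype.card ι : ℝ)) * deriv (fun r => lnv A (y, r)) t ^ 2) := by
  have hmem : (y, t) ∈ U ×ˢ I := Set.mk_mem_prod hy ht
  have hB : GoodMat (U ×ˢ I) (Bt N) := Bt_good hU hI hN hN0
  have hO : IsOpen (U ×ˢ I) := hU.prod hI
  have hNy : 0 < N y := hN0 y hy
  have hD := lnv_smooth hA
  have e0 : pathMat A N = two A (Bt N) := rfl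
  have key := Phi_two (u := fun _ => (0 : ℝ)) hA hB contDiffOn_const hmem (fr e)
  rw [pth_zero, ← e0] at key
  have f1 : (fun z => (0 : ℝ) + lnv (Bt N) z) = fun z : E × ℝ => Real.log (N z.1) := by
    funext z
    rw [zero_add, Bt_lnv]
  have f2 : (fun z => (0 : ℝ) + lnv A z) = lnv A := by
    funext z
    rw [zero_add]
  rw [f1, f2] at key
  -- the slice
  have hlog : ContDiffOn ℝ ∞ (fun z : E × ℝ => Real.log (N z.1)) (U ×ˢ I) :=
    ContDiffOn.log (hN.comp contDiffOn_fst (fun z hz => hz.1)) fun z hz => (hN0 z.1 hz.1).ne'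
  have g1 : Phi (fun i => fr e (Sum.inl i)) A (fun z : E × ℝ => Real.log (N z.1)) (y, t) =
      Phi e (fun z => A (z, t)) (fun z => Real.log (N z)) y := by
    unfold Phi
    rw [scal_sl hA hU hy ht e, lap_sl hA hU hlog hy ht e, grd_sl hA hlog hlog hy ht e]
  -- the time direction
  have hinv : (Bt N (y, t))⁻¹ () () = (N y ^ 2)⁻¹ := Bt_inv (z := (y, t)) hNy.ne'
  have hBd : DifferentiableAt ℝ (fun z : E × ℝ => Bt N z () ()) (y, t) :=
    diffAt hO (hB.smooth () ()) hmem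
  have hpB : pd (fun α => fr e (Sum.inr α)) () (fun z : E × ℝ => Bt N z () ()) (y, t) = 0 := by
    rw [pth_pd hBd e]
    change deriv (fun _ => N y ^ 2) t = 0
    exact deriv_const _ _
  have hchr : chr (fun α => fr e (Sum.inr α)) (Bt N) () () () (y, t) = 0 := by
    unfold chr
    simp only [Finset.univ_unique, PUnit.default_eq_unit, Finset.sum_singleton]
    rw [hpB]
    ring
  have hp1 : ∀ s ∈ I, pd (fun α => fr e (Sum.inr α)) () (lnv A) (y, s) =
      deriv (fun r => lnv A (y, r)) s := fun s hs =>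
    pth_pd (diffAt hO hD (Set.mk_mem_prod hy hs)) e
  have hp2 : pd (fun α => fr e (Sum.inr α)) () (pd (fun α => fr e (Sum.inr α)) () (lnv A)) (y, t) =
      deriv (fun s => deriv (fun r => lnv A (y, r)) s) t := by
    rw [pth_pd (diffAt hO (pd_smooth hO hD ()) hmem) e]
    refine Filter.EventuallyEq.deriv_eq ?_
    filter_upwards [hI.mem_nhds ht] with s hs
    exact hp1 s hs
  have g2 : Phi (fun α => fr e (Sum.inr α)) (Bt N) (lnv A) (y, t) =
      -((N y ^ 2)⁻¹ * (2 * deriv (fun s => deriv (fun r => lnv A (y, r)) s) t +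
        deriv (fun r => lnv A (y, r)) t ^ 2)) := by
    unfold Phi
    rw [scal_one]
    unfold lap grd
    simp only [Finset.univ_unique, PUnit.default_eq_unit, Finset.sum_singleton]
    rw [hinv, hchr, hp2, hp1 t ht]
    ring
  have t1 := tau_nonneg hA hB hmem (fun i => fr e (Sum.inl i))
  have t2 : (N y ^ 2)⁻¹ * (deriv (fun r => lnv A (y, r)) t ^ 2 / (Fintype.card ι : ℝ)) ≤
      tau (fun α => fr e (Sum.inr α)) (Bt N) A (y, t) := by
    unfold tau
    simp only [Finset.univ_unique, PUnit.default_eq_unit, Finset.sum_singleton]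
    rw [hinv]
    have h1 := tr_sq_le hA hmem (fun α => fr e (Sum.inr α)) ()
    rw [← pd_lnv hA hmem, hp1 t ht] at h1
    have hq' : (0 : ℝ) < Fintype.card ι := by exact_mod_cast hq
    refine mul_le_mul_of_nonneg_left ?_ (by positivity)
    rw [div_le_iff₀ hq']
    linarith
  rw [g1, g2] at key
  rw [key]
  have h3 : (N y ^ 2)⁻¹ * (2 * deriv (fun s => deriv (fun r => lnv A (y, r)) s) t +
      (1 + 1 / (Fintype.card ι : ℝ)) * deriv (fun r => lnv A (y, r)) t ^ 2) =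
      (N y ^ 2)⁻¹ * (2 * deriv (fun s => deriv (fun r => lnv A (y, r)) s) t +
        deriv (fun r => lnv A (y, r)) t ^ 2) +
      (N y ^ 2)⁻¹ * (deriv (fun r => lnv A (y, r)) t ^ 2 / (Fintype.card ι : ℝ)) := by
    ring
  rw [h3]
  linarith

end Pool.Agent.Work.MP_2fa4be_gt.MB
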