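import Pool.Agent.Work.MP_2fa4be_gt.MB.ContM
import Pool.Agent.Work.MP_2fa4be_gt.MB.PathIneq
import Pool.Agent.Work.MP_2fa4be_gt.MB.BlockIneq

/-!
# Module Point (size M-L): the pointwise inequality on `M × (-1, 1)`

With `D(x,t) = ∑_i v_{b(i)}(x,t)` and `w_K(x) = log N(x) + ∑_{L ≠ K} q_L v_L(x,t)` (`wM` below).

Proof. Fix `x`, `t`, the preferred chart at `x`, `U = dom m x`, `I = (-1,1)`, `y = chartAt x x`
(`pt x y = x` by `pt_self`).
`A z = mcm b (fun K z => v K (pt x z.1, z.2)) (fun z => coeff (h z.2) x z.1) z` is a good matrix on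
`U ×ˢ I` (`mcm_good` on `E × ℝ`; `BlockPath.smooth`, positivity from `RMetric.pos`;
`smoothBand_chart` or `comp_pt_prod`). `path_le` gives
`mbScal ≤ Φ(A_t, log N) - N⁻² (2 D'' + (1 + 1/m) D'²)` where the derivatives are those of
`s ↦ lnv A (y,s)`; by `lnv_mcm` this is `∑_i v_{b(i)}(x,s) + lnv (coeff (h s) x) y`, and the last
term does not depend on `s` by `lnv_blk` and `BlockPath.volt` (`BlockPath.diag`). So the derivatives
are `dt D (x,t)` and `dt (dt D) (x,t)` (`Filter.EventuallyEq.deriv_eq`, unfold `dt`; a constant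
drops out). `A_t = mcm b (v K (pt x ·, t)) (coeff (h t) x)` by `rfl`, and `block_le` with
`u = log N (pt x ·)`, `hvol` from `volt` and `voly` (the determinant functions agree on `U`), bounds
`Φ(A_t, log N)`; drop `scal ≤ 0` (`BlockPath.scal`; `exp > 0`). The remaining terms are `lapM`,
`grdM` by definition: `ww b v u K` in the coordinates is `wM` composed with `pt x` (by `rfl` up to
unfolding).
-/

namespace Pool.Agent.Work.MP_2fa4be_gt.MB

open Pool.Agent.Work.MP_2fa4be_gt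
open scoped Manifold ContDiff

variable {m : ℕ} {J M : Type*} [TopologicalSpace M] [ChartedSpace (Eu m) M]
  [IsManifold (𝓡 m) ∞ M] [Fintype J] [DecidableEq J] {b : Fin m → J} {h : ℝ → RMetric m M}
  {N : M → ℝ} {v : J → M × ℝ → ℝ}

/-- `log N + ∑_{L ≠ K} q_L v_L(·, t)` -/
noncomputable def wM (b : Fin m → J) (v : J → M × ℝ → ℝ) (N : M → ℝ) (t : ℝ) (K : J) (x : M) : ℝ :=
  Real.log (N x) + ∑ L ∈ Finset.univ.erase K, (Fintype.card {i // b i = L} : ℝ) * v L (x, t)

/-- the part of the bound which is integrated over the slice -/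
noncomputable def bulk (b : Fin m → J) (h : ℝ → RMetric m M) (N : M → ℝ) (v : J → M × ℝ → ℝ)
    (t : ℝ) (K : J) (x : M) : ℝ :=
  Real.exp (-(2 * v K (x, t))) *
    (-(2 * ((Fintype.card {i // b i = K} : ℝ) - 1) * lapM b K (h t) (fun x => v K (x, t)) x) -
      ((Fintype.card {i // b i = K} : ℝ) - 1) * ((Fintype.card {i // b i = K} : ℝ) - 2) *
        grdM b K (h t) (fun x => v K (x, t)) (fun x => v K (x, t)) x -
      2 * (lapM b K (h t) (wM b v N t K) x +
        ((Fintype.card {i // b i = K} : ℝ) - 2) *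
          grdM b K (h t) (fun x => v K (x, t)) (wM b v N t K) x) -
      grdM b K (h t) (wM b v N t K) (wM b v N t K) x)

theorem point_le (hm : 0 < m) (hh : BlockPath b h) (hN : SmoothFun m N) (hN0 : ∀ x, 0 < N x)
    (hv : ∀ K, SmoothBand m (v K)) (x : M) {t : ℝ} (ht : t ∈ Set.Ioo (-1 : ℝ) 1) :
    mbScal b h N v x t ≤ ∑ K, bulk b h N v t K x -
      (N x ^ 2)⁻¹ * (2 * dt (dt (fun z => ∑ i, v (b i) z)) (x, t) +
        (1 + 1 / (m : ℝ)) * dt (fun z => ∑ i, v (b i) z) (x, t) ^ 2) := by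
  classical
  have hc : chartAt (Eu m) x ∈ atlas (Eu m) M := chart_mem_atlas (Eu m) x
  have hy : chartAt (Eu m) x x ∈ dom m x := mem_dom x
  have hptx : pt x (chartAt (Eu m) x x) = x := pt_self x
  have hUo : IsOpen (dom m x) := dom_open x
  -- the coefficients
  have hG : GoodMat (dom m x ×ˢ Set.Ioo (-1 : ℝ) 1)
      (fun z : Eu m × ℝ => coeff (h z.2) x z.1) :=
    ⟨hUo.prod isOpen_Ioo, fun i j => hh.smooth _ hc i j, fun z hz => (h z.2).pos _ hc z.1 hz.1⟩
  have hGt : ∀ r, GoodMat (dom m x) (coeff (h r) x) := fun r =>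
    ⟨hUo, fun i j => (h r).smooth _ hc i j, fun z hz => (h r).pos _ hc z hz⟩
  have hvv : ∀ K, ContDiffOn ℝ ∞ (fun z : Eu m × ℝ => v K (pt x z.1, z.2))
      (dom m x ×ˢ Set.Ioo (-1 : ℝ) 1) := fun K => comp_pt_prod (hv K) x
  have hA : GoodMat (dom m x ×ˢ Set.Ioo (-1 : ℝ) 1)
      (mcm b (fun K z => v K (pt x z.1, z.2)) (fun z : Eu m × ℝ => coeff (h z.2) x z.1)) :=
    mcm_good hG hvv
  have hNs : ContDiffOn ℝ ∞ (fun y => N (pt x y)) (dom m x) := comp_pt hN x
  have hlog : ContDiffOn ℝ ∞ (fun y => Real.log (N (pt x y))) (dom m x) :=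
    hNs.log fun y _ => (hN0 _).ne'
  have hcard : 0 < Fintype.card (Fin m) := by rw [Fintype.card_fin]; exact hm
  have h1 := path_le hA hUo isOpen_Ioo hNs (fun z _ => hN0 _) hcard hy ht (bas m)
  rw [Fintype.card_fin] at h1
  -- the volume density
  have hdet : ∀ r ∈ Set.Ioo (-1 : ℝ) 1, ∀ z ∈ dom m x, ∀ K,
      (blk b K (coeff (h r) x) z).det = (blk b K (coeff (h 0) x) z).det :=
    fun r hr z hz K => hh.volt r hr _ hc z hz K
  have hlnG : ∀ r ∈ Set.Ioo (-1 : ℝ) 1,
      lnv (coeff (h r) x) (chartAt (Eu m) x x) =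
        ∑ K, (1 / 2) * Real.log (blk b K (coeff (h 0) x) (chartAt (Eu m) x x)).det := by
    intro r hr
    rw [lnv_blk (hGt r) (fun z hz i j hij => hh.diag r hr _ hc z hz i j hij) hy]
    refine Finset.sum_congr rfl fun K _ => ?_
    unfold lnv
    rw [hdet r hr _ hy K]
  have hlnA : ∀ r ∈ Set.Ioo (-1 : ℝ) 1,
      lnv (mcm b (fun K z => v K (pt x z.1, z.2)) (fun z : Eu m × ℝ => coeff (h z.2) x z.1))
        (chartAt (Eu m) x x, r) = ∑ i, v (b i) (x, r) +
        ∑ K, (1 / 2) * Real.log (blk b K (coeff (h 0) x) (chartAt (Eu m) x x)).det := by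
    intro r hr
    rw [lnv_mcm hG (y := (chartAt (Eu m) x x, r)) ⟨hy, hr⟩]
    have e1 : lnv (fun z : Eu m × ℝ => coeff (h z.2) x z.1) (chartAt (Eu m) x x, r) =
        lnv (coeff (h r) x) (chartAt (Eu m) x x) := rfl
    rw [e1, hlnG r hr]
    simp only [hptx]
  have hd1 : ∀ s ∈ Set.Ioo (-1 : ℝ) 1, deriv (fun r => lnv (mcm b
      (fun K z => v K (pt x z.1, z.2)) (fun z : Eu m × ℝ => coeff (h z.2) x z.1))
        (chartAt (Eu m) x x, r)) s = dt (fun z => ∑ i, v (b i) z) (x, s) := by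
    intro s hs
    have e1 : (fun r => lnv (mcm b
      (fun K z => v K (pt x z.1, z.2)) (fun z : Eu m × ℝ => coeff (h z.2) x z.1))
        (chartAt (Eu m) x x, r)) =ᶠ[nhds s] fun r => ∑ i, v (b i) (x, r) +
        ∑ K, (1 / 2) * Real.log (blk b K (coeff (h 0) x) (chartAt (Eu m) x x)).det := by
      filter_upwards [isOpen_Ioo.mem_nhds hs] with r hr using hlnA r hr
    rw [e1.deriv_eq, deriv_add_const]
    rfl
  have hd2 : deriv (fun s => deriv (fun r => lnv (mcm b
      (fun K z => v K (pt x z.1, z.2)) (fun z : Eu m × ℝ => coeff (h z.2) x z.1))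
        (chartAt (Eu m) x x, r)) s) t = dt (dt (fun z => ∑ i, v (b i) z)) (x, t) := by
    have e1 : (fun s => deriv (fun r => lnv (mcm b
      (fun K z => v K (pt x z.1, z.2)) (fun z : Eu m × ℝ => coeff (h z.2) x z.1))
        (chartAt (Eu m) x x, r)) s) =ᶠ[nhds t] fun s => dt (fun z => ∑ i, v (b i) z) (x, s) := by
      filter_upwards [isOpen_Ioo.mem_nhds ht] with r hr using hd1 r hr
    rw [e1.deriv_eq]
    rfl
  rw [hd2, hd1 t ht, hptx] at h1
  -- the slices
  have hvt : ∀ K, ContDiffOn ℝ ∞ (fun y : Eu m => v K (pt x y, t)) (dom m x) := by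
    intro K
    have h2 : ContDiffOn ℝ ∞ (fun y : Eu m => (y, t)) (dom m x) :=
      contDiffOn_id.prodMk contDiffOn_const
    exact (hvv K).comp h2 fun y hy => ⟨hy, ht⟩
  have hvol : ∀ z ∈ dom m x, ∀ K i, b i ≠ K →
      pd (bas m) i (fun z => (blk b K (coeff (h t) x) z).det) z = 0 := by
    intro z hz K i hi
    have e1 : (fun z => (blk b K (coeff (h t) x) z).det) =ᶠ[nhds z]
        fun z => (blk b K ((h 0).co (chartAt (Eu m) x)) z).det := by
      filter_upwards [hUo.mem_nhds hz] with y hy using hdet t ht y hy K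
    have e2 := hh.voly _ hc z hz K i hi
    unfold pd at e2 ⊢
    rw [e1.fderiv_eq]
    exact e2
  have h2 := block_le (hGt t) (fun z hz i j hij => hh.diag t ht _ hc z hz i j hij) (bas m) hvol
    hvt hlog hy
  have h3 : Phi (bas m) (fun z => mcm b (fun K z => v K (pt x z.1, z.2))
      (fun z : Eu m × ℝ => coeff (h z.2) x z.1) (z, t)) (fun z => Real.log (N (pt x z)))
      (chartAt (Eu m) x x) ≤ ∑ K, bulk b h N v t K x := by
    refine le_trans h2 (Finset.sum_le_sum fun K _ => ?_)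
    have h4 := hh.scal t ht x K
    rw [hptx]
    unfold bulk lapM grdM
    refine mul_le_mul_of_nonneg_left ?_ (Real.exp_pos _).le
    have e1 : (fun y : Eu m => wM b v N t K (pt x y)) = ww b (fun K y => v K (pt x y, t))
        (fun y => Real.log (N (pt x y))) K := rfl
    rw [e1]
    linarith
  have h4 : mbScal b h N v x t = scal (fr (bas m)) (pathMat
    (mcm b (fun K z => v K (pt x z.1, z.2)) (fun z => coeff (h z.2) x z.1))
    (fun y => N (pt x y))) (chartAt (Eu m) x x, t) := rfl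
  rw [h4]
  linarith

end Pool.Agent.Work.MP_2fa4be_gt.MB
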