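import Pool.Agent.Work.MP_2fa4be_gt.MB.Ibp
import Pool.Agent.Work.MP_2fa4be_gt.MB.Point

/-!
# Module Bulk (size M): the integral over a slice

`∫ bulk b h N v t K dμ ≤ 0` for each label `K` with `q_K ≥ 2` or `v_K` constant along the leaves.

Write `V = v_K(·,t)`, `w = wM b v N t K` (both smooth), `q = q_K`, `a = exp(-2V)`, `L = lapM`,
`g = grdM`. `ibp` with `a` and `u = V`, `u = w` and `grdM_exp` give
`∫ a L(V) = 2 ∫ a g(V,V)`, `∫ a L(w) = 2 ∫ a g(V,w)`. Hence

  `∫ bulk = ∫ a (-4(q-1) g(V,V) - (q-1)(q-2) g(V,V) - 4 g(V,w) - 2(q-2) g(V,w) - g(w,w))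
          = -∫ a (g(w,w) + 2q g(V,w) + q² g(V,V) + (q-2) g(V,V)) ≤ 0`

as `(q-1)(q+2) = q² + (q-2)`: by `grdM_quad`, and `(q-2) g(V,V) ≥ 0` because either `q ≥ 2`
(`grdM_nonneg`) or `g(V,V) = 0` (all derivatives of `V` in the directions of label `K` vanish in the
preferred chart). All functions are continuous on the compact space `M`, hence integrable.
`smooth_wM`: `log N` is smooth as `N > 0` (`Real.contDiffAt_log`), `slice_smooth`.
-/

namespace Pool.Agent.Work.MP_2fa4be_gt.MB

open Pool.Agent.Work.MP_2fa4be_gt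
open MeasureTheory
open scoped Manifold ContDiff

variable {m : ℕ} {J M : Type*} [TopologicalSpace M] [ChartedSpace (Eu m) M]
  [IsManifold (𝓡 m) ∞ M] [CompactSpace M] [T2Space M] [MeasurableSpace M]
  [BorelSpace M] [Fintype J] [DecidableEq J] {b : Fin m → J} {h : ℝ → RMetric m M} {N : M → ℝ}
  {v : J → M × ℝ → ℝ} {μ : Measure M} [IsFiniteMeasure μ]

omit [CompactSpace M] [T2Space M] [MeasurableSpace M] [BorelSpace M] [IsManifold (𝓡 m) ∞ M] in
theorem smooth_wM (hN : SmoothFun m N) (hN0 : ∀ x, 0 < N x) (hv : ∀ K, SmoothBand m (v K))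
    {t : ℝ} (ht : t ∈ Set.Ioo (-1 : ℝ) 1) (K : J) : SmoothFun m (wM b v N t K) := by
  have h1 : SmoothFun m (fun x => Real.log (N x)) := fun x =>
    (Real.contDiffAt_log.2 (hN0 x).ne').contMDiffAt.comp x (hN x)
  have h2 : ∀ s : Finset J, SmoothFun m
      (fun x => ∑ L ∈ s, (Fintype.card {i // b i = L} : ℝ) * v L (x, t)) := by
    intro s
    induction s using Finset.induction_on with
    | empty =>
      simp only [Finset.sum_empty]
      exact contMDiff_const
    | insert a s ha ih =>
      simp only [Finset.sum_insert ha]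
      exact ContMDiff.add (contMDiff_const.mul (slice_smooth (hv a) ht)) ih
  exact ContMDiff.add h1 (h2 _)

omit [CompactSpace M] [T2Space M] [MeasurableSpace M] [BorelSpace M] in
theorem continuous_bulk (hA : BlockAtlas b M) (hN : SmoothFun m N) (hN0 : ∀ x, 0 < N x)
    (hv : ∀ K, SmoothBand m (v K)) {t : ℝ} (ht : t ∈ Set.Ioo (-1 : ℝ) 1) (K : J) :
    Continuous (bulk b h N v t K) := by
  have hV : SmoothFun m (fun x => v K (x, t)) := slice_smooth (hv K) ht
  have hw : SmoothFun m (wM b v N t K) := smooth_wM hN hN0 hv ht K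
  have h1 := (smooth_exp hV).continuous
  have h2 := continuous_lapM (h := h t) hA hV K
  have h3 := continuous_grdM (h := h t) hA hV hV K
  have h4 := continuous_lapM (h := h t) hA hw K
  have h5 := continuous_grdM (h := h t) hA hV hw K
  have h6 := continuous_grdM (h := h t) hA hw hw K
  unfold bulk
  exact h1.mul (((((h2.const_mul _).neg.sub (h3.const_mul _)).sub
    ((h4.add (h5.const_mul _)).const_mul _))).sub h6)

theorem int_bulk (hA : BlockAtlas b M) (hN : SmoothFun m N) (hN0 : ∀ x, 0 < N x)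
    (hv : ∀ K, SmoothBand m (v K)) {t : ℝ} (ht : t ∈ Set.Ioo (-1 : ℝ) 1) (hd : DiagM b (h t))
    (hV : VolM b (h t)) (hμ : IsVol (h t) μ) (K : J)
    (hK : 2 ≤ Fintype.card {i // b i = K} ∨ LeafConst b K (v K)) :
    ∫ x, bulk b h N v t K x ∂μ ≤ 0 := by
  set V : M → ℝ := fun x => v K (x, t) with hVdef
  set w : M → ℝ := wM b v N t K with hwdef
  set q : ℝ := (Fintype.card {i // b i = K} : ℝ) with hq
  set a : M → ℝ := fun x => Real.exp (-(2 * V x)) with hadef
  have hVs : SmoothFun m V := slice_smooth (hv K) ht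
  have hws : SmoothFun m w := smooth_wM hN hN0 hv ht K
  have has : SmoothFun m a := smooth_exp hVs
  have hint : ∀ {f : M → ℝ}, Continuous f → Integrable f μ := fun hf =>
    hf.integrable_of_hasCompactSupport (HasCompactSupport.of_compactSpace _)
  have ha := has.continuous
  have c1 := continuous_lapM (h := h t) hA hVs K
  have c2 := continuous_grdM (h := h t) hA hVs hVs K
  have c3 := continuous_lapM (h := h t) hA hws K
  have c4 := continuous_grdM (h := h t) hA hVs hws K
  have c5 := continuous_grdM (h := h t) hA hws hws K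
  have e1 : ∫ x, (a x * lapM b K (h t) V x - 2 * (a x * grdM b K (h t) V V x)) ∂μ = 0 := by
    rw [← ibp hA hd hV hμ has hVs K]
    refine integral_congr_ae (Filter.Eventually.of_forall fun x => ?_)
    have := grdM_exp (h := h t) (b := b) (w := V) hVs K x
    dsimp only
    rw [hadef, this]
    ring
  have e2 : ∫ x, (a x * lapM b K (h t) w x - 2 * (a x * grdM b K (h t) V w x)) ∂μ = 0 := by
    rw [← ibp hA hd hV hμ has hws K]
    refine integral_congr_ae (Filter.Eventually.of_forall fun x => ?_)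
    have := grdM_exp (h := h t) (b := b) (w := w) hVs K x
    dsimp only
    rw [hadef, this]
    ring
  have hnn : ∀ x, 0 ≤ a x * ((grdM b K (h t) w w x + 2 * q * grdM b K (h t) V w x +
      q ^ 2 * grdM b K (h t) V V x) + (q - 2) * grdM b K (h t) V V x) := by
    intro x
    refine mul_nonneg (Real.exp_pos _).le (add_nonneg (grdM_quad hVs hws q K x) ?_)
    rcases hK with h2 | hleaf
    · refine mul_nonneg ?_ (grdM_nonneg K x)
      have h3 : (2 : ℝ) ≤ q := by
        rw [hq]
        exact_mod_cast h2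
      linarith
    · have h4 : grdM b K (h t) V V x = 0 := by
        unfold grdM grd
        refine Finset.sum_eq_zero fun i _ => Finset.sum_eq_zero fun j _ => ?_
        have h5 : pd (bfr (bas m) b K) i (fun y => V (pt x y)) (chartAt (Eu m) x x) = 0 :=
          hleaf _ (chart_mem_atlas (Eu m) x) _ (mem_dom x) t ht i.1 i.2
        rw [h5, zero_mul, mul_zero]
      rw [h4, mul_zero]
  have hfun : ∀ x, bulk b h N v t K x =
      (-2 * (q - 1)) * (a x * lapM b K (h t) V x - 2 * (a x * grdM b K (h t) V V x)) +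
      (-2) * (a x * lapM b K (h t) w x - 2 * (a x * grdM b K (h t) V w x)) -
      a x * ((grdM b K (h t) w w x + 2 * q * grdM b K (h t) V w x +
      q ^ 2 * grdM b K (h t) V V x) + (q - 2) * grdM b K (h t) V V x) := by
    intro x
    unfold bulk
    rw [← hwdef, ← hq]
    change a x * (-(2 * (q - 1) * lapM b K (h t) V x) -
      (q - 1) * (q - 2) * grdM b K (h t) V V x -
      2 * (lapM b K (h t) w x + (q - 2) * grdM b K (h t) V w x) - grdM b K (h t) w w x) = _
    ring
  have i1 : Integrable (fun x => (-2 * (q - 1)) *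
      (a x * lapM b K (h t) V x - 2 * (a x * grdM b K (h t) V V x))) μ :=
    (hint ((ha.mul c1).sub ((ha.mul c2).const_mul 2))).const_mul _
  have i2 : Integrable (fun x => (-2 : ℝ) *
      (a x * lapM b K (h t) w x - 2 * (a x * grdM b K (h t) V w x))) μ :=
    (hint ((ha.mul c3).sub ((ha.mul c4).const_mul 2))).const_mul _
  have i3 : Integrable (fun x => a x * ((grdM b K (h t) w w x + 2 * q * grdM b K (h t) V w x +
      q ^ 2 * grdM b K (h t) V V x) + (q - 2) * grdM b K (h t) V V x)) μ :=
    hint (ha.mul (((c5.add (c4.const_mul (2 * q))).add (c2.const_mul (q ^ 2))).add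
      (c2.const_mul (q - 2))))
  have hsum : ∫ x, bulk b h N v t K x ∂μ = ((∫ x, (-2 * (q - 1)) *
      (a x * lapM b K (h t) V x - 2 * (a x * grdM b K (h t) V V x)) ∂μ) +
      ∫ x, (-2 : ℝ) * (a x * lapM b K (h t) w x - 2 * (a x * grdM b K (h t) V w x)) ∂μ) -
      ∫ x, a x * ((grdM b K (h t) w w x + 2 * q * grdM b K (h t) V w x +
      q ^ 2 * grdM b K (h t) V V x) + (q - 2) * grdM b K (h t) V V x) ∂μ := by
    rw [← integral_add i1 i2, integral_congr_ae (Filter.Eventually.of_forall hfun)]
    exact integral_sub (i1.add i2) i3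
  rw [hsum, integral_const_mul, integral_const_mul, e1, e2, mul_zero, mul_zero,
    add_zero, zero_sub]
  exact neg_nonpos.2 (integral_nonneg hnn)

end Pool.Agent.Work.MP_2fa4be_gt.MB
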