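import Pool.Agent.Work.MP_2fa4be_gt.MB.Tools

/-!
# Module ChartSm (size M): smoothness in the charts of the atlas

* `smooth_chart`: as in `exists_scaled` (Metric.lean): `contMDiffOn_symm_of_mem_maximalAtlas`.
* `smoothBand_chart`: as in `comp_pt_prod` (Metric.lean), for an arbitrary chart of the atlas.
* `slice_smooth`: compose with `x ↦ (x, t)`.
* `ov_open`: `ContinuousOn.isOpen_inter_preimage`.
* `trans_smooth`: the change of charts is smooth (`contMDiffOn_of_mem_maximalAtlas` after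
  `contMDiffOn_symm_of_mem_maximalAtlas`, then `contMDiffOn_iff_contDiffOn`; or the groupoid).
* `fderiv_trans`: `jac c c' y k i = pd (bas m) i (fun z => c' (c.symm z) k) y` is the `k`-th
  coordinate of `D(c' ∘ c.symm)(y)(bas m i)` (the coordinate `k` is a continuous linear map:
  `EuclideanSpace.proj k`), and a vector of `Eu m` is the sum of its coordinates times `bas m k`.
* `jac_smooth`: `pd_smooth`; `jac_sym`: `pd_comm`.
* `jac_mul`: chain rule for `c' ∘ c.symm` and `c ∘ c'.symm`, whose composition is the identity near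
  `y`; so `det (jac c c' y) ≠ 0`.
-/

namespace Pool.Agent.Work.MP_2fa4be_gt.MB

open Pool.Agent.Work.MP_2fa4be_gt
open scoped Manifold ContDiff

variable {m : ℕ} {M : Type*} [TopologicalSpace M] [ChartedSpace (Eu m) M]
  [IsManifold (𝓡 m) ∞ M] {c c' : OpenPartialHomeomorph M (Eu m)}

private theorem cs_symm (hc : c ∈ atlas (Eu m) M) :
    ContMDiffOn (𝓡 m) (𝓡 m) ∞ c.symm c.target :=
  contMDiffOn_symm_of_mem_maximalAtlas (IsManifold.subset_maximalAtlas hc)

theorem smooth_chart {f : M → ℝ} (hf : SmoothFun m f) (hc : c ∈ atlas (Eu m) M) :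
    ContDiffOn ℝ ∞ (fun y => f (c.symm y)) c.target := by
  exact contMDiffOn_iff_contDiffOn.1 (ContMDiff.comp_contMDiffOn hf (cs_symm hc))

theorem smoothBand_chart {f : M × ℝ → ℝ} (hf : SmoothBand m f) (hc : c ∈ atlas (Eu m) M) :
    ContDiffOn ℝ ∞ (fun z : Eu m × ℝ => f (c.symm z.1, z.2)) (c.target ×ˢ Set.Ioo (-1) 1) := by
  have h1 : ContMDiffOn 𝓘(ℝ, Eu m × ℝ) (𝓡 m) ∞ (fun z : Eu m × ℝ => c.symm z.1)
      (c.target ×ˢ Set.Ioo (-1) 1) :=
    (cs_symm hc).comp contDiff_fst.contMDiff.contMDiffOn fun z hz => hz.1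
  have h2 : ContMDiffOn 𝓘(ℝ, Eu m × ℝ) 𝓘(ℝ) ∞ (fun z : Eu m × ℝ => z.2)
      (c.target ×ˢ Set.Ioo (-1) 1) := contDiff_snd.contMDiff.contMDiffOn
  have h3 := h1.prodMk h2
  exact contMDiffOn_iff_contDiffOn.1 (ContMDiffOn.comp hf h3 fun z hz => ⟨Set.mem_univ _, hz.2⟩)

omit [IsManifold (𝓡 m) ∞ M] in
theorem slice_smooth {f : M × ℝ → ℝ} (hf : SmoothBand m f) {t : ℝ}
    (ht : t ∈ Set.Ioo (-1 : ℝ) 1) : SmoothFun m (fun x => f (x, t)) := by
  have h1 : ContMDiff (𝓡 m) ((𝓡 m).prod 𝓘(ℝ)) ∞ (fun x : M => (x, t)) :=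
    contMDiff_id.prodMk contMDiff_const
  exact ContMDiffOn.comp_contMDiff hf h1 fun x => ⟨Set.mem_univ _, ht⟩

omit [IsManifold (𝓡 m) ∞ M] in
theorem ov_open : IsOpen (ov c c') := by
  exact c.continuousOn_symm.isOpen_inter_preimage c.open_target c'.open_source

theorem trans_smooth (hc : c ∈ atlas (Eu m) M) (hc' : c' ∈ atlas (Eu m) M) :
    ContDiffOn ℝ ∞ (fun y => c' (c.symm y)) (ov c c') := by
  have h2 : ContMDiffOn (𝓡 m) (𝓡 m) ∞ c' c'.source :=
    contMDiffOn_of_mem_maximalAtlas (IsManifold.subset_maximalAtlas hc')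
  exact contMDiffOn_iff_contDiffOn.1
    (h2.comp ((cs_symm hc).mono Set.inter_subset_left) fun y hy => hy.2)

private theorem cs_diffAt (hc : c ∈ atlas (Eu m) M) (hc' : c' ∈ atlas (Eu m) M) {y : Eu m}
    (hy : y ∈ ov c c') : DifferentiableAt ℝ (fun z => c' (c.symm z)) y :=
  ((trans_smooth hc hc').contDiffAt (ov_open.mem_nhds hy)).differentiableAt (by simp)

private theorem cs_comp (hc : c ∈ atlas (Eu m) M) (hc' : c' ∈ atlas (Eu m) M) (k : Fin m) :
    ContDiffOn ℝ ∞ (fun z => c' (c.symm z) k) (ov c c') :=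
  (EuclideanSpace.proj k : Eu m →L[ℝ] ℝ).contDiff.comp_contDiffOn
    (trans_smooth hc hc')

private theorem cs_proj_bas (l i : Fin m) :
    (EuclideanSpace.proj l : Eu m →L[ℝ] ℝ) (bas m i) =
      if i = l then 1 else 0 := by
  unfold bas
  simp [eq_comm]

private theorem cs_sum (v : Eu m) : v = ∑ k, v k • bas m k := by
  have h := (EuclideanSpace.basisFun (Fin m) ℝ).sum_repr v
  simpa [bas] using h.symm

theorem fderiv_trans (hc : c ∈ atlas (Eu m) M) (hc' : c' ∈ atlas (Eu m) M) {y : Eu m}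
    (hy : y ∈ ov c c') (i : Fin m) :
    fderiv ℝ (fun z => c' (c.symm z)) y (bas m i) = ∑ k, jac c c' y k i • bas m k := by
  have h1 : ∀ k, jac c c' y k i = fderiv ℝ (fun z => c' (c.symm z)) y (bas m i) k := by
    intro k
    have h2 := cs_diffAt hc hc' hy
    have h3 := (EuclideanSpace.proj k : Eu m →L[ℝ] ℝ).hasFDerivAt.comp y
      h2.hasFDerivAt
    change fderiv ℝ (fun z => c' (c.symm z) k) y (bas m i) = _
    have h4 : fderiv ℝ (fun z => c' (c.symm z) k) y =
        (EuclideanSpace.proj k : Eu m →L[ℝ] ℝ).comp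
          (fderiv ℝ (fun z => c' (c.symm z)) y) := h3.fderiv
    rw [h4]
    rfl
  rw [Finset.sum_congr rfl fun k _ => by rw [h1 k]]
  exact cs_sum _

theorem jac_smooth (hc : c ∈ atlas (Eu m) M) (hc' : c' ∈ atlas (Eu m) M) (k i : Fin m) :
    ContDiffOn ℝ ∞ (fun y => jac c c' y k i) (ov c c') := by
  exact pd_smooth ov_open (cs_comp hc hc' k) i

theorem jac_sym (hc : c ∈ atlas (Eu m) M) (hc' : c' ∈ atlas (Eu m) M) {y : Eu m}
    (hy : y ∈ ov c c') (k i j : Fin m) :
    pd (bas m) j (fun z => jac c c' z k i) y = pd (bas m) i (fun z => jac c c' z k j) y := by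
  exact pd_comm ov_open (cs_comp hc hc' k) hy j i

theorem jac_det (hc : c ∈ atlas (Eu m) M) (hc' : c' ∈ atlas (Eu m) M) {y : Eu m}
    (hy : y ∈ ov c c') : (jac c c' y).det ≠ 0 := by
  set z : Eu m := c' (c.symm y) with hz
  have hz1 : c'.symm z = c.symm y := c'.left_inv hy.2
  have hzov : z ∈ ov c' c := by
    refine ⟨c'.map_source hy.2, ?_⟩
    change c'.symm z ∈ c.source
    rw [hz1]
    exact c.map_target hy.1
  have hF := (cs_diffAt hc hc' hy).hasFDerivAt
  have hG := (cs_diffAt hc' hc hzov).hasFDerivAt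
  have hGF := HasFDerivAt.comp (g := fun w => c (c'.symm w)) y hG hF
  have hid : (fun w => c (c'.symm (c' (c.symm w)))) =ᶠ[nhds y] id := by
    refine Filter.eventually_of_mem (ov_open.mem_nhds hy) fun w hw => ?_
    change c (c'.symm (c' (c.symm w))) = w
    rw [c'.left_inv hw.2, c.right_inv hw.1]
  have h1 : (fderiv ℝ (fun w => c (c'.symm w)) z).comp (fderiv ℝ (fun w => c' (c.symm w)) y) =
      ContinuousLinearMap.id ℝ (Eu m) := by
    have h2 : HasFDerivAt (id : Eu m → Eu m) ((fderiv ℝ (fun w => c (c'.symm w)) z).comp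
        (fderiv ℝ (fun w => c' (c.symm w)) y)) y := hGF.congr_of_eventuallyEq hid.symm
    exact h2.unique (hasFDerivAt_id y)
  have h2 : jac c' c z * jac c c' y = 1 := by
    ext l i
    have h3 : (fderiv ℝ (fun w => c (c'.symm w)) z) ((fderiv ℝ (fun w => c' (c.symm w)) y)
        (bas m i)) = bas m i := by
      have h4 := congrArg (fun T : Eu m →L[ℝ] Eu m => T (bas m i)) h1
      exact h4
    rw [fderiv_trans hc hc' hy, map_sum] at h3
    have h5 : ∀ k, (fderiv ℝ (fun w => c (c'.symm w)) z) (jac c c' y k i • bas m k) =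
        jac c c' y k i • ∑ l, jac c' c z l k • bas m l := by
      intro k
      rw [map_smul, fderiv_trans hc' hc hzov]
    rw [Finset.sum_congr rfl fun k _ => h5 k] at h3
    have h6 := congrArg (EuclideanSpace.proj l : Eu m →L[ℝ] ℝ) h3
    rw [map_sum] at h6
    have h7 : ∀ k, (EuclideanSpace.proj l : Eu m →L[ℝ] ℝ)
        (jac c c' y k i • ∑ l, jac c' c z l k • bas m l) = jac c' c z l k * jac c c' y k i := by
      intro k
      rw [map_smul, map_sum, smul_eq_mul]
      have h8 : ∀ l', (EuclideanSpace.proj l : Eu m →L[ℝ] ℝ)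
          (jac c' c z l' k • bas m l') = if l' = l then jac c' c z l' k else 0 := by
        intro l'
        rw [map_smul, smul_eq_mul, cs_proj_bas]
        split_ifs <;> simp
      rw [Finset.sum_congr rfl fun l' _ => h8 l']
      simp only [Finset.sum_ite_eq', Finset.mem_univ, if_true]
      ring
    rw [Finset.sum_congr rfl fun k _ => h7 k, cs_proj_bas] at h6
    rw [Matrix.mul_apply, h6, Matrix.one_apply]
    by_cases h : l = i
    · rw [if_pos h, if_pos h.symm]
    · rw [if_neg h, if_neg (fun h' => h h'.symm)]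
  intro h3
  have h4 := congrArg Matrix.det h2
  rw [Matrix.det_mul, h3, mul_zero, Matrix.det_one] at h4
  exact zero_ne_one h4

end Pool.Agent.Work.MP_2fa4be_gt.MB
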