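import Pool.Agent.Work.MP_2fa4be_gt.MB.InvM

/-!
# Module ContM (size M): properties of the leafwise operators

* continuity: near `x₀` use the fixed chart `c = chartAt x₀` (`lapM_eq`, `grdM_eq`): the function is
  `F ∘ c` on `c.source` with `F = lap .. (u ∘ c.symm)` smooth on `c.target` (`pd_smooth`,
  `GoodMat.inv_smooth`, `GoodMat.chr_smooth`), `smooth_chart`.
* `grdM_exp`: chain rule in the preferred chart, `pd_exp`, `pd_const_mul`
  (`∂_i exp(-2 v) = -2 exp(-2 v) ∂_i v`).
* `grdM_quad`: `grd (w + q v)(w + q v) ≥ 0` (`grd_nonneg`, `grd_lin_left`, `grd_lin_right`,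
  `grd_comm` with coefficients `1` and `q`).
* `smooth_exp`: `exp(-2 v)` is smooth.
-/

namespace Pool.Agent.Work.MP_2fa4be_gt.MB

open Pool.Agent.Work.MP_2fa4be_gt
open scoped Manifold ContDiff

variable {m : ℕ} {J M : Type*} [TopologicalSpace M] [ChartedSpace (Eu m) M]
  [IsManifold (𝓡 m) ∞ M] [DecidableEq J] {b : Fin m → J} {h : RMetric m M} {u v w : M → ℝ}


private theorem cont_of_chart {F : M → ℝ}
    (hF : ∀ x₀ : M, ∃ G : Eu m → ℝ, ContDiffOn ℝ ∞ G (dom m x₀) ∧
      ∀ x ∈ (chartAt (Eu m) x₀).source, F x = G (chartAt (Eu m) x₀ x)) : Continuous F := by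
  rw [continuous_iff_continuousAt]
  intro x₀
  obtain ⟨G, hG, hFG⟩ := hF x₀
  have h1 : ContinuousAt G (chartAt (Eu m) x₀ x₀) :=
    hG.continuousOn.continuousAt ((dom_open x₀).mem_nhds (mem_dom x₀))
  have h2 : ContinuousAt (chartAt (Eu m) x₀) x₀ :=
    (chartAt (Eu m) x₀).continuousAt (mem_chart_source (Eu m) x₀)
  have h3 : ContinuousAt (fun x => G (chartAt (Eu m) x₀ x)) x₀ :=
    ContinuousAt.comp (f := fun x => chartAt (Eu m) x₀ x) (g := G) h1 h2
  refine h3.congr ?_
  filter_upwards [(chartAt (Eu m) x₀).open_source.mem_nhds (mem_chart_source (Eu m) x₀)]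
    with x hx
  exact (hFG x hx).symm

private theorem grd_smooth {E ι : Type*} [NormedAddCommGroup E] [NormedSpace ℝ E] [Fintype ι]
    [DecidableEq ι] {e : ι → E} {U : Set E} {G : E → Matrix ι ι ℝ} {f g : E → ℝ}
    (h : GoodMat U G) (hf : ContDiffOn ℝ ∞ f U) (hg : ContDiffOn ℝ ∞ g U) :
    ContDiffOn ℝ ∞ (grd e G f g) U := by
  unfold grd
  exact ContDiffOn.sum fun i _ => ContDiffOn.sum fun j _ =>
    (h.inv_smooth i j).mul ((pd_smooth h.isOpen hf i).mul (pd_smooth h.isOpen hg j))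

private theorem lap_smooth {E ι : Type*} [NormedAddCommGroup E] [NormedSpace ℝ E] [Fintype ι]
    [DecidableEq ι] {e : ι → E} {U : Set E} {G : E → Matrix ι ι ℝ} {f : E → ℝ}
    (h : GoodMat U G) (hf : ContDiffOn ℝ ∞ f U) :
    ContDiffOn ℝ ∞ (lap e G f) U := by
  unfold lap
  exact ContDiffOn.sum fun i _ => ContDiffOn.sum fun j _ =>
    (h.inv_smooth i j).mul ((pd_smooth h.isOpen (pd_smooth h.isOpen hf j) i).sub
      (ContDiffOn.sum fun k _ => (h.chr_smooth k i j).mul (pd_smooth h.isOpen hf k)))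

theorem continuous_lapM (hA : BlockAtlas b M) (hu : SmoothFun m u) (K : J) :
    Continuous (lapM b K h u) := by
  apply cont_of_chart (m := m)
  intro x₀
  have hc := chart_mem_atlas (Eu m) x₀
  exact ⟨lap (bfr (bas m) b K) (blk b K (h.co (chartAt (Eu m) x₀)))
    (fun y => u ((chartAt (Eu m) x₀).symm y)), lap_smooth (good_bco hc K) (smooth_chart hu hc),
    fun x hx => lapM_eq hA hu hc hx K⟩

theorem continuous_grdM (hA : BlockAtlas b M) (hu : SmoothFun m u) (hw : SmoothFun m w) (K : J) :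
    Continuous (grdM b K h u w) := by
  apply cont_of_chart (m := m)
  intro x₀
  have hc := chart_mem_atlas (Eu m) x₀
  exact ⟨grd (bfr (bas m) b K) (blk b K (h.co (chartAt (Eu m) x₀)))
    (fun y => u ((chartAt (Eu m) x₀).symm y)) (fun y => w ((chartAt (Eu m) x₀).symm y)),
    grd_smooth (good_bco hc K) (smooth_chart hu hc) (smooth_chart hw hc),
    fun x hx => grdM_eq hA hu hw hc hx K⟩

omit [IsManifold (𝓡 m) ∞ M] in
theorem smooth_exp (hv : SmoothFun m v) : SmoothFun m (fun x => Real.exp (-(2 * v x))) := by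
  have h1 : ContDiff ℝ ∞ (fun t : ℝ => Real.exp (-(2 * t))) :=
    Real.contDiff_exp.comp ((contDiff_const.mul contDiff_id).neg)
  exact h1.comp_contMDiff hv

private theorem good_pt (K : J) (x : M) : GoodMat (dom m x) (blk b K (coeff h x)) :=
  good_bco (chart_mem_atlas (Eu m) x) K

theorem grdM_exp (hv : SmoothFun m v) (K : J) (x : M) :
    grdM b K h (fun x => Real.exp (-(2 * v x))) w x =
      -(2 * Real.exp (-(2 * v x)) * grdM b K h v w x) := by
  have hd : DifferentiableAt ℝ (fun y => v (pt x y)) (chartAt (Eu m) x x) :=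
    diffAt (dom_open x) (comp_pt hv x) (mem_dom x)
  have h1 : ∀ i, pd (bfr (bas m) b K) i (fun y => Real.exp (-(2 * v (pt x y))))
      (chartAt (Eu m) x x) = Real.exp (-(2 * v x)) *
        (-(2 * pd (bfr (bas m) b K) i (fun y => v (pt x y)) (chartAt (Eu m) x x))) := by
    intro i
    rw [pd_exp (F := fun y => -(2 * v (pt x y))) (hd.const_mul 2).neg, pd_neg,
      pd_const_mul hd, pt_self]
  unfold grdM grd
  simp only [h1]
  rw [Finset.mul_sum, ← Finset.sum_neg_distrib]
  refine Finset.sum_congr rfl fun i _ => ?_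
  rw [Finset.mul_sum, ← Finset.sum_neg_distrib]
  refine Finset.sum_congr rfl fun j _ => ?_
  ring

theorem grdM_nonneg (K : J) (x : M) : 0 ≤ grdM b K h v v x :=
  grd_nonneg (good_pt K x) (mem_dom x)

theorem grdM_quad (hv : SmoothFun m v) (hw : SmoothFun m w) (q : ℝ) (K : J) (x : M) :
    0 ≤ grdM b K h w w x + 2 * q * grdM b K h v w x + q ^ 2 * grdM b K h v v x := by
  have hvd : DifferentiableAt ℝ (fun y => v (pt x y)) (chartAt (Eu m) x x) :=
    diffAt (dom_open x) (comp_pt hv x) (mem_dom x)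
  have hwd : DifferentiableAt ℝ (fun y => w (pt x y)) (chartAt (Eu m) x x) :=
    diffAt (dom_open x) (comp_pt hw x) (mem_dom x)
  have h1 : 0 ≤ grd (bfr (bas m) b K) (blk b K (coeff h x))
      (fun z => 1 * w (pt x z) + q * v (pt x z)) (fun z => 1 * w (pt x z) + q * v (pt x z))
      (chartAt (Eu m) x x) := grd_nonneg (good_pt K x) (mem_dom x)
  rw [grd_lin_left hwd hvd, grd_lin_right hwd hvd, grd_lin_right hwd hvd,
    grd_comm (f := fun z => w (pt x z)) (u := fun z => v (pt x z)) (good_pt K x)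
      (mem_dom x)] at h1
  unfold grdM
  linarith


end Pool.Agent.Work.MP_2fa4be_gt.MB
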