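import Pool.Agent.Work.MP_2fa4be_gt.MB.LnD

/-!
# Module DivF (size S-M): divergence form with a density

`ρ` smooth with `∂_k ρ = ρ ∂_k lnv A` in the directions `e k`. Then
`ρ (a Δu + ∇a·∇u) = ∑_k ∂_k (ρ a (∇u)^k)`, where `(∇u)^k = up e A u k`.

Proof: product rule: `∂_k (ρ a up_k) = ρ (∂_k lnv A) a up_k + ρ (∂_k a) up_k + ρ a ∂_k up_k`.
Sum over `k`: `∑_k (∂_k lnv A) up_k = ∑_k ∑_i Γ^i_{ik} up_k` (`pd_lnv`, `chr_tr`),
`∑_k ∂_k up_k + ∑_i ∑_k Γ^i_{ik} up_k = Δu` (`div_up`), `∑_k (∂_k a) up_k = ∇a·∇u` (`grd_eq`,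
`grd_comm`).
-/

namespace Pool.Agent.Work.MP_2fa4be_gt.MB

open Pool.Agent.Work.MP_2fa4be_gt
open scoped ContDiff

variable {E κ : Type*} [NormedAddCommGroup E] [NormedSpace ℝ E] [Fintype κ] [DecidableEq κ]
  {U : Set E} {A : E → Matrix κ κ ℝ} {y : E} {ρ a u : E → ℝ}

theorem div_form (h : GoodMat U A) (e : κ → E) (hρ : ContDiffOn ℝ ∞ ρ U)
    (hρd : ∀ z ∈ U, ∀ k, pd e k ρ z = ρ z * pd e k (lnv A) z) (ha : ContDiffOn ℝ ∞ a U)
    (hu : ContDiffOn ℝ ∞ u U) (hy : y ∈ U) :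
    ρ y * (a y * lap e A u y + grd e A a u y) =
      ∑ k, pd e k (fun z => ρ z * a z * up e A u k z) y := by
  have hρ' : DifferentiableAt ℝ ρ y := diffAt h.isOpen hρ hy
  have ha' : DifferentiableAt ℝ a y := diffAt h.isOpen ha hy
  have hup : ∀ k, DifferentiableAt ℝ (up e A u k) y := fun k =>
    diffAt h.isOpen (up_smooth h hu k) hy
  have h1 : ∀ k, pd e k (fun z => ρ z * a z * up e A u k z) y =
      ρ y * a y * pd e k (up e A u k) y +
        ρ y * a y * ∑ i, chr e A i i k y * up e A u k y +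
        ρ y * (up e A u k y * pd e k a y) := by
    intro k
    have h2 : pd e k (fun z => ρ z * a z * up e A u k z) y =
        ρ y * a y * pd e k (up e A u k) y + pd e k (fun z => ρ z * a z) y * up e A u k y :=
      pd_mul (F := fun z => ρ z * a z) (hρ'.mul ha') (hup k) k
    rw [h2, pd_mul hρ' ha', hρd y hy k, pd_lnv h hy, ← chr_tr h hy, ← Finset.sum_mul]
    ring
  rw [Finset.sum_congr rfl fun k _ => h1 k, Finset.sum_add_distrib, Finset.sum_add_distrib,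
    ← Finset.mul_sum, ← Finset.mul_sum, ← Finset.mul_sum, ← grd_eq h hy, grd_comm h hy (f := u),
    ← div_up h hu hy, Finset.sum_comm (f := fun i p => chr e A i i p y * up e A u p y)]
  ring

end Pool.Agent.Work.MP_2fa4be_gt.MB
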