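import Pool.Agent.Work.MP_2fa4be_gt.MB.Tools

/-!
# Module IntZero (size S-M): the integral of a derivative

`F` is smooth on the open set `U ⊂ ℝ^m` and vanishes on `U` outside the compact set `C ⊂ U`. Put
`F' = F` on `U` and `0` outside: smooth on `ℝ^m` (near a point of `U` it is `F`; the complement of
`C` is open and `F' = 0` there), compact support. `∂_i F' = ∂_i F` on `U` and `0` outside `U`
(outside `C`). The integral over `ℝ^m` of `∂_i F'` is zero: for instance
`integral_mul_fderiv_eq_neg_fderiv_mul_of_integrable`-type lemmas in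
`Mathlib.Analysis.Calculus.LineDeriv.IntegrationByParts` (with the constant function `1`, or
`integral_bilinear_hasLineDerivAt_right_eq_neg_left_of_integrable`).
-/

namespace Pool.Agent.Work.MP_2fa4be_gt.MB

open Pool.Agent.Work.MP_2fa4be_gt
open MeasureTheory
open scoped ContDiff

variable {m : ℕ} {U C : Set (Eu m)} {F : Eu m → ℝ}

open scoped Topology in
theorem int_zero (hU : IsOpen U) (hF : ContDiffOn ℝ ∞ F U) (hC : IsCompact C) (hCU : C ⊆ U)
    (h0 : ∀ y ∈ U, y ∉ C → F y = 0) (i : Fin m) :
    IntegrableOn (pd (bas m) i F) U ∧ ∫ y in U, pd (bas m) i F y = 0 := by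
  classical
  have hout : ∀ y, y ∉ C → U.indicator F y = 0 := by
    intro y hy
    by_cases h : y ∈ U
    · rw [Set.indicator_of_mem h, h0 y h hy]
    · rw [Set.indicator_of_notMem h]
  have hnear : ∀ y, y ∉ C → U.indicator F =ᶠ[𝓝 y] fun _ => 0 := by
    intro y hy
    filter_upwards [hC.isClosed.isOpen_compl.mem_nhds hy] with z hz
    exact hout z hz
  have hnearU : ∀ y ∈ U, U.indicator F =ᶠ[𝓝 y] F := by
    intro y hy
    filter_upwards [hU.mem_nhds hy] with z hz
    exact Set.indicator_of_mem hz F
  have hsm : ContDiff ℝ 1 (U.indicator F) := by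
    rw [contDiff_iff_contDiffAt]
    intro y
    by_cases h : y ∈ U
    · exact ((hF.contDiffAt (hU.mem_nhds h)).of_le (by simp)).congr_of_eventuallyEq (hnearU y h)
    · exact contDiffAt_const.congr_of_eventuallyEq (hnear y fun hy => h (hCU hy))
  have hcs : HasCompactSupport (U.indicator F) :=
    HasCompactSupport.of_support_subset_isCompact hC fun y hy => by
      by_contra h
      exact hy (hout y h)
  have hcd : Continuous (fun y => fderiv ℝ (U.indicator F) y (bas m i)) :=
    (hsm.continuous_fderiv (by simp)).clm_apply continuous_const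
  have hcsd : HasCompactSupport (fun y => fderiv ℝ (U.indicator F) y (bas m i)) :=
    HasCompactSupport.of_support_subset_isCompact hC fun y hy => by
      by_contra h
      apply hy
      simp only
      rw [(hnear y h).fderiv_eq]
      simp
  have hint : Integrable (fun y => fderiv ℝ (U.indicator F) y (bas m i)) :=
    hcd.integrable_of_hasCompactSupport hcsd
  have hz : ∫ y, fderiv ℝ (U.indicator F) y (bas m i) = 0 := by
    have h1 := integral_mul_fderiv_eq_neg_fderiv_mul_of_integrable (μ := volume)
      (f := fun _ : Eu m => (1 : ℝ)) (g := U.indicator F) (v := bas m i)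
      (by simp) (by simpa using hint)
      (by simpa using hsm.continuous.integrable_of_hasCompactSupport hcs)
      (fun x _ => differentiableAt_const _) (fun x _ => hsm.differentiable (by simp) x)
    simpa using h1
  have heq : ∀ y ∈ U, pd (bas m) i F y = fderiv ℝ (U.indicator F) y (bas m i) := by
    intro y hy
    unfold pd
    rw [(hnearU y hy).fderiv_eq]
  refine ⟨?_, ?_⟩
  · exact (hint.integrableOn (s := U)).congr_fun (fun y hy => (heq y hy).symm) hU.measurableSet
  · rw [setIntegral_congr_fun hU.measurableSet heq,
      setIntegral_eq_integral_of_forall_compl_eq_zero, hz]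
    intro y hy
    rw [(hnear y fun h => hy (hCU h)).fderiv_eq]
    simp

end Pool.Agent.Work.MP_2fa4be_gt.MB
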