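import Pool.Agent.Work.MP_2fa4be_gt.MB.Part
import Pool.Agent.Work.MP_2fa4be_gt.MB.Dens
import Pool.Agent.Work.MP_2fa4be_gt.MB.DivF
import Pool.Agent.Work.MP_2fa4be_gt.MB.IntZero
import Pool.Agent.Work.MP_2fa4be_gt.MB.ContM

/-!
# Module Ibp (size M-L): integration by parts along the leaves

Take `k, c, χ` from `exists_part`. For every `j`, with `a_j = χ_j a` (smooth, `tsupport a_j`
compact and contained in `(c j).source`), the function
`f_j = a_j lapM u + grdM a_j u` is continuous (`continuous_lapM`, `continuous_grdM`), its support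
lies in `tsupport a_j` (near a point outside `tsupport a_j` the function `a_j` vanishes, so does its
gradient: use the chart formula), so `tsupport f_j ⊆ (c j).source`. By `IsVol` and `lapM_eq`,
`grdM_eq`

  `∫ f_j dμ = ∫_{(c j).target} dens (a_j lap u + grd a_j u) dy`  (functions in the chart `c j`),

and by `div_form` (`ρ = dens h (c j)`, `dens_smooth`, `dens_pd`) the integrand is
`∑_{k of label K} ∂_k F_k`, `F_k = dens a_j up_k`, smooth on `(c j).target` and zero outside the
compact set `(c j) '' tsupport a_j`. `int_zero` for each `k`.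
Finally `∑_j a_j = a`, `∑_j f_j = a lapM u + grdM a u` (linearity of `grd` in the first argument:
in the preferred chart `∂_i` of a finite sum of differentiable functions, `pd_sum`), and the
integral of a finite sum of continuous functions on the compact space `M` (finite measure:
`Continuous.integrable_of_hasCompactSupport` or bounded) is the sum of the integrals.
-/

namespace Pool.Agent.Work.MP_2fa4be_gt.MB

open Pool.Agent.Work.MP_2fa4be_gt
open MeasureTheory
open scoped Manifold ContDiff

variable {m : ℕ} {J M : Type*} [TopologicalSpace M] [ChartedSpace (Eu m) M]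
  [IsManifold (𝓡 m) ∞ M] [CompactSpace M] [T2Space M] [MeasurableSpace M]
  [BorelSpace M] [Fintype J] [DecidableEq J] {b : Fin m → J} {h : RMetric m M} {a u : M → ℝ}
  {μ : Measure M} [IsFiniteMeasure μ]

omit [IsManifold (𝓡 m) ∞ M] [CompactSpace M] [T2Space M] [MeasurableSpace M] [BorelSpace M]
  [Fintype J] in
private theorem grdM_zero {x : M} (K : J) (hx : x ∉ tsupport a) : grdM b K h a u x = 0 := by
  have h1 : (fun y => a (pt x y)) =ᶠ[nhds (chartAt (Eu m) x x)] fun _ => (0 : ℝ) := by
    have h2 : ContinuousAt (fun y => pt x y) (chartAt (Eu m) x x) :=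
      (chartAt (Eu m) x).continuousAt_symm (mem_chart_target (Eu m) x)
    have h3 : (tsupport a)ᶜ ∈ nhds (pt x (chartAt (Eu m) x x)) := by
      rw [pt_self]
      exact (isClosed_tsupport a).isOpen_compl.mem_nhds hx
    filter_upwards [h2 h3] with y hy
    exact image_eq_zero_of_notMem_tsupport hy
  unfold grdM grd
  refine Finset.sum_eq_zero fun i _ => Finset.sum_eq_zero fun j _ => ?_
  rw [pd_congr h1, pd_const, zero_mul, mul_zero]

private theorem loc_zero (hA : BlockAtlas b M) (hd : DiagM b h) (hv : VolM b h) (hμ : IsVol h μ)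
    {c : OpenPartialHomeomorph M (Eu m)} (hc : c ∈ atlas (Eu m) M)
    (ha : SmoothFun m a) (hu : SmoothFun m u) (hs : tsupport a ⊆ c.source) (K : J) :
    ∫ x, (a x * lapM b K h u x + grdM b K h a u x) ∂μ = 0 := by
  have hcont : Continuous (fun x => a x * lapM b K h u x + grdM b K h a u x) :=
    (ha.continuous.mul (continuous_lapM hA hu K)).add (continuous_grdM hA ha hu K)
  have hts : tsupport (fun x => a x * lapM b K h u x + grdM b K h a u x) ⊆ c.source := by
    refine (closure_minimal ?_ (isClosed_tsupport a)).trans hs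
    intro x hx
    by_contra hxa
    apply hx
    show a x * lapM b K h u x + grdM b K h a u x = 0
    rw [grdM_zero K hxa, image_eq_zero_of_notMem_tsupport hxa, zero_mul, add_zero]
  rw [hμ c hc _ hcont hts]
  have hg := good_bco (b := b) (h := h) hc K
  have hac := smooth_chart ha hc
  have huc := smooth_chart hu hc
  have hds := dens_smooth h hc
  have hC : IsCompact (c '' tsupport a) :=
    (isClosed_tsupport a).isCompact.image_of_continuousOn (c.continuousOn.mono hs)
  have hCU : c '' tsupport a ⊆ c.target := by
    rintro _ ⟨x, hx, rfl⟩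
    exact c.map_source (hs hx)
  have hzero : ∀ k : {i // b i = K},
      IntegrableOn (pd (bfr (bas m) b K) k (fun z => dens h c z * a (c.symm z) *
        up (bfr (bas m) b K) (blk b K (h.co c)) (fun y => u (c.symm y)) k z)) c.target ∧
      ∫ y in c.target, pd (bfr (bas m) b K) k (fun z => dens h c z * a (c.symm z) *
        up (bfr (bas m) b K) (blk b K (h.co c)) (fun y => u (c.symm y)) k z) y = 0 := by
    intro k
    refine int_zero (F := fun z => dens h c z * a (c.symm z) *
      up (bfr (bas m) b K) (blk b K (h.co c)) (fun y => u (c.symm y)) k z) c.open_target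
      ((hds.mul hac).mul (up_smooth hg huc k)) hC hCU ?_ k.1
    intro y hy hyC
    have h0 : a (c.symm y) = 0 := by
      by_contra hne
      apply hyC
      exact ⟨c.symm y, subset_tsupport a hne, c.right_inv hy⟩
    show dens h c y * a (c.symm y) * _ = 0
    rw [h0, mul_zero, zero_mul]
  have hint : ∫ y in c.target, (a (c.symm y) * lapM b K h u (c.symm y) +
      grdM b K h a u (c.symm y)) * dens h c y =
      ∫ y in c.target, ∑ k : {i // b i = K}, pd (bfr (bas m) b K) k
        (fun z => dens h c z * a (c.symm z) *
          up (bfr (bas m) b K) (blk b K (h.co c)) (fun y => u (c.symm y)) k z) y := by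
    refine setIntegral_congr_fun c.open_target.measurableSet fun y hy => ?_
    have hsrc : c.symm y ∈ c.source := c.map_target hy
    have e1 := div_form hg (bfr (bas m) b K) hds
      (fun z hz k => dens_pd hd hv hc hz K k) hac huc hy
    show (a (c.symm y) * lapM b K h u (c.symm y) + grdM b K h a u (c.symm y)) * dens h c y = _
    rw [← e1, lapM_eq hA hu hc hsrc, grdM_eq hA ha hu hc hsrc, c.right_inv hy]
    ring
  rw [hint, integral_finset_sum _ fun k _ => (hzero k).1]
  exact Finset.sum_eq_zero fun k _ => (hzero k).2

omit [CompactSpace M] [T2Space M] [MeasurableSpace M] [BorelSpace M] [Fintype J] in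
private theorem grdM_sum {n : ℕ} {f : Fin n → M → ℝ} (hf : ∀ j, SmoothFun m (f j)) (K : J)
    (x : M) : grdM b K h (fun x => ∑ j, f j x) u x = ∑ j, grdM b K h (f j) u x := by
  have hdf : ∀ j, DifferentiableAt ℝ (fun y => f j (pt x y)) (chartAt (Eu m) x x) := fun j =>
    diffAt (dom_open x) (comp_pt (hf j) x) (mem_dom x)
  have h1 : ∀ i : {i // b i = K}, pd (bfr (bas m) b K) i (fun y => ∑ j, f j (pt x y))
      (chartAt (Eu m) x x) = ∑ j, pd (bfr (bas m) b K) i (fun y => f j (pt x y))
        (chartAt (Eu m) x x) := fun i => pd_sum (F := fun j y => f j (pt x y)) (fun j _ => hdf j) i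
  unfold grdM grd
  conv_rhs => rw [Finset.sum_comm]
  refine Finset.sum_congr rfl fun i _ => ?_
  conv_rhs => rw [Finset.sum_comm]
  refine Finset.sum_congr rfl fun j _ => ?_
  rw [h1 i, Finset.sum_mul, Finset.mul_sum]

theorem ibp (hA : BlockAtlas b M) (hd : DiagM b h) (hv : VolM b h) (hμ : IsVol h μ)
    (ha : SmoothFun m a) (hu : SmoothFun m u) (K : J) :
    ∫ x, (a x * lapM b K h u x + grdM b K h a u x) ∂μ = 0 := by
  obtain ⟨n, c, χ, hc, hχ, -, hχs, hχ1⟩ := exists_part m M
  have haj : ∀ j, SmoothFun m (fun x => χ j x * a x) := fun j => (hχ j).mul ha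
  have hts : ∀ j, tsupport (fun x => χ j x * a x) ⊆ (c j).source := by
    intro j
    refine (closure_minimal ?_ (isClosed_tsupport (χ j))).trans (hχs j)
    intro x hx
    by_contra hxa
    apply hx
    show χ j x * a x = 0
    rw [image_eq_zero_of_notMem_tsupport hxa, zero_mul]
  have hasum : a = fun x => ∑ j, χ j x * a x := by
    funext x
    rw [← Finset.sum_mul, hχ1, one_mul]
  have hint : ∀ j, Integrable (fun x => χ j x * a x * lapM b K h u x +
      grdM b K h (fun x => χ j x * a x) u x) μ := by
    intro j
    have hcont : Continuous (fun x => χ j x * a x * lapM b K h u x +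
        grdM b K h (fun x => χ j x * a x) u x) :=
      ((haj j).continuous.mul (continuous_lapM hA hu K)).add (continuous_grdM hA (haj j) hu K)
    exact hcont.integrable_of_hasCompactSupport (HasCompactSupport.of_compactSpace _)
  have hfun : (fun x => a x * lapM b K h u x + grdM b K h a u x) =
      fun x => ∑ j, (χ j x * a x * lapM b K h u x + grdM b K h (fun x => χ j x * a x) u x) := by
    funext x
    rw [Finset.sum_add_distrib, ← grdM_sum haj K x, ← hasum, ← Finset.sum_mul, ← Finset.sum_mul,
      hχ1, one_mul]
  rw [hfun, integral_finset_sum _ fun j _ => hint j]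
  exact Finset.sum_eq_zero fun j _ => loc_zero hA hd hv hμ (hc j) (haj j) hu (hts j) K

end Pool.Agent.Work.MP_2fa4be_gt.MB
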