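import Pool.Agent.Work.MP_2fa4be_gt.MB.TwoBlock
import Pool.Agent.Work.MP_2fa4be_gt.MB.TauPos

/-!
# Module Multi (size M-L): many blocks

`G` is block diagonal with respect to the labels `b : ι → J`.

* `good_blk`: a principal submatrix of a positive definite matrix is positive definite
  (`Matrix.PosDef.submatrix`, `Subtype.val_injective`; `blk b K G y = (G y).submatrix val val`).
* `lnv_blk`: `lnv G = ∑_K lnv (blk b K G)`.
* `Phi_multi`: `Φ(G, u) ≤ ∑_K Φ(G_K, u + lnv G - lnv G_K)`.

Proof of both by induction on a finite set `s` of labels, for the matrix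
`G_s z = (G z).submatrix val val` on the index type `{i // b i ∈ s}` with the frame `e ∘ val`:

  (1) `lnv G_s = ∑_{K ∈ s} lnv (blk b K G)` on `U`,
  (2) for all smooth `u` and all `y ∈ U`:
      `Φ(G_s, u) ≤ ∑_{K ∈ s} Φ(G_K, u + lnv G_s - lnv G_K)`.

For `s = ∅` the index type is empty, both sides are zero (`Phi` is a sum over an empty type; the
determinant of the empty matrix is `1`). Step `insert K s`, `K ∉ s`: the equivalence
`σ : {i // b i = K} ⊕ {i // b i ∈ s} ≃ {i // b i ∈ insert K s}` satisfies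
`rein σ G_{insert K s} = two (blk b K G) G_s` on `U` because `G` is block diagonal (an equality of
matrix functions on the open set `U`; `Phi` at `y ∈ U` only depends on the function near `y`: it is
convenient to have a lemma `Phi e G u y = Phi e G' u y` if `G = G'` on the open set `U ∋ y`, proved
by `pd_congr_on`). By `Phi_rein`, `Phi_two` and `tau_nonneg`

  `Φ(G_{insert K s}, u) ≤ Φ(G_K, u + lnv G_s) + Φ(G_s, u + lnv G_K)`,

and the induction hypothesis for `u' = u + lnv G_K` gives
`Φ(G_s, u') ≤ ∑_{L ∈ s} Φ(G_L, u + lnv G_K + lnv G_s - lnv G_L)`; with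
`lnv G_{insert K s} = lnv G_K + lnv G_s` (`lnv_two`, `lnv_rein`) these are the claimed terms (the
functions agree on `U`, use a lemma that `Phi` only depends on `u` near the point).
At the end `s = Finset.univ` and `{i // b i ∈ Finset.univ} ≃ ι`.
-/

namespace Pool.Agent.Work.MP_2fa4be_gt.MB

open Pool.Agent.Work.MP_2fa4be_gt
open scoped ContDiff

variable {E ι J : Type*} [NormedAddCommGroup E] [NormedSpace ℝ E] [Fintype ι] [DecidableEq ι]
  [Fintype J] [DecidableEq J] {U : Set E} {G : E → Matrix ι ι ℝ} {y : E} {u : E → ℝ} {b : ι → J}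

/-- the principal submatrix given by the predicate `p` -/
private def sb (p : ι → Prop) (G : E → Matrix ι ι ℝ) (y : E) : Matrix {i // p i} {i // p i} ℝ :=
  (G y).submatrix Subtype.val Subtype.val

omit [Fintype ι] [DecidableEq ι] in
private theorem good_sb (h : GoodMat U G) (p : ι → Prop) : GoodMat U (sb p G) where
  isOpen := h.isOpen
  smooth := fun i j => h.smooth i.1 j.1
  pos := fun y hy => (h.pos y hy).submatrix Subtype.val_injective

omit [Fintype ι] [DecidableEq ι] [Fintype J] [DecidableEq J] in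
theorem good_blk (h : GoodMat U G) (K : J) : GoodMat U (blk b K G) := by
  exact good_sb h fun i => b i = K

omit [NormedAddCommGroup E] [NormedSpace ℝ E] [Fintype ι] [DecidableEq ι] [Fintype J]
  [DecidableEq J] in
private theorem sb_blk (G : E → Matrix ι ι ℝ) (b : ι → J) (K : J) :
    sb (fun i => b i = K) G = blk b K G := rfl

private theorem chr_cg {G G' : E → Matrix ι ι ℝ} (hU : IsOpen U) (hG : ∀ z ∈ U, G z = G' z)
    (hy : y ∈ U) (e : ι → E) (k i j : ι) : chr e G k i j y = chr e G' k i j y := by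
  have h1 : ∀ a i j, pd e a (fun z => G z i j) y = pd e a (fun z => G' z i j) y :=
    fun a i j => pd_congr_on hU (fun z hz => by rw [hG z hz]) hy a
  unfold chr
  rw [hG y hy]
  simp only [h1]

private theorem ric_cg {G G' : E → Matrix ι ι ℝ} (hU : IsOpen U) (hG : ∀ z ∈ U, G z = G' z)
    (hy : y ∈ U) (e : ι → E) (j k : ι) : ric e G j k y = ric e G' j k y := by
  have h1 : ∀ a k i j, pd e a (chr e G k i j) y = pd e a (chr e G' k i j) y :=
    fun a k i j => pd_congr_on hU (fun z hz => chr_cg hU hG hz e k i j) hy a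
  have h2 : ∀ k i j, chr e G k i j y = chr e G' k i j y := fun k i j => chr_cg hU hG hy e k i j
  unfold ric
  simp only [h1, h2]

private theorem Phi_cg {G G' : E → Matrix ι ι ℝ} {u u' : E → ℝ} (hU : IsOpen U)
    (hG : ∀ z ∈ U, G z = G' z) (hu : ∀ z ∈ U, u z = u' z) (hy : y ∈ U) (e : ι → E) :
    Phi e G u y = Phi e G' u' y := by
  have h1 : ∀ j k, ric e G j k y = ric e G' j k y := fun j k => ric_cg hU hG hy e j k
  have h2 : ∀ k i j, chr e G k i j y = chr e G' k i j y := fun k i j => chr_cg hU hG hy e k i j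
  have h3 : ∀ i, pd e i u y = pd e i u' y := fun i => pd_congr_on hU hu hy i
  have h4 : ∀ i j, pd e i (pd e j u) y = pd e i (pd e j u') y :=
    fun i j => pd_congr_on hU (fun z hz => pd_congr_on hU hu hz j) hy i
  unfold Phi scal lap grd
  simp only [h1, h2, h3, h4, hG y hy]

/-- the union of two disjoint sets of indices -/
private def uni (p q r : ι → Prop) [DecidablePred p] (hr : ∀ i, r i ↔ p i ∨ q i)
    (hpq : ∀ i, p i → ¬ q i) : {i // p i} ⊕ {i // q i} ≃ {i // r i} where
  toFun := Sum.elim (fun i => ⟨i.1, (hr i.1).2 (Or.inl i.2)⟩) fun i => ⟨i.1, (hr i.1).2 (Or.inr i.2)⟩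
  invFun := fun i => if h : p i.1 then Sum.inl ⟨i.1, h⟩ else
    Sum.inr ⟨i.1, ((hr i.1).1 i.2).resolve_left h⟩
  left_inv := by
    rintro (⟨i, hi⟩ | ⟨i, hi⟩)
    · simp [hi]
    · have : ¬ p i := fun h => hpq i h hi
      simp [this]
  right_inv := by
    rintro ⟨i, hi⟩
    by_cases h : p i <;> simp [h]

section Parts

variable {p q r : ι → Prop} [DecidablePred p] [DecidablePred q] [DecidablePred r]

omit [NormedAddCommGroup E] [NormedSpace ℝ E] [Fintype ι] [DecidableEq ι] [DecidablePred q]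
  [DecidablePred r] in
private theorem rein_sb (hr : ∀ i, r i ↔ p i ∨ q i) (hpq : ∀ i, p i → ¬ q i) {z : E}
    (h0 : ∀ i j, p i → q j → G z i j = 0) (h1 : ∀ i j, p i → q j → G z j i = 0) :
    rein (uni p q r hr hpq) (sb r G) z = two (sb p G) (sb q G) z := by
  ext i j
  rcases i with i | i <;> rcases j with j | j
  · rfl
  · exact h0 i.1 j.1 i.2 j.2
  · exact h1 j.1 i.1 j.2 i.2
  · rfl

private theorem lnv_part (h : GoodMat U G) (hr : ∀ i, r i ↔ p i ∨ q i)
    (hpq : ∀ i, p i → ¬ q i) (h0 : ∀ z ∈ U, ∀ i j, p i → q j → G z i j = 0)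
    (h1 : ∀ z ∈ U, ∀ i j, p i → q j → G z j i = 0) (hy : y ∈ U) :
    lnv (sb r G) y = lnv (sb p G) y + lnv (sb q G) y := by
  rw [← lnv_rein (uni p q r hr hpq) (sb r G), ← lnv_two (good_sb h p) (good_sb h q) hy]
  unfold lnv
  rw [rein_sb hr hpq (h0 y hy) (h1 y hy)]

private theorem Phi_part (h : GoodMat U G) (hr : ∀ i, r i ↔ p i ∨ q i)
    (hpq : ∀ i, p i → ¬ q i) (h0 : ∀ z ∈ U, ∀ i j, p i → q j → G z i j = 0)
    (h1 : ∀ z ∈ U, ∀ i j, p i → q j → G z j i = 0) (hu : ContDiffOn ℝ ∞ u U) (hy : y ∈ U)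
    (e : ι → E) :
    Phi (fun i : {i // r i} => e i.1) (sb r G) u y ≤
      Phi (fun i : {i // p i} => e i.1) (sb p G) (fun z => u z + lnv (sb q G) z) y +
      Phi (fun i : {i // q i} => e i.1) (sb q G) (fun z => u z + lnv (sb p G) z) y := by
  rw [← Phi_rein (uni p q r hr hpq) (fun i : {i // r i} => e i.1) (sb r G) u y,
    Phi_cg h.isOpen (fun z hz => rein_sb hr hpq (h0 z hz) (h1 z hz)) (fun z _ => rfl) hy,
    Phi_two (good_sb h p) (good_sb h q) hu hy]
  have h2 := tau_nonneg (good_sb h p) (good_sb h q) hy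
    (fun i => e (uni p q r hr hpq (Sum.inl i)).1)
  have h3 := tau_nonneg (good_sb h q) (good_sb h p) hy
    (fun i => e (uni p q r hr hpq (Sum.inr i)).1)
  have h4 : (fun i : {i // p i} => e (uni p q r hr hpq (Sum.inl i)).1) =
      fun i : {i // p i} => e i.1 := rfl
  have h5 : (fun i : {i // q i} => e (uni p q r hr hpq (Sum.inr i)).1) =
      fun i : {i // q i} => e i.1 := rfl
  rw [h4] at h2 ⊢
  rw [h5] at h3 ⊢
  linarith

end Parts

omit [Fintype J] in
private theorem lnv_fin (h : GoodMat U G) (hd : ∀ z ∈ U, ∀ i j, b i ≠ b j → G z i j = 0)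
    (hy : y ∈ U) (s : Finset J) :
    lnv (sb (fun i => b i ∈ s) G) y = ∑ K ∈ s, lnv (blk b K G) y := by
  induction s using Finset.induction_on with
  | empty =>
    have : IsEmpty {i // b i ∈ (∅ : Finset J)} := ⟨fun i => by simpa using i.2⟩
    simp [lnv]
  | insert K s hK ih =>
    rw [Finset.sum_insert hK, ← ih, ← sb_blk]
    refine lnv_part (p := fun i => b i = K) (q := fun i => b i ∈ s) (r := fun i => b i ∈ insert K s)
      h (fun i => Finset.mem_insert) (fun i hi hi' => hK (hi ▸ hi')) ?_ ?_ hy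
    · intro z hz i j hi hj
      exact hd z hz i j fun hij => hK (by rw [← hi, hij]; exact hj)
    · intro z hz i j hi hj
      exact hd z hz j i fun hij => hK (by rw [← hi, ← hij]; exact hj)

theorem lnv_blk (h : GoodMat U G) (hd : ∀ z ∈ U, ∀ i j, b i ≠ b j → G z i j = 0) (hy : y ∈ U) :
    lnv G y = ∑ K, lnv (blk b K G) y := by
  rw [← lnv_fin h hd hy Finset.univ]
  have h1 : rein (Equiv.subtypeUnivEquiv (fun i => Finset.mem_univ (b i))).symm
      (sb (fun i => b i ∈ Finset.univ) G) = G := rfl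
  rw [← lnv_rein (Equiv.subtypeUnivEquiv (fun i => Finset.mem_univ (b i))).symm
    (sb (fun i => b i ∈ Finset.univ) G), h1]

omit [Fintype J] in
private theorem Phi_fin (h : GoodMat U G) (hd : ∀ z ∈ U, ∀ i j, b i ≠ b j → G z i j = 0)
    (hy : y ∈ U) (e : ι → E) (s : Finset J) : ∀ u : E → ℝ, ContDiffOn ℝ ∞ u U →
    Phi (fun i : {i // b i ∈ s} => e i.1) (sb (fun i => b i ∈ s) G) u y ≤
      ∑ K ∈ s, Phi (bfr e b K) (blk b K G)
        (fun z => u z + (lnv (sb (fun i => b i ∈ s) G) z - lnv (blk b K G) z)) y := by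
  induction s using Finset.induction_on with
  | empty =>
    intro u _
    have : IsEmpty {i // b i ∈ (∅ : Finset J)} := ⟨fun i => by simpa using i.2⟩
    simp [Phi, scal, lap, grd]
  | insert K s hK ih =>
    intro u hu
    have hpq : ∀ i, b i = K → ¬ b i ∈ s := fun i hi hi' => hK (hi ▸ hi')
    have h0 : ∀ z ∈ U, ∀ i j, b i = K → b j ∈ s → G z i j = 0 := fun z hz i j hi hj =>
      hd z hz i j fun hij => hK (by rw [← hi, hij]; exact hj)
    have h1 : ∀ z ∈ U, ∀ i j, b i = K → b j ∈ s → G z j i = 0 := fun z hz i j hi hj =>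
      hd z hz j i fun hij => hK (by rw [← hi, ← hij]; exact hj)
    have hln : ∀ z ∈ U, lnv (sb (fun i => b i ∈ insert K s) G) z =
        lnv (blk b K G) z + lnv (sb (fun i => b i ∈ s) G) z := fun z hz =>
      lnv_part (p := fun i => b i = K) (q := fun i => b i ∈ s) (r := fun i => b i ∈ insert K s)
        h (fun i => Finset.mem_insert) hpq h0 h1 hz
    have h2 := Phi_part (p := fun i => b i = K) (q := fun i => b i ∈ s)
      (r := fun i => b i ∈ insert K s) h (fun i => Finset.mem_insert) hpq h0 h1 hu hy e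
    have hu' : ContDiffOn ℝ ∞ (fun z => u z + lnv (blk b K G) z) U :=
      hu.add (lnv_smooth (good_blk h K))
    have h3 := ih (fun z => u z + lnv (blk b K G) z) hu'
    refine h2.trans ?_
    rw [Finset.sum_insert hK]
    refine add_le_add (le_of_eq ?_) (h3.trans (le_of_eq ?_))
    · refine Phi_cg h.isOpen (fun z _ => rfl) (fun z hz => ?_) hy _
      show u z + lnv (sb (fun i => b i ∈ s) G) z =
        u z + (lnv (sb (fun i => b i ∈ insert K s) G) z - lnv (blk b K G) z)
      rw [hln z hz]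
      ring
    · refine Finset.sum_congr rfl fun L _ => Phi_cg h.isOpen (fun z _ => rfl) (fun z hz => ?_) hy _
      rw [hln z hz]
      ring

theorem Phi_multi (h : GoodMat U G) (hd : ∀ z ∈ U, ∀ i j, b i ≠ b j → G z i j = 0)
    (hu : ContDiffOn ℝ ∞ u U) (hy : y ∈ U) (e : ι → E) :
    Phi e G u y ≤
      ∑ K, Phi (bfr e b K) (blk b K G) (fun z => u z + (lnv G z - lnv (blk b K G) z)) y := by
  have h2 := Phi_fin h hd hy e Finset.univ u hu
  have h1 : rein (Equiv.subtypeUnivEquiv (fun i => Finset.mem_univ (b i))).symm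
      (sb (fun i => b i ∈ Finset.univ) G) = G := rfl
  have h3 : lnv (sb (fun i => b i ∈ Finset.univ) G) = lnv G := by
    rw [← lnv_rein (Equiv.subtypeUnivEquiv (fun i => Finset.mem_univ (b i))).symm
      (sb (fun i => b i ∈ Finset.univ) G), h1]
  have h4 := Phi_rein (Equiv.subtypeUnivEquiv (fun i => Finset.mem_univ (b i))).symm
    (fun i : {i // b i ∈ Finset.univ} => e i.1) (sb (fun i => b i ∈ Finset.univ) G) u y
  rw [h1] at h4
  rw [h3, ← h4] at h2
  exact h2

end Pool.Agent.Work.MP_2fa4be_gt.MB
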