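import Pool.Agent.Work.MP_2fa4be_gt.MB.Trans
import Pool.Agent.Work.MP_2fa4be_gt.MB.ChartSm
import Pool.Agent.Work.MP_2fa4be_gt.MB.Multi

/-!
# Module InvM (size M): the leafwise operators in an arbitrary chart

`lapM b K h u x` is computed in the preferred chart `c₀ = chartAt x`; for `x ∈ c.source` and
`c ∈ atlas` it is the same in the chart `c`.

Proof: `grd_trans`, `lap_trans` with `U = ov c₀ c`, `U' = c.target`, `φ = c ∘ c₀.symm`,
`e = e' = bfr (bas m) b K`, `G = blk b K (h.co c₀)`, `G' = blk b K (h.co c)`,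
`P z a i = jac c₀ c z a i` (`a, i` of label `K`), at the point `y = c₀ x`, `φ y = c x`.
* `hP`: `fderiv_trans`, the terms `jac k i` with `b k ≠ K = b i` vanish by `BlockAtlas`, so the sum
  over `Fin m` is the sum over the subtype;
* `hPs`, `hPc`: `jac_smooth`, `jac_sym` (`pd (bfr (bas m) b K) i F = pd (bas m) i F` by `rfl`);
* `hGG`: `h.compat` restricted to the labels `K`; the sums reduce to the subtype by `BlockAtlas`;
* `GoodMat` of the blocks: `good_blk` of the full matrix on `c.target` (fields `smooth`, `pos`),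
  restricted to the open subset;
* the functions: `u (c₀.symm z) = u (c.symm (φ z))` for `z ∈ U`; replace the function by an equal
  one on the open set `U` (`pd_congr_on`, twice for `lap`).
The hypothesis that `h` is block diagonal is not needed.
-/

namespace Pool.Agent.Work.MP_2fa4be_gt.MB

open Pool.Agent.Work.MP_2fa4be_gt
open scoped Manifold ContDiff

variable {m : ℕ} {J M : Type*} [TopologicalSpace M] [ChartedSpace (Eu m) M]
  [IsManifold (𝓡 m) ∞ M] [DecidableEq J] {b : Fin m → J} {h : RMetric m M} {u w : M → ℝ}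
  {c : OpenPartialHomeomorph M (Eu m)} {x : M}

omit [IsManifold (𝓡 m) ∞ M] in
theorem good_co (hc : c ∈ atlas (Eu m) M) : GoodMat c.target (h.co c) :=
  ⟨c.open_target, h.smooth c hc, h.pos c hc⟩

omit [IsManifold (𝓡 m) ∞ M] in
theorem good_bco (hc : c ∈ atlas (Eu m) M) (K : J) :
    GoodMat c.target (blk b K (h.co c)) :=
  good_blk (good_co hc) K

private theorem sum_lab {A : Type*} [AddCommMonoid A] (F : Fin m → A) (K : J)
    (h0 : ∀ k, b k ≠ K → F k = 0) : ∑ k, F k = ∑ k : {k // b k = K}, F k := by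
  rw [← Finset.sum_subtype (Finset.univ.filter fun k => b k = K) (by simp) F]
  symm
  apply Finset.sum_filter_of_ne
  intro k _ hk
  by_contra h1
  exact hk (h0 k h1)

private theorem lap_congr {E ι : Type*} [NormedAddCommGroup E] [NormedSpace ℝ E] [Fintype ι]
    [DecidableEq ι] {e : ι → E} {G : E → Matrix ι ι ℝ} {f g : E → ℝ} {U : Set E} {y : E}
    (hU : IsOpen U) (hfg : ∀ z ∈ U, f z = g z) (hy : y ∈ U) : lap e G f y = lap e G g y := by
  have h1 : ∀ j, ∀ z ∈ U, pd e j f z = pd e j g z := fun j z hz => pd_congr_on hU hfg hz j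
  unfold lap
  refine Finset.sum_congr rfl fun i _ => Finset.sum_congr rfl fun j _ => ?_
  rw [pd_congr_on hU (h1 j) hy i]
  congr 2
  exact Finset.sum_congr rfl fun k _ => by rw [h1 k y hy]

private theorem grd_congr {E ι : Type*} [NormedAddCommGroup E] [NormedSpace ℝ E] [Fintype ι]
    [DecidableEq ι] {e : ι → E} {G : E → Matrix ι ι ℝ} {f g f' g' : E → ℝ} {U : Set E} {y : E}
    (hU : IsOpen U) (hfg : ∀ z ∈ U, f z = g z) (hfg' : ∀ z ∈ U, f' z = g' z) (hy : y ∈ U) :
    grd e G f f' y = grd e G g g' y := by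
  unfold grd
  refine Finset.sum_congr rfl fun i _ => Finset.sum_congr rfl fun j _ => ?_
  rw [pd_congr_on hU hfg hy i, pd_congr_on hU hfg' hy j]

private theorem setup (hA : BlockAtlas b M) {c₀ : OpenPartialHomeomorph M (Eu m)}
    (hc₀ : c₀ ∈ atlas (Eu m) M) (hc : c ∈ atlas (Eu m) M) (K : J) :
    GoodMat (ov c₀ c) (blk b K (h.co c₀)) ∧ Set.MapsTo (fun z => c (c₀.symm z)) (ov c₀ c) c.target ∧
    (∀ z ∈ ov c₀ c, ∀ i, fderiv ℝ (fun z => c (c₀.symm z)) z (bfr (bas m) b K i) =
      ∑ a, (Matrix.of fun (a i : {i // b i = K}) => jac c₀ c z a i) a i • bfr (bas m) b K a) ∧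
    (∀ z ∈ ov c₀ c, blk b K (h.co c₀) z =
      (Matrix.of fun (a i : {i // b i = K}) => jac c₀ c z a i).transpose *
        blk b K (h.co c) (c (c₀.symm z)) *
        (Matrix.of fun (a i : {i // b i = K}) => jac c₀ c z a i)) := by
  have hg := good_bco (b := b) (h := h) hc₀ K
  refine ⟨⟨ov_open, fun i j => (hg.smooth i j).mono Set.inter_subset_left,
    fun y hy => hg.pos y hy.1⟩, fun z hz => c.map_source hz.2, ?_, ?_⟩
  · intro z hz i
    have h1 := fderiv_trans hc₀ hc hz (i : Fin m)
    have h2 : bfr (bas m) b K i = bas m i := rfl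
    rw [h2, h1]
    exact sum_lab (fun k => jac c₀ c z k i • bas m k) K fun k hk => by
      rw [hA c₀ hc₀ c hc z hz.1 hz.2 k i (by rw [i.2]; exact hk), zero_smul]
  · intro z hz
    ext i j
    have h1 := congrFun (congrFun (h.compat c₀ hc₀ c hc z hz.1 hz.2) i) j
    have hz0 : ∀ (j : {i // b i = K}) (k : Fin m), b k ≠ K → jac c₀ c z k j = 0 := fun j k hk =>
      hA c₀ hc₀ c hc z hz.1 hz.2 k j (by rw [j.2]; exact hk)
    have h2 : blk b K (h.co c₀) z i j = h.co c₀ z i j := rfl
    rw [h2, h1, Matrix.mul_apply, Matrix.mul_apply]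
    rw [sum_lab _ K fun l hl => by rw [hz0 j l hl, mul_zero]]
    refine Finset.sum_congr rfl fun l _ => ?_
    rw [Matrix.mul_apply, Matrix.mul_apply]
    congr 1
    rw [sum_lab _ K fun k hk => by rw [Matrix.transpose_apply, hz0 i k hk, zero_mul]]
    rfl

theorem lapM_eq (hA : BlockAtlas b M) (hu : SmoothFun m u) (hc : c ∈ atlas (Eu m) M)
    (hx : x ∈ c.source) (K : J) :
    lapM b K h u x = lap (bfr (bas m) b K) (blk b K (h.co c)) (fun y => u (c.symm y)) (c x) := by
  have hc₀ : chartAt (Eu m) x ∈ atlas (Eu m) M := chart_mem_atlas _ x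
  obtain ⟨h1, h2, h3, h4⟩ := setup (h := h) hA hc₀ hc K
  have hxs : (chartAt (Eu m) x).symm (chartAt (Eu m) x x) = x :=
    (chartAt (Eu m) x).left_inv (mem_chart_source _ x)
  have hy : chartAt (Eu m) x x ∈ ov (chartAt (Eu m) x) c := by
    refine ⟨mem_chart_target _ x, ?_⟩
    rw [Set.mem_preimage, hxs]
    exact hx
  have h5 := lap_trans (e := bfr (bas m) b K) (e' := bfr (bas m) b K)
    (φ := fun z => c ((chartAt (Eu m) x).symm z))
    (P := fun z => Matrix.of fun (a i : {i // b i = K}) => jac (chartAt (Eu m) x) c z a i)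
    (u := fun y => u (c.symm y)) h1 (good_bco hc K) (trans_smooth hc₀ hc) h2 h3
    (fun a i => jac_smooth hc₀ hc a i) (fun z hz a i j => jac_sym hc₀ hc hz a i j) h4
    (smooth_chart hu hc) hy
  simp only [hxs] at h5
  rw [← h5]
  unfold lapM
  refine lap_congr ov_open ?_ hy
  intro z hz
  have : c.symm (c ((chartAt (Eu m) x).symm z)) = (chartAt (Eu m) x).symm z := c.left_inv hz.2
  simp only [this]
  rfl

theorem grdM_eq (hA : BlockAtlas b M) (hu : SmoothFun m u) (hw : SmoothFun m w)
    (hc : c ∈ atlas (Eu m) M) (hx : x ∈ c.source) (K : J) :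
    grdM b K h u w x = grd (bfr (bas m) b K) (blk b K (h.co c)) (fun y => u (c.symm y))
      (fun y => w (c.symm y)) (c x) := by
  have hc₀ : chartAt (Eu m) x ∈ atlas (Eu m) M := chart_mem_atlas _ x
  obtain ⟨h1, h2, h3, h4⟩ := setup (h := h) hA hc₀ hc K
  have hxs : (chartAt (Eu m) x).symm (chartAt (Eu m) x x) = x :=
    (chartAt (Eu m) x).left_inv (mem_chart_source _ x)
  have hy : chartAt (Eu m) x x ∈ ov (chartAt (Eu m) x) c := by
    refine ⟨mem_chart_target _ x, ?_⟩
    rw [Set.mem_preimage, hxs]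
    exact hx
  have h5 := grd_trans (e := bfr (bas m) b K) (e' := bfr (bas m) b K)
    (φ := fun z => c ((chartAt (Eu m) x).symm z))
    (P := fun z => Matrix.of fun (a i : {i // b i = K}) => jac (chartAt (Eu m) x) c z a i)
    (u := fun y => u (c.symm y)) (w := fun y => w (c.symm y)) h1 (good_bco hc K)
    (trans_smooth hc₀ hc) h2 h3 h4 (smooth_chart hu hc) (smooth_chart hw hc) hy
  simp only [hxs] at h5
  rw [← h5]
  unfold grdM
  have hs : ∀ z ∈ ov (chartAt (Eu m) x) c,
      c.symm (c ((chartAt (Eu m) x).symm z)) = (chartAt (Eu m) x).symm z :=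
    fun z hz => c.left_inv hz.2
  refine grd_congr ov_open ?_ ?_ hy
  · intro z hz
    simp only [hs z hz]
    rfl
  · intro z hz
    simp only [hs z hz]
    rfl

end Pool.Agent.Work.MP_2fa4be_gt.MB
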