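import Pool.Agent.Work.MP_2fa4be_gt.MB.Tools

/-!
# Module LnD (size M): the logarithm of the volume density

`lnv G = (1/2) log det G`, `rr e G a = (1/2) G⁻¹ ∂_a G`.
-/

namespace Pool.Agent.Work.MP_2fa4be_gt.MB

open Pool.Agent.Work.MP_2fa4be_gt
open scoped ContDiff

variable {E ι η : Type*} [NormedAddCommGroup E] [NormedSpace ℝ E] [Fintype ι] [DecidableEq ι]
  {U : Set E} {G : E → Matrix ι ι ℝ} {y : E}

private theorem lnd_det (A : Matrix ι ι ℝ) :
    A.det = ∑ σ : Equiv.Perm ι, ((Equiv.Perm.sign σ : ℤ) : ℝ) * ∏ i, A (σ i) i := by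
  rw [Matrix.det_apply]
  refine Finset.sum_congr rfl fun σ _ => ?_
  rw [Units.smul_def, zsmul_eq_mul]

theorem det_smooth' (h : GoodMat U G) : ContDiffOn ℝ ∞ (fun z => (G z).det) U := by
  have h1 : (fun z => (G z).det) =
      fun z => ∑ σ : Equiv.Perm ι, ((Equiv.Perm.sign σ : ℤ) : ℝ) * ∏ i, G z (σ i) i := by
    funext z
    exact lnd_det (G z)
  rw [h1]
  refine ContDiffOn.sum fun σ _ => ?_
  refine contDiffOn_const.mul ?_
  exact contDiffOn_prod fun i _ => h.smooth (σ i) i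

theorem lnv_smooth (h : GoodMat U G) : ContDiffOn ℝ ∞ (lnv G) U := by
  unfold lnv
  exact contDiffOn_const.mul ((det_smooth' h).log fun z hz => h.det_ne hz)

private theorem lnd_pd_prod {F : ι → E → ℝ} (hF : ∀ i, DifferentiableAt ℝ (F i) y) (e : η → E)
    (a : η) :
    pd e a (fun z => ∏ i, F i z) y =
      ∑ i, (∏ j ∈ Finset.univ.erase i, F j y) * pd e a (F i) y := by
  have h1 : HasFDerivAt (fun z => ∏ i, F i z)
      (∑ i, (∏ j ∈ Finset.univ.erase i, F j y) • fderiv ℝ (F i) y) y :=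
    HasFDerivAt.finset_prod (u := Finset.univ) fun i _ => (hF i).hasFDerivAt
  unfold pd
  rw [h1.fderiv, ContinuousLinearMap.sum_apply]
  rfl

private theorem lnd_updateCol (A : Matrix ι ι ℝ) (v : ι → ℝ) (i : ι) :
    ∑ σ : Equiv.Perm ι, ((Equiv.Perm.sign σ : ℤ) : ℝ) *
      ((∏ j ∈ Finset.univ.erase i, A (σ j) j) * v (σ i)) = ∑ j, A.adjugate i j * v j := by
  have h1 : (A.updateCol i v).det = ∑ j, A.adjugate i j * v j := by
    rw [← Matrix.cramer_apply, Matrix.cramer_eq_adjugate_mulVec]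
    rfl
  rw [← h1, lnd_det]
  refine Finset.sum_congr rfl fun σ _ => ?_
  congr 1
  rw [← Finset.mul_prod_erase Finset.univ _ (Finset.mem_univ i), Matrix.updateCol_self, mul_comm]
  congr 1
  refine Finset.prod_congr rfl fun j hj => ?_
  rw [Matrix.updateCol_ne (Finset.ne_of_mem_erase hj)]

private theorem lnd_pd_det (h : GoodMat U G) (hy : y ∈ U) (e : η → E) (a : η) :
    pd e a (fun z => (G z).det) y =
      ∑ i, ∑ j, (G y).adjugate i j * pd e a (fun z => G z j i) y := by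
  have hd : ∀ i j, DifferentiableAt ℝ (fun z => G z i j) y := fun i j =>
    diffAt h.isOpen (h.smooth i j) hy
  have h1 : (fun z => (G z).det) =
      fun z => ∑ σ : Equiv.Perm ι, ((Equiv.Perm.sign σ : ℤ) : ℝ) * ∏ i, G z (σ i) i := by
    funext z
    exact lnd_det (G z)
  have hdp : ∀ σ : Equiv.Perm ι, DifferentiableAt ℝ (fun z => ∏ i, G z (σ i) i) y := fun σ =>
    (HasFDerivAt.finset_prod (u := Finset.univ) (g := fun i z => G z (σ i) i)
      fun i _ => (hd (σ i) i).hasFDerivAt).differentiableAt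
  rw [h1, pd_sum (F := fun (σ : Equiv.Perm ι) z =>
    ((Equiv.Perm.sign σ : ℤ) : ℝ) * ∏ i, G z (σ i) i) (fun σ _ => (hdp σ).const_mul _)]
  have h2 : ∀ σ : Equiv.Perm ι, pd e a (fun z =>
      ((Equiv.Perm.sign σ : ℤ) : ℝ) * ∏ i, G z (σ i) i) y =
      ∑ i, ((Equiv.Perm.sign σ : ℤ) : ℝ) * ((∏ j ∈ Finset.univ.erase i, G y (σ j) j) *
        pd e a (fun z => G z (σ i) i) y) := by
    intro σ
    rw [pd_const_mul (hdp σ), lnd_pd_prod (F := fun i z => G z (σ i) i) (fun i => hd (σ i) i),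
      Finset.mul_sum]
  rw [Finset.sum_congr rfl fun σ _ => h2 σ, Finset.sum_comm]
  refine Finset.sum_congr rfl fun i _ => ?_
  exact lnd_updateCol (G y) (fun j => pd e a (fun z => G z j i) y) i

theorem pd_lnv (h : GoodMat U G) (hy : y ∈ U) (e : η → E) (a : η) :
    pd e a (lnv G) y = (rr e G a y).trace := by
  have hdet : DifferentiableAt ℝ (fun z => (G z).det) y := diffAt h.isOpen (det_smooth' h) hy
  have h0 := h.det_ne hy
  unfold lnv
  rw [pd_const_mul (hdet.log h0), pd_log hdet h0, lnd_pd_det h hy]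
  unfold rr
  rw [Matrix.trace_smul, smul_eq_mul]
  congr 1
  rw [Matrix.trace, Matrix.inv_def, Ring.inverse_eq_inv']
  rw [Finset.mul_sum]
  refine Finset.sum_congr rfl fun i _ => ?_
  rw [Matrix.diag_apply, Matrix.mul_apply, Finset.mul_sum]
  refine Finset.sum_congr rfl fun j _ => ?_
  rw [Matrix.smul_apply, smul_eq_mul, Matrix.of_apply, mul_assoc]

theorem chr_tr (h : GoodMat U G) (hy : y ∈ U) (e : ι → E) (k : ι) :
    ∑ i, chr e G i i k y = (rr e G k y).trace := by
  unfold chr rr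
  rw [Matrix.trace_smul, smul_eq_mul, ← Finset.mul_sum]
  congr 1
  have h1 : ∀ i l, (G y)⁻¹ i l * (pd e i (fun z => G z k l) y + pd e k (fun z => G z i l) y -
      pd e l (fun z => G z i k) y) = (G y)⁻¹ i l * pd e k (fun z => G z i l) y +
      ((G y)⁻¹ i l * pd e i (fun z => G z k l) y - (G y)⁻¹ i l * pd e l (fun z => G z i k) y) :=
    fun i l => by ring
  simp only [h1, Finset.sum_add_distrib, Finset.sum_sub_distrib]
  have h2 : ∑ i, ∑ l, (G y)⁻¹ i l * pd e l (fun z => G z i k) y =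
      ∑ i, ∑ l, (G y)⁻¹ i l * pd e i (fun z => G z k l) y := by
    rw [Finset.sum_comm]
    refine Finset.sum_congr rfl fun l _ => Finset.sum_congr rfl fun i _ => ?_
    rw [h.inv_symm hy i l, h.pd_symm hy l i k]
  rw [h2, sub_self, add_zero, Matrix.trace]
  refine Finset.sum_congr rfl fun i _ => ?_
  rw [Matrix.diag_apply, Matrix.mul_apply]
  refine Finset.sum_congr rfl fun l _ => ?_
  rw [Matrix.of_apply, h.pd_symm hy k i l]

end Pool.Agent.Work.MP_2fa4be_gt.MB
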