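import Pool.Agent.Work.MP_2fa4be_gt.MB.Multi

/-!
# Module Mcm (size M): the matrix of `∑_K exp(2 v_K) G_K`

`mcm b v G y` has the entries `exp(v_{b(i)} + v_{b(j)}) G_{ij}`, that is `D G D` with the diagonal
matrix `D = diag(exp(v_{b(i)}(y)))`.

* `mcm_good`: smooth entries; `D G D` is positive definite (`D` invertible; for instance
  `Matrix.PosDef` is preserved by congruence with an invertible matrix, or directly
  `x* D G D x = (Dx)* G (Dx)`).
* `blk_mcm`: entries with both labels equal to `K`: `exp(v_K + v_K) G_{ij} = exp(2 v_K) G_{ij}`.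
* `lnv_mcm`: `det(D G D) = (∏_i exp(v_{b(i)}))² det G`.
* `lnv_cm`: `det(exp(2f) G) = exp(2f)^q det G` (`Matrix.det_smul`).
-/

namespace Pool.Agent.Work.MP_2fa4be_gt.MB

open Pool.Agent.Work.MP_2fa4be_gt
open scoped ContDiff

variable {E ι J : Type*} [NormedAddCommGroup E] [NormedSpace ℝ E] [Fintype ι] [DecidableEq ι]
  [DecidableEq J] {U : Set E} {G : E → Matrix ι ι ℝ} {y : E} {b : ι → J} {v : J → E → ℝ}

omit [NormedAddCommGroup E] [NormedSpace ℝ E] [DecidableEq J] in
private theorem mcm_eq (y : E) :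
    mcm b v G y = Matrix.diagonal (fun i => Real.exp (v (b i) y)) * G y *
      Matrix.diagonal (fun i => Real.exp (v (b i) y)) := by
  ext i j
  rw [Matrix.mul_diagonal, Matrix.diagonal_mul]
  unfold mcm
  rw [Matrix.of_apply, Real.exp_add]
  ring

omit [DecidableEq J] in
theorem mcm_good (h : GoodMat U G) (hv : ∀ K, ContDiffOn ℝ ∞ (v K) U) :
    GoodMat U (mcm b v G) where
  isOpen := h.isOpen
  smooth := by
    intro i j
    exact (Real.contDiff_exp.comp_contDiffOn ((hv (b i)).add (hv (b j)))).mul (h.smooth i j)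
  pos := by
    intro y hy
    rw [mcm_eq]
    have hinj : Function.Injective
        (Matrix.diagonal (fun i => Real.exp (v (b i) y)) : Matrix ι ι ℝ).mulVec := by
      apply Matrix.mulVec_injective_of_det_ne_zero
      rw [Matrix.det_diagonal]
      exact Finset.prod_ne_zero_iff.2 fun i _ => (Real.exp_pos _).ne'
    have h1 := (h.pos y hy).conjTranspose_mul_mul_same hinj
    rw [Matrix.diagonal_conjTranspose] at h1
    simpa [Pi.star_def] using h1

omit [NormedAddCommGroup E] [NormedSpace ℝ E] [Fintype ι] [DecidableEq ι] [DecidableEq J] in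
theorem blk_mcm (K : J) : blk b K (mcm b v G) = cm (v K) (blk b K G) := by
  funext y
  ext i j
  unfold blk mcm cm
  simp only [Matrix.of_apply, Matrix.smul_apply, smul_eq_mul]
  rw [i.2, j.2, two_mul]

omit [NormedAddCommGroup E] [NormedSpace ℝ E] [Fintype ι] [DecidableEq ι] [DecidableEq J] in
theorem mcm_diag (hd : ∀ z ∈ U, ∀ i j, b i ≠ b j → G z i j = 0) :
    ∀ z ∈ U, ∀ i j, b i ≠ b j → mcm b v G z i j = 0 := by
  intro z hz i j hij
  unfold mcm
  rw [Matrix.of_apply, hd z hz i j hij, mul_zero]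

omit [DecidableEq J] in
theorem lnv_mcm (h : GoodMat U G) (hy : y ∈ U) :
    lnv (mcm b v G) y = ∑ i, v (b i) y + lnv G y := by
  unfold lnv
  rw [mcm_eq, Matrix.det_mul, Matrix.det_mul, Matrix.det_diagonal, ← Real.exp_sum]
  have hG : (G y).det ≠ 0 := h.det_ne hy
  have he : Real.exp (∑ i, v (b i) y) ≠ 0 := (Real.exp_pos _).ne'
  rw [Real.log_mul (mul_ne_zero he hG) he, Real.log_mul he hG, Real.log_exp]
  ring

theorem lnv_cm {f : E → ℝ} (h : GoodMat U G) (hy : y ∈ U) :
    lnv (cm f G) y = (Fintype.card ι : ℝ) * f y + lnv G y := by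
  unfold lnv cm
  have hG : (G y).det ≠ 0 := h.det_ne hy
  rw [Matrix.det_smul, ← Real.exp_nat_mul, Real.log_mul (Real.exp_pos _).ne' hG, Real.log_exp]
  ring

end Pool.Agent.Work.MP_2fa4be_gt.MB
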