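import Pool.Agent.Work.MP_2fa4be_gt.MB.Tools

/-!
# Module Part (size S-M): a finite smooth partition of unity with charts

`M` compact: finitely many sources of the preferred charts cover `M`
(`CompactSpace.elim_nhds_subcover` gives a `Finset M`). Take a smooth partition of unity subordinate
to this finite open cover (`SmoothPartitionOfUnity.exists_isSubordinate` with `s = Set.univ`, index
type the subtype of the finset), its sum is a finite sum (`finsum_eq_sum_of_fintype`), and reindex
by `Fin k` (`Fintype.equivFin`).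
-/

namespace Pool.Agent.Work.MP_2fa4be_gt.MB

open Pool.Agent.Work.MP_2fa4be_gt
open scoped Manifold ContDiff

variable {m : ℕ} {M : Type*} [TopologicalSpace M] [ChartedSpace (Eu m) M]

theorem exists_part (m : ℕ) (M : Type*) [TopologicalSpace M] [ChartedSpace (Eu m) M]
    [IsManifold (𝓡 m) ∞ M] [CompactSpace M] [T2Space M] :
    ∃ (k : ℕ) (c : Fin k → OpenPartialHomeomorph M (Eu m)) (χ : Fin k → M → ℝ),
      (∀ i, c i ∈ atlas (Eu m) M) ∧ (∀ i, SmoothFun m (χ i)) ∧ (∀ i x, 0 ≤ χ i x) ∧
      (∀ i, tsupport (χ i) ⊆ (c i).source) ∧ ∀ x, ∑ i, χ i x = 1 := by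
  obtain ⟨t, ht⟩ := CompactSpace.elim_nhds_subcover (fun x : M => (chartAt (Eu m) x).source)
    (fun x => chart_source_mem_nhds (Eu m) x)
  obtain ⟨f, hf⟩ := SmoothPartitionOfUnity.exists_isSubordinate (𝓡 m) (s := (Set.univ : Set M))
    isClosed_univ (fun i : t => (chartAt (Eu m) (i : M)).source) (fun i => (chartAt (Eu m) _).open_source)
    (by
      intro x _
      have hx : x ∈ ⋃ y ∈ t, (chartAt (Eu m) y).source := by
        rw [ht]
        exact Set.mem_univ x
      obtain ⟨i, hi, hxi⟩ := Set.mem_iUnion₂.mp hx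
      exact Set.mem_iUnion.mpr ⟨⟨i, hi⟩, hxi⟩)
  let e := Fintype.equivFin t
  refine ⟨Fintype.card t, fun i => chartAt (Eu m) ((e.symm i : t) : M), fun i => f (e.symm i),
    fun i => chart_mem_atlas (Eu m) _, fun i => (f (e.symm i)).contMDiff, fun i x => f.nonneg _ _,
    fun i => hf _, fun x => ?_⟩
  have h1 := f.sum_eq_one (Set.mem_univ x)
  rw [finsum_eq_sum_of_fintype] at h1
  rw [← h1]
  exact Equiv.sum_comp e.symm (fun i => f i x)

end Pool.Agent.Work.MP_2fa4be_gt.MB
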