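import Pool.Agent.Work.MP_2fa4be_gt.MB.Tools

/-!
# Module Rein (size S-M): renaming the indices

All statements are about the frame `fun i => e (σ i)` and the matrix `rein σ G`, for an equivalence
`σ : κ ≃ ι`. No smoothness is needed.

* `(rein σ G y)⁻¹ = (G y)⁻¹.submatrix σ σ` is `Matrix.inv_submatrix_equiv` (or a variant);
* `pd (fun i => e (σ i)) i F = pd e (σ i) F` holds by `rfl`;
* every sum over `κ` of `F (σ i)` is the sum over `ι` of `F` (`σ.sum_comp`);
* `chr_rein` first, as an equality of functions of `y`, then `ric_rein` (the derivatives of equal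
  functions agree), then the others; `Matrix.det_submatrix_equiv_self` for `lnv_rein`;
* `GoodMat.rein`: `Matrix.PosDef.submatrix` with `σ.injective`.
-/

namespace Pool.Agent.Work.MP_2fa4be_gt.MB

open Pool.Agent.Work.MP_2fa4be_gt
open scoped ContDiff

variable {E ι κ : Type*} [NormedAddCommGroup E] [NormedSpace ℝ E] [Fintype ι] [DecidableEq ι]
  [Fintype κ] [DecidableEq κ]

omit [NormedAddCommGroup E] [NormedSpace ℝ E] in
private theorem rein_inv (σ : κ ≃ ι) (G : E → Matrix ι ι ℝ) (y : E) :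
    (rein σ G y)⁻¹ = ((G y)⁻¹).submatrix σ σ := by
  unfold rein
  rw [Matrix.inv_submatrix_equiv]

theorem chr_rein (σ : κ ≃ ι) (e : ι → E) (G : E → Matrix ι ι ℝ) (k i j : κ) :
    chr (fun i => e (σ i)) (rein σ G) k i j = chr e G (σ k) (σ i) (σ j) := by
  funext y
  unfold chr
  rw [rein_inv]
  congr 1
  rw [← σ.sum_comp]
  rfl

theorem ric_rein (σ : κ ≃ ι) (e : ι → E) (G : E → Matrix ι ι ℝ) (j k : κ) :
    ric (fun i => e (σ i)) (rein σ G) j k = ric e G (σ j) (σ k) := by
  funext y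
  unfold ric
  have h1 : (∑ i : κ, (pd (fun i => e (σ i)) i (chr (fun i => e (σ i)) (rein σ G) i j k) y -
      pd (fun i => e (σ i)) j (chr (fun i => e (σ i)) (rein σ G) i i k) y)) =
      ∑ i : ι, (pd e i (chr e G i (σ j) (σ k)) y - pd e (σ j) (chr e G i i (σ k)) y) := by
    rw [← σ.sum_comp]
    refine Finset.sum_congr rfl fun i _ => ?_
    rw [chr_rein, chr_rein]
    rfl
  have h2 : (∑ i : κ, ∑ p : κ, (chr (fun i => e (σ i)) (rein σ G) i i p y *
      chr (fun i => e (σ i)) (rein σ G) p j k y - chr (fun i => e (σ i)) (rein σ G) i j p y *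
      chr (fun i => e (σ i)) (rein σ G) p i k y)) =
      ∑ i : ι, ∑ p : ι, (chr e G i i p y * chr e G p (σ j) (σ k) y -
        chr e G i (σ j) p y * chr e G p i (σ k) y) := by
    rw [← σ.sum_comp]
    refine Finset.sum_congr rfl fun i _ => ?_
    rw [← σ.sum_comp]
    refine Finset.sum_congr rfl fun p _ => ?_
    rw [chr_rein, chr_rein, chr_rein, chr_rein]
  rw [h1, h2]

theorem scal_rein (σ : κ ≃ ι) (e : ι → E) (G : E → Matrix ι ι ℝ) (y : E) :
    scal (fun i => e (σ i)) (rein σ G) y = scal e G y := by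
  unfold scal
  rw [rein_inv, ← σ.sum_comp]
  refine Finset.sum_congr rfl fun i _ => ?_
  rw [← σ.sum_comp]
  refine Finset.sum_congr rfl fun j _ => ?_
  rw [ric_rein]
  rfl

theorem lap_rein (σ : κ ≃ ι) (e : ι → E) (G : E → Matrix ι ι ℝ) (u : E → ℝ) (y : E) :
    lap (fun i => e (σ i)) (rein σ G) u y = lap e G u y := by
  unfold lap
  rw [rein_inv, ← σ.sum_comp]
  refine Finset.sum_congr rfl fun i _ => ?_
  rw [← σ.sum_comp]
  refine Finset.sum_congr rfl fun j _ => ?_
  rw [← σ.sum_comp]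
  simp only [chr_rein]
  rfl

theorem grd_rein (σ : κ ≃ ι) (e : ι → E) (G : E → Matrix ι ι ℝ) (u w : E → ℝ) (y : E) :
    grd (fun i => e (σ i)) (rein σ G) u w y = grd e G u w y := by
  unfold grd
  rw [rein_inv, ← σ.sum_comp]
  refine Finset.sum_congr rfl fun i _ => ?_
  rw [← σ.sum_comp]
  rfl

theorem lnv_rein (σ : κ ≃ ι) (G : E → Matrix ι ι ℝ) : lnv (rein σ G) = lnv G := by
  funext y
  unfold lnv rein
  rw [Matrix.det_submatrix_equiv_self]

theorem Phi_rein (σ : κ ≃ ι) (e : ι → E) (G : E → Matrix ι ι ℝ) (u : E → ℝ) (y : E) :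
    Phi (fun i => e (σ i)) (rein σ G) u y = Phi e G u y := by
  unfold Phi
  rw [scal_rein, lap_rein, grd_rein]

theorem good_rein (σ : κ ≃ ι) {U : Set E} {G : E → Matrix ι ι ℝ} (h : GoodMat U G) :
    GoodMat U (rein σ G) := by
  refine ⟨h.isOpen, fun i j => h.smooth (σ i) (σ j), fun y hy => ?_⟩
  exact (h.pos y hy).submatrix σ.injective

end Pool.Agent.Work.MP_2fa4be_gt.MB
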