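import Pool.Agent.Work.MP_2fa4be_gt.MB.Defs
import Pool.Agent.Work.MP_2fa4be_gt.Space
import Pool.Agent.Work.MP_2fa4be_gt.Cont
import Pool.Agent.Work.MP_2fa4be_gt.Metric

/-!
# Block formulas: working definitions (not used in the statement of the result)

Coordinates (`e` is any family of vectors of a normed space `E`, `G` a matrix valued function):

* `lnv G`       : `(1/2) log det G`, the logarithm of the volume density;
* `Phi e G u`   : `scal G - 2 Δ_G u - |∇u|²_G`;
* `rr e B a`    : the matrix `(1/2) B⁻¹ ∂_a B`;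
* `tau e A B`   : `∑_{a,b} A^{ab} tr(R_a R_b)`, `R_a = rr e B a`;
* `two A B`     : the block diagonal matrix with blocks `A` and `B`;
* `rein σ G`    : `G` with the indices renamed by `σ`;
* `ww b v u K`  : `u + ∑_{J ≠ K} q_J v_J`, where `q_J` is the number of indices with label `J`.

Manifold:

* `lapM b K h u x`, `grdM b K h u w x`: Laplace operator and gradient product along the leaves with
  label `K`, computed in the preferred chart at `x`;
* `DiagM b h`   : `h` is block diagonal in all charts;
* `dens h c`    : the volume density `√det` in the chart `c`;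
* `IsVol h μ`   : `μ` is the Riemannian measure of `h`;
* `ov c c'`     : the domain of the change of charts from `c` to `c'`.
-/

namespace Pool.Agent.Work.MP_2fa4be_gt.MB

open Pool.Agent.Work.MP_2fa4be_gt
open scoped Manifold ContDiff
open MeasureTheory

section Coordinates

variable {E ι κ J : Type*} [NormedAddCommGroup E] [NormedSpace ℝ E] [Fintype ι] [DecidableEq ι]
  [Fintype κ] [DecidableEq κ]

/-- the logarithm of the volume density -/
noncomputable def lnv (G : E → Matrix ι ι ℝ) (y : E) : ℝ := (1 / 2) * Real.log (G y).det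

/-- `scal G - 2 Δ u - |∇u|²` -/
noncomputable def Phi (e : ι → E) (G : E → Matrix ι ι ℝ) (u : E → ℝ) (y : E) : ℝ :=
  scal e G y - 2 * lap e G u y - grd e G u u y

/-- the matrix `(1/2) B⁻¹ ∂_a B`; the family `e` may be indexed by any type -/
noncomputable def rr {η : Type*} (e : η → E) (B : E → Matrix κ κ ℝ) (a : η) (y : E) :
    Matrix κ κ ℝ :=
  (1 / 2 : ℝ) • ((B y)⁻¹ * Matrix.of fun i j => pd e a (fun z => B z i j) y)

/-- `∑_{a,b} A^{ab} tr(R_a R_b)` -/
noncomputable def tau (e : ι → E) (A : E → Matrix ι ι ℝ) (B : E → Matrix κ κ ℝ) (y : E) : ℝ :=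
  ∑ a, ∑ b, (A y)⁻¹ a b * (rr e B a y * rr e B b y).trace

/-- the block diagonal matrix with blocks `A` and `B` -/
def two (A : E → Matrix ι ι ℝ) (B : E → Matrix κ κ ℝ) (z : E) : Matrix (ι ⊕ κ) (ι ⊕ κ) ℝ :=
  Matrix.fromBlocks (A z) 0 0 (B z)

/-- the matrix `G` with renamed indices -/
def rein (σ : κ ≃ ι) (G : E → Matrix ι ι ℝ) (z : E) : Matrix κ κ ℝ := (G z).submatrix σ σ

/-- `u + ∑_{J ≠ K} q_J v_J` -/
noncomputable def ww [Fintype J] [DecidableEq J] (b : ι → J) (v : J → E → ℝ) (u : E → ℝ) (K : J)
    (y : E) : ℝ :=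
  u y + ∑ L ∈ Finset.univ.erase K, (Fintype.card {i // b i = L} : ℝ) * v L y

end Coordinates

section Manifold

variable {m : ℕ} {J M : Type*} [TopologicalSpace M] [ChartedSpace (Eu m) M]

/-- the Laplace operator along the leaves with label `K` -/
noncomputable def lapM [DecidableEq J] (b : Fin m → J) (K : J) (h : RMetric m M) (u : M → ℝ)
    (x : M) : ℝ :=
  lap (bfr (bas m) b K) (blk b K (coeff h x)) (fun y => u (pt x y)) (chartAt (Eu m) x x)

/-- the gradient product along the leaves with label `K` -/
noncomputable def grdM [DecidableEq J] (b : Fin m → J) (K : J) (h : RMetric m M) (u w : M → ℝ)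
    (x : M) : ℝ :=
  grd (bfr (bas m) b K) (blk b K (coeff h x)) (fun y => u (pt x y)) (fun y => w (pt x y))
    (chartAt (Eu m) x x)

/-- the metric `h` is block diagonal in all charts -/
def DiagM (b : Fin m → J) (h : RMetric m M) : Prop :=
  ∀ c ∈ atlas (Eu m) M, ∀ y ∈ c.target, ∀ i j, b i ≠ b j → h.co c y i j = 0

/-- the determinant of each block depends only on the coordinates of the block -/
def VolM [DecidableEq J] (b : Fin m → J) (h : RMetric m M) : Prop :=
  ∀ c ∈ atlas (Eu m) M, ∀ y ∈ c.target, ∀ K i, b i ≠ K →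
    pd (bas m) i (fun z => (blk b K (h.co c) z).det) y = 0

/-- the volume density in the chart `c` -/
noncomputable def dens (h : RMetric m M) (c : OpenPartialHomeomorph M (Eu m)) (y : Eu m) : ℝ :=
  Real.sqrt (h.co c y).det

/-- `μ` is the Riemannian measure of `h` -/
def IsVol [MeasurableSpace M] (h : RMetric m M) (μ : Measure M) : Prop :=
  ∀ c ∈ atlas (Eu m) M, ∀ f : M → ℝ, Continuous f → tsupport f ⊆ c.source →
    ∫ x, f x ∂μ = ∫ y in c.target, f (c.symm y) * dens h c y

/-- the domain of the change of charts from `c` to `c'` -/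
def ov (c c' : OpenPartialHomeomorph M (Eu m)) : Set (Eu m) := c.target ∩ c.symm ⁻¹' c'.source

end Manifold

end Pool.Agent.Work.MP_2fa4be_gt.MB
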