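import Pool.Agent.Work.MP_2fa4be_gt.MB.LnD

/-!
# Module Trans (size M-L): change of coordinates for the Laplace operator and the gradients

`φ : E → E'` smooth on `U`, `D φ(z) (e i) = ∑_a P z a i • e' a` with smooth `P` on `U`, closed
(`∂_j P_{ai} = ∂_i P_{aj}`), and `G = Pᵀ (G' ∘ φ) P` on `U`.

* chain rule `pd_trans`: for `F` differentiable at `φ z`: `∂_i (F ∘ φ)(z) = ∑_a P_{ai} (∂_a F)(φ z)`.
* `det G ≠ 0` gives `det P ≠ 0`; put `R = P⁻¹`. Then `G⁻¹ = R (G'⁻¹ ∘ φ) Rᵀ`, i.e.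
  `∑_{ij} G^{ij} P_{ai} P_{bj} = G'^{ab}(φ)`. This gives `grd_trans` at once.
* `lap_trans`: second derivatives `∂_i ∂_j (u ∘ φ) = ∑_a (∂_i P_{aj}) ∂_a u + ∑_{a,b} P_{aj} P_{bi}
  ∂_b ∂_a u`. Christoffel symbols: it is enough to show, for all `a, i, j`,
    `∑_k P_{ak} Γ^k_{ij} = ∂_i P_{aj} + ∑_{b,c} P_{bi} P_{cj} Γ'^a_{bc}(φ)`          (*)
  because then `∑_k Γ^k_{ij} ∂_k (u ∘ φ) = ∑_a (∑_k P_{ak} Γ^k_{ij}) ∂_a u` and the terms
  `(∂_i P_{aj}) ∂_a u` cancel; the rest is `∑ G^{ij} P_{bi} P_{cj} (∂_b ∂_c u - Γ'^a_{bc} ∂_a u)`.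
  Proof of (*): `2 ∑_k P_{ak} Γ^k_{ij} = ∑_{k,l} P_{ak} G^{kl} (∂_i G_{jl} + ∂_j G_{il} - ∂_l G_{ij})`
  with `G_{jl} = ∑_{b,c} P_{bj} P_{cl} G'_{bc}(φ)`. Put `H_{dbc} = (∂_d G'_{bc})(φ)` and
  `S_{aij} = ∂_i P_{aj}` (symmetric in `i, j`). Then
  `∂_i G_{jl} = ∑ (S_{bij} P_{cl} + P_{bj} S_{cil}) G'_{bc} + ∑ P_{di} P_{bj} P_{cl} H_{dbc}`, and in
  `∂_i G_{jl} + ∂_j G_{il} - ∂_l G_{ij}` the `S` terms add up to `2 ∑ S_{bij} P_{cl} G'_{bc}`
  (symmetry of `S` and `G'`), the `H` terms to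
  `∑ P_{di} P_{bj} P_{cl} (H_{dbc} + H_{bdc} - H_{cdb})`. Multiply by `P_{ak} G^{kl}` and use
  `∑_{k,l} P_{ak} G^{kl} P_{cl} = G'^{ac}(φ)`.
-/

namespace Pool.Agent.Work.MP_2fa4be_gt.MB

open Pool.Agent.Work.MP_2fa4be_gt
open scoped ContDiff

variable {E E' ι : Type*} [NormedAddCommGroup E] [NormedSpace ℝ E] [NormedAddCommGroup E']
  [NormedSpace ℝ E'] [Fintype ι] [DecidableEq ι] {e : ι → E} {e' : ι → E'} {U : Set E}
  {U' : Set E'} {φ : E → E'} {P G : E → Matrix ι ι ℝ} {G' : E' → Matrix ι ι ℝ} {u w : E' → ℝ}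
  {y : E}

omit [DecidableEq ι] in
private theorem sum4 (F : ι → ι → ι → ι → ℝ) :
    ∑ i, ∑ j, ∑ b, ∑ c, F i j b c = ∑ b, ∑ c, ∑ i, ∑ j, F i j b c := by
  calc ∑ i, ∑ j, ∑ b, ∑ c, F i j b c = ∑ i, ∑ b, ∑ j, ∑ c, F i j b c :=
        Finset.sum_congr rfl fun i _ => Finset.sum_comm
    _ = ∑ b, ∑ i, ∑ j, ∑ c, F i j b c := Finset.sum_comm
    _ = ∑ b, ∑ i, ∑ c, ∑ j, F i j b c :=
        Finset.sum_congr rfl fun b _ => Finset.sum_congr rfl fun i _ => Finset.sum_comm
    _ = ∑ b, ∑ c, ∑ i, ∑ j, F i j b c := Finset.sum_congr rfl fun b _ => Finset.sum_comm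

omit [DecidableEq ι] in
/-- chain rule -/
private theorem pd_trans (hU : IsOpen U) (hφ : ContDiffOn ℝ ∞ φ U)
    (hP : ∀ z ∈ U, ∀ i, fderiv ℝ φ z (e i) = ∑ a, P z a i • e' a) {z : E} (hz : z ∈ U)
    {F : E' → ℝ} (hF : DifferentiableAt ℝ F (φ z)) (i : ι) :
    pd e i (fun x => F (φ x)) z = ∑ a, P z a i * pd e' a F (φ z) := by
  have h1 : DifferentiableAt ℝ φ z :=
    (hφ.contDiffAt (hU.mem_nhds hz)).differentiableAt (by simp)
  unfold pd
  have h2 : fderiv ℝ (fun x => F (φ x)) z = (fderiv ℝ F (φ z)).comp (fderiv ℝ φ z) :=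
    fderiv_comp z hF h1
  rw [h2, ContinuousLinearMap.comp_apply, hP z hz i, map_sum]
  refine Finset.sum_congr rfl fun a _ => ?_
  rw [map_smul, smul_eq_mul]

/-- `P g⁻¹ Pᵀ = g'⁻¹` -/
private theorem inv_trans {p g g' : Matrix ι ι ℝ} (hg : g.det ≠ 0)
    (h : g = p.transpose * g' * p) : p * g⁻¹ * p.transpose = g'⁻¹ := by
  have h1 : p.det ≠ 0 ∧ g'.det ≠ 0 := by
    rw [h, Matrix.det_mul, Matrix.det_mul] at hg
    exact ⟨right_ne_zero_of_mul hg, right_ne_zero_of_mul (left_ne_zero_of_mul hg)⟩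
  have hp : IsUnit p.det := IsUnit.mk0 _ h1.1
  have hpt : IsUnit p.transpose.det := by rw [Matrix.det_transpose]; exact hp
  symm
  apply Matrix.inv_eq_right_inv
  have h2 : g' = (p.transpose)⁻¹ * g * p⁻¹ := by
    rw [h, Matrix.mul_assoc, Matrix.mul_assoc (p.transpose * g') p p⁻¹,
      Matrix.mul_nonsing_inv _ hp, Matrix.mul_one, Matrix.nonsing_inv_mul_cancel_left _ _ hpt]
  have h3 : g' * (p * g⁻¹ * p.transpose) =
      (p.transpose)⁻¹ * (g * (p⁻¹ * p) * g⁻¹) * p.transpose := by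
    conv_lhs => rw [h2]
    simp only [Matrix.mul_assoc]
  rw [h3, Matrix.nonsing_inv_mul _ hp, Matrix.mul_one, Matrix.mul_nonsing_inv _ (IsUnit.mk0 _ hg),
    Matrix.mul_one, Matrix.nonsing_inv_mul _ hpt]

/-- the contraction with two vectors -/
private theorem contr {p g g' : Matrix ι ι ℝ} (h : p * g⁻¹ * p.transpose = g'⁻¹)
    (X : ι → ι → ℝ) :
    ∑ i, ∑ j, g⁻¹ i j * ∑ b, ∑ c, p b i * p c j * X b c = ∑ b, ∑ c, g'⁻¹ b c * X b c := by
  have h1 : ∀ b c, g'⁻¹ b c = ∑ i, ∑ j, g⁻¹ i j * (p b i * p c j) := by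
    intro b c
    rw [← h, Matrix.mul_apply, Finset.sum_comm]
    refine Finset.sum_congr rfl fun j _ => ?_
    rw [Matrix.mul_apply, Finset.sum_mul]
    refine Finset.sum_congr rfl fun i _ => ?_
    rw [Matrix.transpose_apply]
    ring
  calc ∑ i, ∑ j, g⁻¹ i j * ∑ b, ∑ c, p b i * p c j * X b c
      = ∑ i, ∑ j, ∑ b, ∑ c, g⁻¹ i j * (p b i * p c j) * X b c := by
        refine Finset.sum_congr rfl fun i _ => Finset.sum_congr rfl fun j _ => ?_
        rw [Finset.mul_sum]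
        refine Finset.sum_congr rfl fun b _ => ?_
        rw [Finset.mul_sum]
        refine Finset.sum_congr rfl fun c _ => ?_
        ring
    _ = ∑ b, ∑ c, ∑ i, ∑ j, g⁻¹ i j * (p b i * p c j) * X b c := sum4 _
    _ = ∑ b, ∑ c, g'⁻¹ b c * X b c := by
        refine Finset.sum_congr rfl fun b _ => Finset.sum_congr rfl fun c _ => ?_
        rw [h1, Finset.sum_mul]
        exact Finset.sum_congr rfl fun i _ => (Finset.sum_mul _ _ _).symm

/-- the contraction with one vector -/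
private theorem contr2 {p g g' : Matrix ι ι ℝ} (h : p * g⁻¹ * p.transpose = g'⁻¹)
    (X : ι → ℝ) (a : ι) :
    ∑ k, p a k * ((1 / 2) * ∑ l, g⁻¹ k l * ∑ c, p c l * X c) =
      (1 / 2) * ∑ c, g'⁻¹ a c * X c := by
  have h1 : ∀ c, g'⁻¹ a c = ∑ l, ∑ k, p a k * g⁻¹ k l * p c l := by
    intro c
    rw [← h, Matrix.mul_apply]
    refine Finset.sum_congr rfl fun l _ => ?_
    rw [Matrix.mul_apply, Finset.sum_mul]
    refine Finset.sum_congr rfl fun k _ => ?_
    rw [Matrix.transpose_apply]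
  calc ∑ k, p a k * ((1 / 2) * ∑ l, g⁻¹ k l * ∑ c, p c l * X c)
      = ∑ k, ∑ l, ∑ c, (1 / 2) * (p a k * g⁻¹ k l * p c l * X c) := by
        refine Finset.sum_congr rfl fun k _ => ?_
        rw [Finset.mul_sum, Finset.mul_sum]
        refine Finset.sum_congr rfl fun l _ => ?_
        rw [Finset.mul_sum, Finset.mul_sum, Finset.mul_sum]
        exact Finset.sum_congr rfl fun c _ => by ring
    _ = ∑ k, ∑ c, ∑ l, (1 / 2) * (p a k * g⁻¹ k l * p c l * X c) :=
        Finset.sum_congr rfl fun k _ => Finset.sum_comm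
    _ = ∑ c, ∑ k, ∑ l, (1 / 2) * (p a k * g⁻¹ k l * p c l * X c) := Finset.sum_comm
    _ = ∑ c, ∑ l, ∑ k, (1 / 2) * (p a k * g⁻¹ k l * p c l * X c) :=
        Finset.sum_congr rfl fun c _ => Finset.sum_comm
    _ = (1 / 2) * ∑ c, g'⁻¹ a c * X c := by
        rw [Finset.mul_sum]
        refine Finset.sum_congr rfl fun c _ => ?_
        rw [h1, Finset.sum_mul, Finset.mul_sum]
        refine Finset.sum_congr rfl fun l _ => ?_
        rw [Finset.sum_mul, Finset.mul_sum]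

theorem grd_trans (hG : GoodMat U G) (hG' : GoodMat U' G') (hφ : ContDiffOn ℝ ∞ φ U)
    (hm : Set.MapsTo φ U U') (hP : ∀ z ∈ U, ∀ i, fderiv ℝ φ z (e i) = ∑ a, P z a i • e' a)
    (hGG : ∀ z ∈ U, G z = (P z).transpose * G' (φ z) * P z)
    (hu : ContDiffOn ℝ ∞ u U') (hw : ContDiffOn ℝ ∞ w U') (hy : y ∈ U) :
    grd e G (fun z => u (φ z)) (fun z => w (φ z)) y = grd e' G' u w (φ y) := by
  have hi := inv_trans (hG.det_ne hy) (hGG y hy)
  have hdu : DifferentiableAt ℝ u (φ y) := diffAt hG'.isOpen hu (hm hy)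
  have hdw : DifferentiableAt ℝ w (φ y) := diffAt hG'.isOpen hw (hm hy)
  unfold grd
  rw [← contr hi (fun b c => pd e' b u (φ y) * pd e' c w (φ y))]
  refine Finset.sum_congr rfl fun i _ => Finset.sum_congr rfl fun j _ => ?_
  rw [pd_trans hG.isOpen hφ hP hy hdu i, pd_trans hG.isOpen hφ hP hy hdw j,
    Finset.sum_mul_sum]
  congr 1
  refine Finset.sum_congr rfl fun b _ => Finset.sum_congr rfl fun c _ => ?_
  ring

omit [DecidableEq ι] in
/-- the algebra behind the transformation of the Christoffel symbols -/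
private theorem alg (S H : ι → ι → ι → ℝ) (g p : Matrix ι ι ℝ) (D : ι → ι → ι → ℝ)
    (hS : ∀ b i j, S b i j = S b j i) (hg : ∀ i j, g i j = g j i)
    (hD : ∀ i j l, D i j l = ∑ b, ∑ c, (S b i j * g b c * p c l +
      p b j * (∑ d, p d i * H d b c) * p c l + p b j * g b c * S c i l)) (i j l : ι) :
    D i j l + D j i l - D l i j = ∑ c, p c l * ((∑ b, 2 * (S b i j * g b c)) +
      ∑ d, ∑ b, p d i * p b j * (H d b c + H b d c - H c d b)) := by
  have hA : ∀ i j l, ∑ b, ∑ c, p b j * g b c * S c i l =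
      ∑ b, ∑ c, S b i l * g b c * p c j := by
    intro i j l
    rw [Finset.sum_comm]
    refine Finset.sum_congr rfl fun b _ => Finset.sum_congr rfl fun c _ => ?_
    rw [hg c b]
    ring
  have hB : ∀ i j l, ∑ b, ∑ c, p b j * (∑ d, p d i * H d b c) * p c l =
      ∑ b, ∑ c, ∑ d, p b j * p c l * p d i * H d b c := by
    intro i j l
    refine Finset.sum_congr rfl fun b _ => Finset.sum_congr rfl fun c _ => ?_
    rw [Finset.mul_sum, Finset.sum_mul]
    exact Finset.sum_congr rfl fun d _ => by ring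
  have hD' : ∀ i j l, D i j l = (∑ b, ∑ c, S b i j * g b c * p c l) +
      (∑ b, ∑ c, ∑ d, p b j * p c l * p d i * H d b c) +
      ∑ b, ∑ c, S b i l * g b c * p c j := by
    intro i j l
    rw [hD]
    simp only [Finset.sum_add_distrib]
    rw [hA i j l, hB i j l]
  have hSs : ∀ i j l, ∑ b, ∑ c, S b i j * g b c * p c l =
      ∑ b, ∑ c, S b j i * g b c * p c l := by
    intro i j l
    refine Finset.sum_congr rfl fun b _ => Finset.sum_congr rfl fun c _ => ?_
    rw [hS b i j]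
  have h1 : D i j l + D j i l - D l i j = 2 * (∑ b, ∑ c, S b i j * g b c * p c l) +
      ((∑ b, ∑ c, ∑ d, p b j * p c l * p d i * H d b c) +
      (∑ b, ∑ c, ∑ d, p b i * p c l * p d j * H d b c) -
      ∑ b, ∑ c, ∑ d, p b i * p c j * p d l * H d b c) := by
    rw [hD' i j l, hD' j i l, hD' l i j, hSs j i l, hSs l i j, hSs l j i]
    ring
  rw [h1]
  have hr : ∀ c, p c l * ((∑ b, 2 * (S b i j * g b c)) +
      ∑ d, ∑ b, p d i * p b j * (H d b c + H b d c - H c d b)) =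
      2 * (∑ b, S b i j * g b c * p c l) +
        ((∑ d, ∑ b, p b j * p c l * p d i * H d b c) +
        (∑ d, ∑ b, p d i * p c l * p b j * H b d c) -
        ∑ d, ∑ b, p d i * p b j * p c l * H c d b) := by
    intro c
    rw [mul_add, ← Finset.sum_add_distrib, ← Finset.sum_sub_distrib]
    congr 1
    · rw [Finset.mul_sum, Finset.mul_sum]
      exact Finset.sum_congr rfl fun b _ => by ring
    · rw [Finset.mul_sum]
      refine Finset.sum_congr rfl fun d _ => ?_
      rw [← Finset.sum_add_distrib, ← Finset.sum_sub_distrib, Finset.mul_sum]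
      exact Finset.sum_congr rfl fun b _ => by ring
  rw [Finset.sum_congr rfl fun c _ => hr c]
  rw [Finset.sum_add_distrib, Finset.sum_sub_distrib, Finset.sum_add_distrib, ← Finset.mul_sum]
  congr 1
  · rw [Finset.sum_comm]
  · congr 1
    · congr 1
      · -- Σ_b Σ_c Σ_d  = Σ_c Σ_d Σ_b
        rw [Finset.sum_comm]
        exact Finset.sum_congr rfl fun c _ => Finset.sum_comm
      · -- Σ_b Σ_c Σ_d F b c d = Σ_c Σ_b Σ_d
        rw [Finset.sum_comm]
    · -- Σ_b Σ_c Σ_d p b i p c j p d l H d b c = Σ_c Σ_d Σ_b p d i p b j p c l H c d b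
      calc ∑ b, ∑ c, ∑ d, p b i * p c j * p d l * H d b c
          = ∑ b, ∑ d, ∑ c, p b i * p c j * p d l * H d b c :=
            Finset.sum_congr rfl fun b _ => Finset.sum_comm
        _ = ∑ d, ∑ b, ∑ c, p b i * p c j * p d l * H d b c := Finset.sum_comm

/-- the transformation of the Christoffel symbols -/
private theorem chr_trans (hG : GoodMat U G) (hG' : GoodMat U' G') (hφ : ContDiffOn ℝ ∞ φ U)
    (hm : Set.MapsTo φ U U') (hP : ∀ z ∈ U, ∀ i, fderiv ℝ φ z (e i) = ∑ a, P z a i • e' a)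
    (hPs : ∀ a i, ContDiffOn ℝ ∞ (fun z => P z a i) U)
    (hPc : ∀ z ∈ U, ∀ a i j, pd e j (fun z => P z a i) z = pd e i (fun z => P z a j) z)
    (hGG : ∀ z ∈ U, G z = (P z).transpose * G' (φ z) * P z) (hy : y ∈ U) (a i j : ι) :
    ∑ k, P y a k * chr e G k i j y = pd e i (fun z => P z a j) y +
      ∑ b, ∑ c, P y b i * P y c j * chr e' G' a b c (φ y) := by
  have hi := inv_trans (hG.det_ne hy) (hGG y hy)
  have hdP : ∀ a i, DifferentiableAt ℝ (fun z => P z a i) y := fun a i =>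
    diffAt hG.isOpen (hPs a i) hy
  have hdG' : ∀ a i, DifferentiableAt ℝ (fun z => G' z a i) (φ y) := fun a i =>
    diffAt hG'.isOpen (hG'.smooth a i) (hm hy)
  have hdφ : DifferentiableAt ℝ φ y :=
    (hφ.contDiffAt (hG.isOpen.mem_nhds hy)).differentiableAt (by simp)
  have hdGφ : ∀ a i, DifferentiableAt ℝ (fun z => G' (φ z) a i) y := fun a i =>
    (hdG' a i).comp y hdφ
  have hD : ∀ i j l, pd e i (fun z => G z j l) y = ∑ b, ∑ c,
      (pd e i (fun z => P z b j) y * G' (φ y) b c * P y c l +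
      P y b j * (∑ d, P y d i * pd e' d (fun z => G' z b c) (φ y)) * P y c l +
      P y b j * G' (φ y) b c * pd e i (fun z => P z c l) y) := by
    intro i j l
    have h1 : ∀ z ∈ U, G z j l = ∑ b, ∑ c, P z b j * G' (φ z) b c * P z c l := by
      intro z hz
      rw [hGG z hz, Matrix.mul_apply, Finset.sum_comm]
      refine Finset.sum_congr rfl fun c _ => ?_
      rw [Matrix.mul_apply, Finset.sum_mul]
      refine Finset.sum_congr rfl fun b _ => ?_
      rw [Matrix.transpose_apply]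
    rw [pd_congr_on hG.isOpen h1 hy i]
    rw [pd_sum (F := fun b z => ∑ c, P z b j * G' (φ z) b c * P z c l)
      (fun b _ => DifferentiableAt.fun_sum fun c _ => ((hdP b j).fun_mul (hdGφ b c)).fun_mul (hdP c l))]
    refine Finset.sum_congr rfl fun b _ => ?_
    rw [pd_sum (F := fun c z => P z b j * G' (φ z) b c * P z c l)
      (fun c _ => ((hdP b j).fun_mul (hdGφ b c)).fun_mul (hdP c l))]
    refine Finset.sum_congr rfl fun c _ => ?_
    rw [pd_mul (F := fun z => P z b j * G' (φ z) b c) ((hdP b j).fun_mul (hdGφ b c)) (hdP c l),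
      pd_mul (hdP b j) (hdGφ b c),
      pd_trans (F := fun z => G' z b c) hG.isOpen hφ hP hy (hdG' b c) i]
    ring
  have halg := alg (fun b i j => pd e i (fun z => P z b j) y)
    (fun d b c => pd e' d (fun z => G' z b c) (φ y)) (G' (φ y)) (P y)
    (fun i j l => pd e i (fun z => G z j l) y) (fun b i j => hPc y hy b j i)
    (fun i j => hG'.symm (hm hy) i j) hD i j
  -- left side
  have hl : ∑ k, P y a k * chr e G k i j y = (1 / 2) * ∑ c, (G' (φ y))⁻¹ a c *
      ((∑ b, 2 * (pd e i (fun z => P z b j) y * G' (φ y) b c)) +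
      ∑ d, ∑ b, P y d i * P y b j * (pd e' d (fun z => G' z b c) (φ y) +
        pd e' b (fun z => G' z d c) (φ y) - pd e' c (fun z => G' z d b) (φ y))) := by
    rw [← contr2 hi]
    refine Finset.sum_congr rfl fun k _ => ?_
    unfold chr
    congr 2
    exact Finset.sum_congr rfl fun l _ => by rw [← halg l]
  rw [hl]
  have h4 : ∀ c, (G' (φ y))⁻¹ a c *
      ((∑ b, 2 * (pd e i (fun z => P z b j) y * G' (φ y) b c)) +
      ∑ d, ∑ b, P y d i * P y b j * (pd e' d (fun z => G' z b c) (φ y) +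
        pd e' b (fun z => G' z d c) (φ y) - pd e' c (fun z => G' z d b) (φ y))) =
      (∑ b, 2 * (pd e i (fun z => P z b j) y * ((G' (φ y))⁻¹ a c * G' (φ y) c b))) +
      ∑ d, ∑ b, P y d i * P y b j * ((G' (φ y))⁻¹ a c * (pd e' d (fun z => G' z b c) (φ y) +
        pd e' b (fun z => G' z d c) (φ y) - pd e' c (fun z => G' z d b) (φ y))) := by
    intro c
    rw [mul_add, Finset.mul_sum, Finset.mul_sum]
    congr 1
    · refine Finset.sum_congr rfl fun b _ => ?_
      rw [hG'.symm (hm hy) c b]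
      ring
    · refine Finset.sum_congr rfl fun d _ => ?_
      rw [Finset.mul_sum]
      exact Finset.sum_congr rfl fun b _ => by ring
  rw [Finset.sum_congr rfl fun c _ => h4 c, Finset.sum_add_distrib, mul_add]
  congr 1
  · rw [Finset.sum_comm]
    have h5 : ∀ b, ∑ c, 2 * (pd e i (fun z => P z b j) y * ((G' (φ y))⁻¹ a c * G' (φ y) c b)) =
        2 * (pd e i (fun z => P z b j) y * (if a = b then 1 else 0)) := by
      intro b
      rw [← Finset.mul_sum, ← Finset.mul_sum, hG'.inv_mul (hm hy) a b]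
    rw [Finset.sum_congr rfl fun b _ => h5 b]
    simp
  · rw [Finset.sum_comm, Finset.mul_sum]
    refine Finset.sum_congr rfl fun d _ => ?_
    rw [Finset.sum_comm, Finset.mul_sum]
    refine Finset.sum_congr rfl fun b _ => ?_
    unfold chr
    rw [← Finset.mul_sum]
    ring

theorem lap_trans (hG : GoodMat U G) (hG' : GoodMat U' G') (hφ : ContDiffOn ℝ ∞ φ U)
    (hm : Set.MapsTo φ U U') (hP : ∀ z ∈ U, ∀ i, fderiv ℝ φ z (e i) = ∑ a, P z a i • e' a)
    (hPs : ∀ a i, ContDiffOn ℝ ∞ (fun z => P z a i) U)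
    (hPc : ∀ z ∈ U, ∀ a i j, pd e j (fun z => P z a i) z = pd e i (fun z => P z a j) z)
    (hGG : ∀ z ∈ U, G z = (P z).transpose * G' (φ z) * P z)
    (hu : ContDiffOn ℝ ∞ u U') (hy : y ∈ U) :
    lap e G (fun z => u (φ z)) y = lap e' G' u (φ y) := by
  have hi := inv_trans (hG.det_ne hy) (hGG y hy)
  have hdP : ∀ a i, DifferentiableAt ℝ (fun z => P z a i) y := fun a i =>
    diffAt hG.isOpen (hPs a i) hy
  have hdφ : DifferentiableAt ℝ φ y :=
    (hφ.contDiffAt (hG.isOpen.mem_nhds hy)).differentiableAt (by simp)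
  have hdu : ∀ z ∈ U, DifferentiableAt ℝ u (φ z) := fun z hz => diffAt hG'.isOpen hu (hm hz)
  have hdu2 : ∀ a, DifferentiableAt ℝ (pd e' a u) (φ y) := fun a =>
    diffAt hG'.isOpen (pd_smooth hG'.isOpen hu a) (hm hy)
  have hdu3 : ∀ a, DifferentiableAt ℝ (fun z => pd e' a u (φ z)) y := fun a =>
    (hdu2 a).comp y hdφ
  unfold lap
  rw [← contr hi (fun b c => pd e' b (pd e' c u) (φ y) -
    ∑ a, chr e' G' a b c (φ y) * pd e' a u (φ y))]
  refine Finset.sum_congr rfl fun i _ => Finset.sum_congr rfl fun j _ => ?_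
  congr 1
  have h1 : pd e i (pd e j (fun z => u (φ z))) y =
      (∑ b, ∑ c, P y b i * P y c j * pd e' b (pd e' c u) (φ y)) +
      ∑ a, pd e i (fun z => P z a j) y * pd e' a u (φ y) := by
    have h2 : ∀ z ∈ U, pd e j (fun z => u (φ z)) z = ∑ c, P z c j * pd e' c u (φ z) :=
      fun z hz => pd_trans hG.isOpen hφ hP hz (hdu z hz) j
    rw [pd_congr_on hG.isOpen h2 hy i]
    rw [pd_sum (F := fun c z => P z c j * pd e' c u (φ z))
      (fun c _ => (hdP c j).fun_mul (hdu3 c))]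
    rw [Finset.sum_comm, ← Finset.sum_add_distrib]
    refine Finset.sum_congr rfl fun c _ => ?_
    rw [pd_mul (hdP c j) (hdu3 c), pd_trans hG.isOpen hφ hP hy (hdu2 c) i, Finset.mul_sum]
    congr 1
    exact Finset.sum_congr rfl fun b _ => by ring
  have h3 : ∑ k, chr e G k i j y * pd e k (fun z => u (φ z)) y =
      (∑ a, pd e i (fun z => P z a j) y * pd e' a u (φ y)) +
      ∑ b, ∑ c, P y b i * P y c j * ∑ a, chr e' G' a b c (φ y) * pd e' a u (φ y) := by
    have h4 : ∀ k, chr e G k i j y * pd e k (fun z => u (φ z)) y =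
        ∑ a, P y a k * chr e G k i j y * pd e' a u (φ y) := by
      intro k
      rw [pd_trans hG.isOpen hφ hP hy (hdu y hy) k, Finset.mul_sum]
      exact Finset.sum_congr rfl fun a _ => by ring
    rw [Finset.sum_congr rfl fun k _ => h4 k, Finset.sum_comm]
    have h5 : ∀ a, ∑ k, P y a k * chr e G k i j y * pd e' a u (φ y) =
        pd e i (fun z => P z a j) y * pd e' a u (φ y) +
        ∑ b, ∑ c, P y b i * P y c j * (chr e' G' a b c (φ y) * pd e' a u (φ y)) := by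
      intro a
      rw [← Finset.sum_mul, chr_trans hG hG' hφ hm hP hPs hPc hGG hy a i j, add_mul,
        Finset.sum_mul]
      congr 1
      refine Finset.sum_congr rfl fun b _ => ?_
      rw [Finset.sum_mul]
      exact Finset.sum_congr rfl fun c _ => by ring
    rw [Finset.sum_congr rfl fun a _ => h5 a, Finset.sum_add_distrib]
    congr 1
    rw [Finset.sum_comm]
    refine Finset.sum_congr rfl fun b _ => ?_
    rw [Finset.sum_comm]
    refine Finset.sum_congr rfl fun c _ => ?_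
    rw [Finset.mul_sum]
  rw [h1, h3]
  have h6 : ∀ b c, P y b i * P y c j * (pd e' b (pd e' c u) (φ y) -
      ∑ a, chr e' G' a b c (φ y) * pd e' a u (φ y)) =
      P y b i * P y c j * pd e' b (pd e' c u) (φ y) -
      P y b i * P y c j * ∑ a, chr e' G' a b c (φ y) * pd e' a u (φ y) := fun b c => by ring
  simp only [h6, Finset.sum_sub_distrib]
  ring

end Pool.Agent.Work.MP_2fa4be_gt.MB
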