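import Pool.Agent.Work.MP_2fa4be_gt.MB.TwoChr
import Pool.Agent.Work.MP_2fa4be_gt.MB.LnD

/-!
# Module TwoLap (size M): Laplace operator and gradients for `A ⊕ B`

`e₁ i = e (inl i)`, `e₂ α = e (inr α)`.
* `grd_two`: unfold `grd`, `two_inv`, `Fintype.sum_sum_type`.
* `lap_two`: unfold `lap`, `two_inv`, `Fintype.sum_sum_type`; the terms with `i, j` both in the
  first block are `A^{ij} (∂_i ∂_j u - Γ^k_{ij} ∂_k u - Γ^γ_{ij} ∂_γ u)` (`chr_111`, `chr_211`), and
  `-A^{ij} Γ^γ_{ij} ∂_γ u = (1/2) A^{ij} (up e₂ B (A_{ij}) γ) ∂_γ u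
     = B^{γδ} ((1/2) A^{ij} ∂_δ A_{ij}) ∂_γ u = B^{γδ} (∂_δ lnv A) ∂_γ u = grd e₂ B (lnv A) u`
  (`pd_lnv`, symmetry of `∂_δ A`, `GoodMat.inv_symm`). The same for the second block
  (`chr_222`, `chr_122`); the mixed terms have zero coefficient.
-/

namespace Pool.Agent.Work.MP_2fa4be_gt.MB

open Pool.Agent.Work.MP_2fa4be_gt
open scoped ContDiff

variable {E ι κ : Type*} [NormedAddCommGroup E] [NormedSpace ℝ E] [Fintype ι] [DecidableEq ι]
  [Fintype κ] [DecidableEq κ] {U : Set E} {A : E → Matrix ι ι ℝ} {B : E → Matrix κ κ ℝ} {y : E}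
  {u w : E → ℝ}

private theorem comm4 (F : ι → ι → κ → κ → ℝ) :
    ∑ i, ∑ j, ∑ a, ∑ b, F i j a b = ∑ a, ∑ b, ∑ i, ∑ j, F i j a b := by
  calc ∑ i, ∑ j, ∑ a, ∑ b, F i j a b
      = ∑ i, ∑ a, ∑ j, ∑ b, F i j a b :=
        Finset.sum_congr rfl fun i _ => Finset.sum_comm
    _ = ∑ a, ∑ i, ∑ j, ∑ b, F i j a b := Finset.sum_comm
    _ = ∑ a, ∑ i, ∑ b, ∑ j, F i j a b :=
        Finset.sum_congr rfl fun a _ => Finset.sum_congr rfl fun i _ => Finset.sum_comm
    _ = ∑ a, ∑ b, ∑ i, ∑ j, F i j a b :=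
        Finset.sum_congr rfl fun a _ => Finset.sum_comm

private theorem pd_lnv_sum (hA : GoodMat U A) (hy : y ∈ U) (f : κ → E) (a : κ) :
    pd f a (lnv A) y = (1 / 2) * ∑ i, ∑ j, (A y)⁻¹ i j * pd f a (fun z => A z i j) y := by
  rw [pd_lnv hA hy]
  unfold rr
  rw [Matrix.trace_smul, smul_eq_mul]
  congr 1
  unfold Matrix.trace
  refine Finset.sum_congr rfl fun i _ => ?_
  rw [Matrix.diag_apply, Matrix.mul_apply]
  refine Finset.sum_congr rfl fun j _ => ?_
  rw [Matrix.of_apply, pd_congr_on hA.isOpen (fun _ hz => hA.symm hz j i) hy a]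

private theorem mix (hA : GoodMat U A) (hB : GoodMat U B) (hy : y ∈ U) (f : κ → E) :
    ∑ i, ∑ j, (A y)⁻¹ i j *
      ∑ a, (-(1 / 2) * up f B (fun z => A z i j) a y) * pd f a u y =
      -grd f B (lnv A) u y := by
  have h1 : ∀ i j, (A y)⁻¹ i j *
      ∑ a, (-(1 / 2) * up f B (fun z => A z i j) a y) * pd f a u y =
      ∑ a, ∑ b, -((B y)⁻¹ a b * ((1 / 2) * ((A y)⁻¹ i j * pd f b (fun z => A z i j) y) *
        pd f a u y)) := by
    intro i j
    rw [Finset.mul_sum]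
    refine Finset.sum_congr rfl fun a _ => ?_
    unfold up
    rw [Finset.mul_sum, Finset.sum_mul, Finset.mul_sum]
    refine Finset.sum_congr rfl fun b _ => ?_
    ring
  rw [Finset.sum_congr rfl fun i _ => Finset.sum_congr rfl fun j _ => h1 i j, comm4]
  unfold grd
  rw [Finset.sum_comm, ← Finset.sum_neg_distrib]
  refine Finset.sum_congr rfl fun b _ => ?_
  rw [← Finset.sum_neg_distrib]
  refine Finset.sum_congr rfl fun a _ => ?_
  rw [pd_lnv_sum hA hy, hB.inv_symm hy b a]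
  simp only [Finset.sum_neg_distrib, ← Finset.mul_sum, ← Finset.sum_mul]

theorem grd_two (hA : GoodMat U A) (hB : GoodMat U B) (hy : y ∈ U) (e : ι ⊕ κ → E) :
    grd e (two A B) u w y = grd (fun i => e (Sum.inl i)) A u w y +
      grd (fun α => e (Sum.inr α)) B u w y := by
  unfold grd
  rw [two_inv hA hB hy]
  simp only [Fintype.sum_sum_type, Matrix.fromBlocks_apply₁₁, Matrix.fromBlocks_apply₁₂,
    Matrix.fromBlocks_apply₂₁, Matrix.fromBlocks_apply₂₂, Matrix.zero_apply, zero_mul,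
    Finset.sum_const_zero, add_zero, zero_add]
  rfl

theorem lap_two (hA : GoodMat U A) (hB : GoodMat U B) (hy : y ∈ U) (e : ι ⊕ κ → E) :
    lap e (two A B) u y =
      (lap (fun i => e (Sum.inl i)) A u y + grd (fun i => e (Sum.inl i)) A (lnv B) u y) +
      (lap (fun α => e (Sum.inr α)) B u y + grd (fun α => e (Sum.inr α)) B (lnv A) u y) := by
  have e1 := mix (u := u) hA hB hy (fun α => e (Sum.inr α))
  have e2 := mix (u := u) hB hA hy (fun i => e (Sum.inl i))
  have h1 : lap e (two A B) u y =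
      (∑ i, ∑ j, (A y)⁻¹ i j * (pd (fun i => e (Sum.inl i)) i (pd (fun i => e (Sum.inl i)) j u) y -
        (∑ k, chr (fun i => e (Sum.inl i)) A k i j y * pd (fun i => e (Sum.inl i)) k u y +
         ∑ a, (-(1 / 2) * up (fun α => e (Sum.inr α)) B (fun z => A z i j) a y) *
          pd (fun α => e (Sum.inr α)) a u y))) +
      (∑ i, ∑ j, (B y)⁻¹ i j * (pd (fun α => e (Sum.inr α)) i (pd (fun α => e (Sum.inr α)) j u) y -
        (∑ a, (-(1 / 2) * up (fun i => e (Sum.inl i)) A (fun z => B z i j) a y) *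
          pd (fun i => e (Sum.inl i)) a u y +
        ∑ k, chr (fun α => e (Sum.inr α)) B k i j y * pd (fun α => e (Sum.inr α)) k u y))) := by
    unfold lap
    rw [two_inv hA hB hy]
    simp only [Fintype.sum_sum_type, Matrix.fromBlocks_apply₁₁, Matrix.fromBlocks_apply₁₂,
      Matrix.fromBlocks_apply₂₁, Matrix.fromBlocks_apply₂₂, Matrix.zero_apply, zero_mul,
      Finset.sum_const_zero, add_zero, zero_add, chr_111 hA hB hy, chr_211 hA hB hy,
      chr_122 hA hB hy, chr_222 hA hB hy]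
    rfl
  rw [h1]
  unfold lap
  simp only [mul_sub, mul_add, Finset.sum_sub_distrib, Finset.sum_add_distrib]
  linarith [e1, e2]

end Pool.Agent.Work.MP_2fa4be_gt.MB
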