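import Pool.Agent.Work.MP_2fa4be_gt.MB.TwoHalf
import Pool.Agent.Work.MP_2fa4be_gt.MB.TwoLap
import Pool.Agent.Work.MP_2fa4be_gt.MB.Rein

/-!
# Module TwoBlock (size M): the block formula

`Φ(G, u) = scal G - 2 Δ u - |∇u|²`. For `G = A ⊕ B`:

  `Φ(G, u) = Φ(A, u + lnv B) + Φ(B, u + lnv A) - tau(A; B) - tau(B; A)`.

Proof. `scal G = A^{jk} Ric_{jk} + B^{αβ} Ric_{αβ}` (`two_inv`, `Fintype.sum_sum_type`). The first
sum is `ric_half`. The second one is `ric_half` for `two B A` and the frame `e ∘ Sum.swap`: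
`two B A = rein (Equiv.sumComm κ ι) (two A B)`, so `ric_rein` gives
`ric e (two A B) (inr α) (inr β) = ric (e ∘ swap) (two B A) (inl α) (inl β)`. Hence
`scal G = scal A + scal B - 2 lap₁ (lnv B) - 2 lap₂ (lnv A) - grd₁ (lnv B)(lnv B)
  - grd₂ (lnv A)(lnv A) - tau - tau`. Now `lap_two`, `grd_two`, additivity
(`lap_lin`, `grd_lin_left`, `grd_lin_right` in Space.lean with coefficients `1`, `grd_comm`).
-/

namespace Pool.Agent.Work.MP_2fa4be_gt.MB

open Pool.Agent.Work.MP_2fa4be_gt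
open scoped ContDiff

variable {E ι κ : Type*} [NormedAddCommGroup E] [NormedSpace ℝ E] [Fintype ι] [DecidableEq ι]
  [Fintype κ] [DecidableEq κ] {U : Set E} {A : E → Matrix ι ι ℝ} {B : E → Matrix κ κ ℝ} {y : E}
  {u : E → ℝ}

private theorem scal_two (hA : GoodMat U A) (hB : GoodMat U B) (hy : y ∈ U) (e : ι ⊕ κ → E) :
    scal e (two A B) y =
      (∑ j, ∑ k, (A y)⁻¹ j k * ric e (two A B) (Sum.inl j) (Sum.inl k) y) +
      ∑ j, ∑ k, (B y)⁻¹ j k * ric e (two A B) (Sum.inr j) (Sum.inr k) y := by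
  unfold scal
  rw [two_inv hA hB hy]
  simp only [Fintype.sum_sum_type, Matrix.fromBlocks_apply₁₁, Matrix.fromBlocks_apply₁₂,
    Matrix.fromBlocks_apply₂₁, Matrix.fromBlocks_apply₂₂, Matrix.zero_apply, zero_mul,
    Finset.sum_const_zero, add_zero, zero_add]

omit [NormedAddCommGroup E] [NormedSpace ℝ E] [Fintype ι] [DecidableEq ι] [Fintype κ]
  [DecidableEq κ] in
private theorem rein_two (A : E → Matrix ι ι ℝ) (B : E → Matrix κ κ ℝ) :
    rein (Equiv.sumComm κ ι) (two A B) = two B A := by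
  funext z
  ext i j
  rcases i with i | i <;> rcases j with j | j <;> rfl

private theorem ric_half' (hA : GoodMat U A) (hB : GoodMat U B) (hy : y ∈ U) (e : ι ⊕ κ → E) :
    ∑ j, ∑ k, (B y)⁻¹ j k * ric e (two A B) (Sum.inr j) (Sum.inr k) y =
      scal (fun i => e (Sum.inr i)) B y - lap (fun i => e (Sum.inr i)) B (lnv A) y -
        tau (fun i => e (Sum.inr i)) B A y - lap (fun α => e (Sum.inl α)) A (lnv B) y -
        grd (fun α => e (Sum.inl α)) A (lnv B) (lnv B) y := by
  have h1 := ric_half hB hA hy (fun i => e (Equiv.sumComm κ ι i))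
  have h2 : ∀ j k : κ, ric (fun i => e (Equiv.sumComm κ ι i)) (two B A) (Sum.inl j) (Sum.inl k) =
      ric e (two A B) (Sum.inr j) (Sum.inr k) := by
    intro j k
    rw [← rein_two A B, ric_rein]
    rfl
  simp only [h2] at h1
  exact h1

theorem Phi_two (hA : GoodMat U A) (hB : GoodMat U B) (hu : ContDiffOn ℝ ∞ u U) (hy : y ∈ U)
    (e : ι ⊕ κ → E) :
    Phi e (two A B) u y = Phi (fun i => e (Sum.inl i)) A (fun z => u z + lnv B z) y +
      Phi (fun α => e (Sum.inr α)) B (fun z => u z + lnv A z) y -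
      tau (fun i => e (Sum.inl i)) A B y - tau (fun α => e (Sum.inr α)) B A y := by
  have hU := hA.isOpen
  have hlA := lnv_smooth hA
  have hlB := lnv_smooth hB
  have hud := diffAt hU hu hy
  have hAd := diffAt hU hlA hy
  have hBd := diffAt hU hlB hy
  have e1 : (fun z => u z + lnv B z) = fun z => 1 * u z + 1 * lnv B z := by
    funext z
    ring
  have e2 : (fun z => u z + lnv A z) = fun z => 1 * u z + 1 * lnv A z := by
    funext z
    ring
  unfold Phi
  rw [scal_two hA hB hy, ric_half hA hB hy, ric_half' hA hB hy, lap_two hA hB hy,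
    grd_two hA hB hy, e1, e2, lap_lin hU hu hlB hy, lap_lin hU hu hlA hy,
    grd_lin_left hud hBd, grd_lin_left hud hAd, grd_lin_right hud hBd, grd_lin_right hud hBd,
    grd_lin_right hud hAd, grd_lin_right hud hAd, grd_comm (f := u) (u := lnv B) hA hy,
    grd_comm (f := u) (u := lnv A) hB hy]
  ring

end Pool.Agent.Work.MP_2fa4be_gt.MB
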