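import Pool.Agent.Work.MP_2fa4be_gt.MB.TwoGood

/-!
# Module TwoChr (size M): Christoffel symbols of a block diagonal matrix with two blocks

`e : ι ⊕ κ → E` arbitrary, `e₁ i = e (inl i)`, `e₂ α = e (inr α)`, `G = two A B`. Model: the file
`BandChr.lean` (there the second block has size one). Unfold `chr`, rewrite with `two_inv`, use
`Fintype.sum_sum_type`, the off diagonal entries of `G` and of its inverse vanish, so do their
derivatives (`pd_const`). For instance

  `Γ^k_{iβ} = (1/2) ∑_l A^{kl} (∂_i G_{βl} + ∂_β G_{il} - ∂_l G_{iβ}) = (1/2) ∑_l A^{kl} ∂_β A_{il}`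

and this is the entry `(k, i)` of `rr e₂ A β y` by the symmetry of `∂_β A` (`GoodMat.pd_symm`), and

  `Γ^γ_{ij} = -(1/2) ∑_δ B^{γδ} ∂_δ A_{ij} = -(1/2) up e₂ B (A_{ij}) γ`.
-/

namespace Pool.Agent.Work.MP_2fa4be_gt.MB

open Pool.Agent.Work.MP_2fa4be_gt
open scoped ContDiff

variable {E ι κ : Type*} [NormedAddCommGroup E] [NormedSpace ℝ E] [Fintype ι] [DecidableEq ι]
  [Fintype κ] [DecidableEq κ] {U : Set E} {A : E → Matrix ι ι ℝ} {B : E → Matrix κ κ ℝ} {y : E}

section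
omit [Fintype ι] [DecidableEq ι] [Fintype κ] [DecidableEq κ]

private theorem tc_p11 (e : ι ⊕ κ → E) (a : ι ⊕ κ) (i j : ι) :
    pd e a (fun z => two A B z (Sum.inl i) (Sum.inl j)) y = pd e a (fun z => A z i j) y := rfl

private theorem tc_p22 (e : ι ⊕ κ → E) (a : ι ⊕ κ) (i j : κ) :
    pd e a (fun z => two A B z (Sum.inr i) (Sum.inr j)) y = pd e a (fun z => B z i j) y := rfl

private theorem tc_p12 (e : ι ⊕ κ → E) (a : ι ⊕ κ) (i : ι) (j : κ) :
    pd e a (fun z => two A B z (Sum.inl i) (Sum.inr j)) y = 0 := pd_const 0 a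

private theorem tc_p21 (e : ι ⊕ κ → E) (a : ι ⊕ κ) (i : κ) (j : ι) :
    pd e a (fun z => two A B z (Sum.inr i) (Sum.inl j)) y = 0 := pd_const 0 a

end

private theorem tc_rr1 (hA : GoodMat U A) (hy : y ∈ U) (e : ι ⊕ κ → E) (k i : ι) (β : κ) :
    rr (fun α => e (Sum.inr α)) A β y k i =
      (1 / 2) * ∑ l, (A y)⁻¹ k l * pd e (Sum.inr β) (fun z => A z i l) y := by
  unfold rr
  rw [Matrix.smul_apply, smul_eq_mul, Matrix.mul_apply]
  congr 1
  refine Finset.sum_congr rfl fun l _ => ?_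
  rw [Matrix.of_apply]
  exact congrArg _ (pd_congr_on (e := fun α => e (Sum.inr α)) hA.isOpen
    (fun z hz => hA.symm hz l i) hy β)

private theorem tc_rr2 (hB : GoodMat U B) (hy : y ∈ U) (e : ι ⊕ κ → E) (k i : κ) (β : ι) :
    rr (fun α => e (Sum.inl α)) B β y k i =
      (1 / 2) * ∑ l, (B y)⁻¹ k l * pd e (Sum.inl β) (fun z => B z i l) y := by
  unfold rr
  rw [Matrix.smul_apply, smul_eq_mul, Matrix.mul_apply]
  congr 1
  refine Finset.sum_congr rfl fun l _ => ?_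
  rw [Matrix.of_apply]
  exact congrArg _ (pd_congr_on (e := fun α => e (Sum.inl α)) hB.isOpen
    (fun z hz => hB.symm hz l i) hy β)

theorem chr_111 (hA : GoodMat U A) (hB : GoodMat U B) (hy : y ∈ U) (e : ι ⊕ κ → E) (k i j : ι) :
    chr e (two A B) (Sum.inl k) (Sum.inl i) (Sum.inl j) y =
      chr (fun i => e (Sum.inl i)) A k i j y := by
  unfold chr
  rw [two_inv hA hB hy]
  simp only [Fintype.sum_sum_type, Matrix.fromBlocks_apply₁₁,
    Matrix.fromBlocks_apply₁₂, Matrix.fromBlocks_apply₂₁, Matrix.fromBlocks_apply₂₂,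
    Matrix.zero_apply, zero_mul, Finset.sum_const_zero, add_zero, zero_add,
    tc_p11, tc_p12, tc_p21, tc_p22, sub_zero, zero_sub]
  rfl

theorem chr_112 (hA : GoodMat U A) (hB : GoodMat U B) (hy : y ∈ U) (e : ι ⊕ κ → E) (k i : ι)
    (β : κ) : chr e (two A B) (Sum.inl k) (Sum.inl i) (Sum.inr β) y =
      rr (fun α => e (Sum.inr α)) A β y k i := by
  rw [tc_rr1 hA hy]
  unfold chr
  rw [two_inv hA hB hy]
  simp only [Fintype.sum_sum_type, Matrix.fromBlocks_apply₁₁,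
    Matrix.fromBlocks_apply₁₂, Matrix.fromBlocks_apply₂₁, Matrix.fromBlocks_apply₂₂,
    Matrix.zero_apply, zero_mul, Finset.sum_const_zero, add_zero, zero_add,
    tc_p11, tc_p12, tc_p21, tc_p22, sub_zero, zero_sub]

theorem chr_121 (hA : GoodMat U A) (hB : GoodMat U B) (hy : y ∈ U) (e : ι ⊕ κ → E) (k i : ι)
    (β : κ) : chr e (two A B) (Sum.inl k) (Sum.inr β) (Sum.inl i) y =
      rr (fun α => e (Sum.inr α)) A β y k i := by
  rw [tc_rr1 hA hy]
  unfold chr
  rw [two_inv hA hB hy]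
  simp only [Fintype.sum_sum_type, Matrix.fromBlocks_apply₁₁,
    Matrix.fromBlocks_apply₁₂, Matrix.fromBlocks_apply₂₁, Matrix.fromBlocks_apply₂₂,
    Matrix.zero_apply, zero_mul, Finset.sum_const_zero, add_zero, zero_add,
    tc_p11, tc_p12, tc_p21, tc_p22, sub_zero, zero_sub]

theorem chr_211 (hA : GoodMat U A) (hB : GoodMat U B) (hy : y ∈ U) (e : ι ⊕ κ → E) (i j : ι)
    (γ : κ) : chr e (two A B) (Sum.inr γ) (Sum.inl i) (Sum.inl j) y =
      -(1 / 2) * up (fun α => e (Sum.inr α)) B (fun z => A z i j) γ y := by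
  unfold chr
  rw [two_inv hA hB hy]
  simp only [Fintype.sum_sum_type, Matrix.fromBlocks_apply₁₁,
    Matrix.fromBlocks_apply₁₂, Matrix.fromBlocks_apply₂₁, Matrix.fromBlocks_apply₂₂,
    Matrix.zero_apply, zero_mul, Finset.sum_const_zero, add_zero, zero_add,
    tc_p11, tc_p12, tc_p21, tc_p22, sub_zero, zero_sub]
  rw [show -(1 / 2 : ℝ) * up (fun α => e (Sum.inr α)) B (fun z => A z i j) γ y =
    (1 / 2) * -up (fun α => e (Sum.inr α)) B (fun z => A z i j) γ y by ring]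
  congr 1
  unfold up
  rw [← Finset.sum_neg_distrib]
  refine Finset.sum_congr rfl fun l _ => ?_
  rw [mul_neg]
  rfl

theorem chr_222 (hA : GoodMat U A) (hB : GoodMat U B) (hy : y ∈ U) (e : ι ⊕ κ → E) (γ α β : κ) :
    chr e (two A B) (Sum.inr γ) (Sum.inr α) (Sum.inr β) y =
      chr (fun α => e (Sum.inr α)) B γ α β y := by
  unfold chr
  rw [two_inv hA hB hy]
  simp only [Fintype.sum_sum_type, Matrix.fromBlocks_apply₁₁,
    Matrix.fromBlocks_apply₁₂, Matrix.fromBlocks_apply₂₁, Matrix.fromBlocks_apply₂₂,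
    Matrix.zero_apply, zero_mul, Finset.sum_const_zero, add_zero, zero_add,
    tc_p11, tc_p12, tc_p21, tc_p22, sub_zero, zero_sub]
  rfl

theorem chr_221 (hA : GoodMat U A) (hB : GoodMat U B) (hy : y ∈ U) (e : ι ⊕ κ → E) (i : ι)
    (γ α : κ) : chr e (two A B) (Sum.inr γ) (Sum.inr α) (Sum.inl i) y =
      rr (fun i => e (Sum.inl i)) B i y γ α := by
  rw [tc_rr2 hB hy]
  unfold chr
  rw [two_inv hA hB hy]
  simp only [Fintype.sum_sum_type, Matrix.fromBlocks_apply₁₁,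
    Matrix.fromBlocks_apply₁₂, Matrix.fromBlocks_apply₂₁, Matrix.fromBlocks_apply₂₂,
    Matrix.zero_apply, zero_mul, Finset.sum_const_zero, add_zero, zero_add,
    tc_p11, tc_p12, tc_p21, tc_p22, sub_zero, zero_sub]

theorem chr_212 (hA : GoodMat U A) (hB : GoodMat U B) (hy : y ∈ U) (e : ι ⊕ κ → E) (i : ι)
    (γ α : κ) : chr e (two A B) (Sum.inr γ) (Sum.inl i) (Sum.inr α) y =
      rr (fun i => e (Sum.inl i)) B i y γ α := by
  rw [tc_rr2 hB hy]
  unfold chr
  rw [two_inv hA hB hy]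
  simp only [Fintype.sum_sum_type, Matrix.fromBlocks_apply₁₁,
    Matrix.fromBlocks_apply₁₂, Matrix.fromBlocks_apply₂₁, Matrix.fromBlocks_apply₂₂,
    Matrix.zero_apply, zero_mul, Finset.sum_const_zero, add_zero, zero_add,
    tc_p11, tc_p12, tc_p21, tc_p22, sub_zero, zero_sub]

theorem chr_122 (hA : GoodMat U A) (hB : GoodMat U B) (hy : y ∈ U) (e : ι ⊕ κ → E) (k : ι)
    (α β : κ) : chr e (two A B) (Sum.inl k) (Sum.inr α) (Sum.inr β) y =
      -(1 / 2) * up (fun i => e (Sum.inl i)) A (fun z => B z α β) k y := by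
  unfold chr
  rw [two_inv hA hB hy]
  simp only [Fintype.sum_sum_type, Matrix.fromBlocks_apply₁₁,
    Matrix.fromBlocks_apply₁₂, Matrix.fromBlocks_apply₂₁, Matrix.fromBlocks_apply₂₂,
    Matrix.zero_apply, zero_mul, Finset.sum_const_zero, add_zero, zero_add,
    tc_p11, tc_p12, tc_p21, tc_p22, sub_zero, zero_sub]
  rw [show -(1 / 2 : ℝ) * up (fun i => e (Sum.inl i)) A (fun z => B z α β) k y =
    (1 / 2) * -up (fun i => e (Sum.inl i)) A (fun z => B z α β) k y by ring]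
  congr 1
  unfold up
  rw [← Finset.sum_neg_distrib]
  refine Finset.sum_congr rfl fun l _ => ?_
  rw [mul_neg]
  rfl

end Pool.Agent.Work.MP_2fa4be_gt.MB
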