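import Pool.Agent.Work.MP_2fa4be_gt.MB.Tools

/-!
# Module TwoGood (size S-M): block diagonal matrices with two blocks

* `good_two`: positivity as in `BandGood.lean` (`BandHyp.goodB`), there with a block of size one;
  in general `x* (A ⊕ B) x = x₁* A x₁ + x₂* B x₂`, and one of `x₁`, `x₂` is nonzero (or use
  `Matrix.PosDef.fromBlocks`-type lemmas if there are any).
* `two_inv`: `Matrix.inv_eq_right_inv` and `Matrix.fromBlocks_multiply`.
* `lnv_two`: `Matrix.det_fromBlocks_zero₂₁`, `Real.log_mul`.
-/

namespace Pool.Agent.Work.MP_2fa4be_gt.MB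

open Pool.Agent.Work.MP_2fa4be_gt
open scoped ContDiff

variable {E ι κ : Type*} [NormedAddCommGroup E] [NormedSpace ℝ E] [Fintype ι] [DecidableEq ι]
  [Fintype κ] [DecidableEq κ] {U : Set E} {A : E → Matrix ι ι ℝ} {B : E → Matrix κ κ ℝ} {y : E}


theorem good_two (hA : GoodMat U A) (hB : GoodMat U B) : GoodMat U (two A B) where
  isOpen := hA.isOpen
  smooth := by
    intro i j
    rcases i with i | i <;> rcases j with j | j
    · exact hA.smooth i j
    · exact contDiffOn_const
    · exact contDiffOn_const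
    · exact hB.smooth i j
  pos := by
    intro y hy
    have hPA := hA.pos y hy
    have hPB := hB.pos y hy
    unfold two
    apply Matrix.PosDef.of_dotProduct_mulVec_pos
    · rw [Matrix.isHermitian_fromBlocks_iff]
      exact ⟨hPA.isHermitian, by simp, by simp, hPB.isHermitian⟩
    · intro x hx
      have h1 : star x ⬝ᵥ (Matrix.fromBlocks (A y) 0 0 (B y)).mulVec x =
          star (x ∘ Sum.inl) ⬝ᵥ (A y).mulVec (x ∘ Sum.inl) +
            star (x ∘ Sum.inr) ⬝ᵥ (B y).mulVec (x ∘ Sum.inr) := by
        rw [Matrix.fromBlocks_mulVec]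
        simp only [dotProduct, Fintype.sum_sum_type, Sum.elim_inl, Sum.elim_inr,
          Matrix.zero_mulVec, add_zero, zero_add]
        rfl
      rw [h1]
      by_cases h2 : x ∘ Sum.inl = 0
      · have h3 : x ∘ Sum.inr ≠ 0 := by
          intro h4
          apply hx
          funext i
          rcases i with i | i
          · exact congrFun h2 i
          · exact congrFun h4 i
        rw [h2]
        have h5 := hPB.dotProduct_mulVec_pos h3
        simpa using h5
      · have h3 := hPA.dotProduct_mulVec_pos h2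
        have h4 : 0 ≤ star (x ∘ Sum.inr) ⬝ᵥ (B y).mulVec (x ∘ Sum.inr) :=
          hPB.posSemidef.dotProduct_mulVec_nonneg _
        linarith

theorem two_inv (hA : GoodMat U A) (hB : GoodMat U B) (hy : y ∈ U) :
    (two A B y)⁻¹ = Matrix.fromBlocks (A y)⁻¹ 0 0 (B y)⁻¹ := by
  apply Matrix.inv_eq_right_inv
  unfold two
  rw [Matrix.fromBlocks_multiply, Matrix.mul_nonsing_inv _ (IsUnit.mk0 _ (hA.det_ne hy)),
    Matrix.mul_nonsing_inv _ (IsUnit.mk0 _ (hB.det_ne hy))]
  simp

theorem lnv_two (hA : GoodMat U A) (hB : GoodMat U B) (hy : y ∈ U) :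
    lnv (two A B) y = lnv A y + lnv B y := by
  unfold lnv two
  rw [Matrix.det_fromBlocks_zero₂₁, Real.log_mul (hA.det_ne hy) (hB.det_ne hy)]
  ring


end Pool.Agent.Work.MP_2fa4be_gt.MB
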