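import Pool.Agent.Work.MP_2fa4be_gt.MB.TwoChr
import Pool.Agent.Work.MP_2fa4be_gt.MB.LnD

/-!
# Module TwoHalf (size M-L): the Ricci curvature of `A ⊕ B`, contracted over the first block

`e₁ i = e (inl i)`, `e₂ α = e (inr α)`, `G = two A B`. Put, at the points of `U`,
`P_α = rr e₂ A α = (1/2) A⁻¹ ∂_α A` and `Q_i = rr e₁ B i = (1/2) B⁻¹ ∂_i B`; so
`∂_α A = 2 A P_α`, `tr P_α = ∂_α lnv A`, `tr Q_i = ∂_i lnv B` (`pd_lnv`),
`∂_α A^{ij} = -2 (P_α A⁻¹)^{ij}` (`GoodMat.pd_inv`, with the family `e₂`: note that `pd_inv` is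
stated for a family indexed like the matrix; only the values `pd e k` for one `k` matter, so apply
it with the constant family `fun _ => e₂ α`).

For `j, k` in the first block the definition of `ric` gives, with sums over both blocks
(`TwoChr`: Γ^k_{iβ} = (P_β)_{ki}, Γ^γ_{ij} = -(1/2) B^{γδ} ∂_δ A_{ij}, Γ^γ_{iα} = (Q_i)_{γα}):

  `Ric_{jk} = Ric^A_{jk} - ∂_j tr Q_k + tr Q_p Γ^p_{jk} - tr(Q_j Q_k)
     + ∂_γ Γ^γ_{jk} + (Γ^{B,γ}_{γδ} + tr P_δ) Γ^δ_{jk} - (P_δ)_{pj} Γ^δ_{pk} - Γ^γ_{jp} (P_γ)_{pk}`.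

Here the terms of the definition are: `∂_i Γ^i_{jk}` for `i` in block 1 and in block 2;
`-∂_j Γ^i_{ik}` for `i` in block 1 and (this is `-∂_j tr Q_k`) in block 2; the product terms
`Γ^i_{ip} Γ^p_{jk} - Γ^i_{jp} Γ^p_{ik}` for `(i,p)` in the blocks (1,1) (they complete `Ric^A`),
(2,1): `tr Q_p Γ^p_{jk} - Γ^γ_{jp} (P_γ)_{pk}`, (1,2): `tr P_δ Γ^δ_{jk} - (P_δ)_{ij} Γ^δ_{ik}`,
(2,2): `Γ^{B,γ}_{γδ} Γ^δ_{jk} - (Q_j)_{γδ} (Q_k)_{δγ}`.

Contract with `A^{jk}`:
* `A^{jk} (∂_j tr Q_k - tr Q_p Γ^p_{jk}) = lap e₁ A (lnv B)`;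
* `A^{jk} tr(Q_j Q_k) = tau e₁ A B`;
* `A^{jk} Γ^δ_{jk} = -(1/2) A^{jk} B^{δε} ∂_ε A_{jk} = -B^{δε} ∂_ε lnv A = -up e₂ B (lnv A) δ`;
* `A^{jk} ∂_γ Γ^γ_{jk} = ∂_γ (A^{jk} Γ^γ_{jk}) - (∂_γ A^{jk}) Γ^γ_{jk}
     = -∂_γ (up e₂ B (lnv A) γ) + 2 (P_γ A⁻¹)^{jk} Γ^γ_{jk}
     = -∂_γ (up e₂ B (lnv A) γ) - 2 B^{γε} tr(P_γ P_ε)`;
* `-A^{jk} ((P_δ)_{pj} Γ^δ_{pk} + Γ^γ_{jp} (P_γ)_{pk}) = 2 B^{δε} tr(P_δ P_ε)`
  (symmetry of `A` and of `∂A`), which cancels the previous trace term;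
* `-∂_γ (up_γ) - Γ^{B,γ}_{γδ} up_δ = -lap e₂ B (lnv A)` by `div_up` (Conf.lean), and
  `-tr P_δ up_δ = -grd e₂ B (lnv A) (lnv A)` by `grd_eq`.

Suggestion: work at the fixed point `y` with local names for all numbers; derivatives of products
by `pd_mul`, all functions are smooth on `U` (`GoodMat.inv_smooth`, `up_smooth`, `lnv_smooth`,
`pd_smooth`, `diffAt`), and equalities of functions on `U` pass to derivatives by `pd_congr_on`.
Models: `BandGood.lean`, `BandRic.lean`.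
-/

namespace Pool.Agent.Work.MP_2fa4be_gt.MB

open Pool.Agent.Work.MP_2fa4be_gt
open scoped ContDiff

variable {E ι κ : Type*} [NormedAddCommGroup E] [NormedSpace ℝ E] [Fintype ι] [DecidableEq ι]
  [Fintype κ] [DecidableEq κ] {U : Set E} {A : E → Matrix ι ι ℝ} {B : E → Matrix κ κ ℝ} {y : E}

section Algebra

variable {ι' κ' : Type*} [Fintype ι'] [Fintype κ']

private theorem quad_alg (c : ι' → ι' → ι' → ℝ) (d : κ' → κ' → κ' → ℝ) (V : κ' → ι' → ι' → ℝ)
    (P : κ' → ι' → ι' → ℝ) (Q : ι' → κ' → κ' → ℝ) (j k : ι') :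
    ∑ i, (∑ p, (c i i p * c p j k - c i j p * c p i k) +
        ∑ δ, (P δ i i * V δ j k - P δ i j * V δ i k)) +
      ∑ γ, (∑ p, (Q p γ γ * c p j k - V γ j p * P γ p k) +
        ∑ δ, (d γ γ δ * V δ j k - Q j γ δ * Q k δ γ)) =
    ∑ i, ∑ p, (c i i p * c p j k - c i j p * c p i k) + ∑ δ, (∑ i, P δ i i) * V δ j k -
      ∑ δ, ∑ i, P δ i j * V δ i k + ∑ p, (∑ γ, Q p γ γ) * c p j k -
      ∑ γ, ∑ p, V γ j p * P γ p k + ∑ γ, ∑ δ, d γ γ δ * V δ j k -
      ∑ γ, ∑ δ, Q j γ δ * Q k δ γ := by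
  have h1 : ∑ i, ∑ δ, P δ i i * V δ j k = ∑ δ, (∑ i, P δ i i) * V δ j k := by
    rw [Finset.sum_comm]
    exact Finset.sum_congr rfl fun δ _ => (Finset.sum_mul _ _ _).symm
  have h2 : ∑ i, ∑ δ, P δ i j * V δ i k = ∑ δ, ∑ i, P δ i j * V δ i k := Finset.sum_comm
  have h3 : ∑ γ, ∑ p, Q p γ γ * c p j k = ∑ p, (∑ γ, Q p γ γ) * c p j k := by
    rw [Finset.sum_comm]
    exact Finset.sum_congr rfl fun p _ => (Finset.sum_mul _ _ _).symm
  simp only [Finset.sum_add_distrib, Finset.sum_sub_distrib]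
  rw [h1, h2, h3]
  ring

/-- the common value of the three trace terms -/
private noncomputable def xx (a : ι' → ι' → ℝ) (P V : ι' → ι' → ℝ) : ℝ :=
  ∑ i, ∑ j, ∑ k, P i j * a j k * V i k

private theorem xx_two (a P V : ι' → ι' → ℝ) :
    ∑ j, ∑ k, a j k * ∑ i, P i j * V i k = xx a P V := by
  unfold xx
  simp only [Finset.mul_sum]
  rw [Finset.sum_congr rfl fun j _ => Finset.sum_comm, Finset.sum_comm]
  exact Finset.sum_congr rfl fun i _ => Finset.sum_congr rfl fun j _ =>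
    Finset.sum_congr rfl fun k _ => by ring

private theorem xx_three (a P V : ι' → ι' → ℝ) (ha : ∀ i j, a i j = a j i)
    (hV : ∀ i j, V i j = V j i) :
    ∑ j, ∑ k, a j k * ∑ p, V j p * P p k = xx a P V := by
  unfold xx
  simp only [Finset.mul_sum]
  rw [Finset.sum_comm, Finset.sum_congr rfl fun j _ => Finset.sum_comm, Finset.sum_comm]
  refine Finset.sum_congr rfl fun i _ => Finset.sum_congr rfl fun j _ =>
    Finset.sum_congr rfl fun k _ => ?_
  rw [ha k j, hV k i]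
  ring

private theorem xx_one (a P V : ι' → ι' → ℝ) :
    ∑ j, ∑ k, (-(2 * ∑ l, P j l * a l k)) * V j k = -(2 * xx a P V) := by
  unfold xx
  rw [Finset.mul_sum, ← Finset.sum_neg_distrib]
  refine Finset.sum_congr rfl fun i _ => ?_
  rw [Finset.sum_comm (f := fun j k => P i j * a j k * V i k), Finset.mul_sum,
    ← Finset.sum_neg_distrib]
  refine Finset.sum_congr rfl fun k _ => ?_
  rw [← Finset.sum_mul]
  ring

end Algebra

/-- the sum of the Christoffel symbols `Γ^γ_{jk}` over the first block -/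
private theorem tr_low (hA : GoodMat U A) (hy : y ∈ U) (f : κ → E) (γ : κ) :
    ∑ j, ∑ k, (A y)⁻¹ j k * (-(1 / 2) * up f B (fun z => A z j k) γ y) =
      -up f B (lnv A) γ y := by
  have h1 : ∀ δ, ∑ j, ∑ k, (A y)⁻¹ j k * pd f δ (fun z => A z j k) y =
      2 * pd f δ (lnv A) y := by
    intro δ
    rw [pd_lnv hA hy]
    unfold rr
    rw [Matrix.trace_smul, smul_eq_mul]
    have h2 : ((A y)⁻¹ * Matrix.of fun i j => pd f δ (fun z => A z i j) y).trace =
        ∑ j, ∑ k, (A y)⁻¹ j k * pd f δ (fun z => A z j k) y := by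
      unfold Matrix.trace
      refine Finset.sum_congr rfl fun j _ => ?_
      rw [Matrix.diag_apply, Matrix.mul_apply]
      refine Finset.sum_congr rfl fun k _ => ?_
      rw [Matrix.of_apply]
      congr 1
      exact hA.pd_symm (e := fun _ => f δ) hy k k j
    rw [h2]
    ring
  unfold up
  have h3 : ∀ j k, (A y)⁻¹ j k * (-(1 / 2) * ∑ l, (B y)⁻¹ γ l * pd f l (fun z => A z j k) y) =
      ∑ l, -(1 / 2) * (B y)⁻¹ γ l * ((A y)⁻¹ j k * pd f l (fun z => A z j k) y) := by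
    intro j k
    rw [Finset.mul_sum, Finset.mul_sum]
    exact Finset.sum_congr rfl fun l _ => by ring
  rw [Finset.sum_congr rfl fun j _ => Finset.sum_congr rfl fun k _ => h3 j k,
    Finset.sum_congr rfl fun j _ => Finset.sum_comm, Finset.sum_comm, ← Finset.sum_neg_distrib]
  refine Finset.sum_congr rfl fun l _ => ?_
  have h4 : ∑ j, ∑ k, -(1 / 2) * (B y)⁻¹ γ l * ((A y)⁻¹ j k * pd f l (fun z => A z j k) y) =
      -(1 / 2) * (B y)⁻¹ γ l * ∑ j, ∑ k, (A y)⁻¹ j k * pd f l (fun z => A z j k) y := by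
    rw [Finset.mul_sum]
    exact Finset.sum_congr rfl fun j _ => (Finset.mul_sum _ _ _).symm
  rw [h4, h1 l]
  ring

/-- the Ricci curvature in the first block -/
private theorem ric_11 (hA : GoodMat U A) (hB : GoodMat U B) (hy : y ∈ U) (e : ι ⊕ κ → E)
    (j k : ι) :
    ric e (two A B) (Sum.inl j) (Sum.inl k) y =
      ric (fun i => e (Sum.inl i)) A j k y -
        (pd (fun i => e (Sum.inl i)) j (pd (fun i => e (Sum.inl i)) k (lnv B)) y -
          ∑ p, chr (fun i => e (Sum.inl i)) A p j k y *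
            pd (fun i => e (Sum.inl i)) p (lnv B) y) -
        (rr (fun i => e (Sum.inl i)) B j y * rr (fun i => e (Sum.inl i)) B k y).trace +
        (∑ γ, pd (fun α => e (Sum.inr α)) γ
            (fun z => -(1 / 2) * up (fun α => e (Sum.inr α)) B (fun z => A z j k) γ z) y +
          ∑ δ, pd (fun α => e (Sum.inr α)) δ (lnv A) y *
            (-(1 / 2) * up (fun α => e (Sum.inr α)) B (fun z => A z j k) δ y) +
          ∑ γ, ∑ δ, chr (fun α => e (Sum.inr α)) B γ γ δ y *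
            (-(1 / 2) * up (fun α => e (Sum.inr α)) B (fun z => A z j k) δ y) -
          ∑ δ, ∑ i, rr (fun α => e (Sum.inr α)) A δ y i j *
            (-(1 / 2) * up (fun α => e (Sum.inr α)) B (fun z => A z i k) δ y) -
          ∑ γ, ∑ p, (-(1 / 2) * up (fun α => e (Sum.inr α)) B (fun z => A z j p) γ y) *
            rr (fun α => e (Sum.inr α)) A γ y p k) := by
  have hU := hA.isOpen
  have hq := quad_alg (fun k i j => chr (fun i => e (Sum.inl i)) A k i j y)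
    (fun γ α β => chr (fun α => e (Sum.inr α)) B γ α β y)
    (fun γ i j => -(1 / 2) * up (fun α => e (Sum.inr α)) B (fun z => A z i j) γ y)
    (fun δ i j => rr (fun α => e (Sum.inr α)) A δ y i j)
    (fun i γ δ => rr (fun i => e (Sum.inl i)) B i y γ δ) j k
  have htrA : ∀ δ, ∑ i, rr (fun α => e (Sum.inr α)) A δ y i i =
      pd (fun α => e (Sum.inr α)) δ (lnv A) y := fun δ => (pd_lnv hA hy _ δ).symm
  have htrB : ∀ z ∈ U, ∀ p, ∑ γ, rr (fun i => e (Sum.inl i)) B p z γ γ =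
      pd (fun i => e (Sum.inl i)) p (lnv B) z := fun z hz p => (pd_lnv hB hz _ p).symm
  have htr2 : ∑ γ, ∑ δ, rr (fun i => e (Sum.inl i)) B j y γ δ *
      rr (fun i => e (Sum.inl i)) B k y δ γ =
      (rr (fun i => e (Sum.inl i)) B j y * rr (fun i => e (Sum.inl i)) B k y).trace := by
    unfold Matrix.trace
    exact Finset.sum_congr rfl fun γ _ => by rw [Matrix.diag_apply, Matrix.mul_apply]
  have hd1 : ∀ i a b c, pd e (Sum.inl i) (chr e (two A B) (Sum.inl a) (Sum.inl b) (Sum.inl c)) y =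
      pd (fun i => e (Sum.inl i)) i (chr (fun i => e (Sum.inl i)) A a b c) y := by
    intro i a b c
    exact pd_congr_on hU (fun z hz => chr_111 hA hB hz e a b c) hy (Sum.inl i)
  have hd2 : ∀ γ, pd e (Sum.inr γ) (chr e (two A B) (Sum.inr γ) (Sum.inl j) (Sum.inl k)) y =
      pd (fun α => e (Sum.inr α)) γ
        (fun z => -(1 / 2) * up (fun α => e (Sum.inr α)) B (fun z => A z j k) γ z) y := by
    intro γ
    exact pd_congr_on hU (fun z hz => chr_211 hA hB hz e j k γ) hy (Sum.inr γ)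
  have hd3 : ∑ γ, pd e (Sum.inl j) (chr e (two A B) (Sum.inr γ) (Sum.inr γ) (Sum.inl k)) y =
      pd (fun i => e (Sum.inl i)) j (pd (fun i => e (Sum.inl i)) k (lnv B)) y := by
    have hdiff : ∀ γ ∈ Finset.univ, DifferentiableAt ℝ
        (chr e (two A B) (Sum.inr γ) (Sum.inr γ) (Sum.inl k)) y := fun γ _ =>
      diffAt hU ((good_two hA hB).chr_smooth _ _ _) hy
    rw [← pd_sum hdiff]
    refine pd_congr_on (e := e) hU (fun z hz => ?_) hy (Sum.inl j)
    rw [← htrB z hz k]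
    exact Finset.sum_congr rfl fun γ _ => chr_221 hA hB hz e k γ γ
  unfold ric
  simp only [Fintype.sum_sum_type, hd1, hd2, Finset.sum_sub_distrib, hd3, chr_111 hA hB hy,
    chr_112 hA hB hy, chr_121 hA hB hy, chr_211 hA hB hy, chr_222 hA hB hy, chr_221 hA hB hy,
    chr_212 hA hB hy]
  have h9 : ∑ p, pd (fun i => e (Sum.inl i)) p (lnv B) y * chr (fun i => e (Sum.inl i)) A p j k y =
      ∑ p, chr (fun i => e (Sum.inl i)) A p j k y * pd (fun i => e (Sum.inl i)) p (lnv B) y :=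
    Finset.sum_congr rfl fun p _ => mul_comm _ _
  simp only [htrA, htrB y hy, htr2, h9] at hq
  simp only [Finset.sum_sub_distrib, Finset.sum_add_distrib] at hq ⊢
  linarith [hq]

theorem ric_half (hA : GoodMat U A) (hB : GoodMat U B) (hy : y ∈ U) (e : ι ⊕ κ → E) :
    ∑ j, ∑ k, (A y)⁻¹ j k * ric e (two A B) (Sum.inl j) (Sum.inl k) y =
      scal (fun i => e (Sum.inl i)) A y - lap (fun i => e (Sum.inl i)) A (lnv B) y -
        tau (fun i => e (Sum.inl i)) A B y - lap (fun α => e (Sum.inr α)) B (lnv A) y -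
        grd (fun α => e (Sum.inr α)) B (lnv A) (lnv A) y := by
  have hU := hA.isOpen
  set f : κ → E := fun α => e (Sum.inr α) with hf
  set g : ι → E := fun i => e (Sum.inl i) with hg
  set V : κ → ι → ι → E → ℝ := fun γ j k z => -(1 / 2) * up f B (fun z => A z j k) γ z with hV
  have hVs : ∀ γ j k, ContDiffOn ℝ ∞ (V γ j k) U := fun γ j k =>
    contDiffOn_const.mul (up_smooth hB (hA.smooth j k) γ)
  have hVd : ∀ γ j k, DifferentiableAt ℝ (V γ j k) y := fun γ j k => diffAt hU (hVs γ j k) hy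
  have had : ∀ j k, DifferentiableAt ℝ (fun z => (A z)⁻¹ j k) y := fun j k =>
    diffAt hU (hA.inv_smooth j k) hy
  have hlow : ∀ z ∈ U, ∀ γ, ∑ j, ∑ k, (A z)⁻¹ j k * V γ j k z = -up f B (lnv A) γ z :=
    fun z hz γ => tr_low hA hz f γ
  -- derivative of the trace
  have hder : ∀ γ, ∑ j, ∑ k, (A y)⁻¹ j k * pd f γ (V γ j k) y =
      -pd f γ (up f B (lnv A) γ) y + 2 * xx (fun j k => (A y)⁻¹ j k)
        (fun i j => rr f A γ y i j) (fun j k => V γ j k y) := by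
    intro γ
    have h1 : pd f γ (fun z => ∑ j, ∑ k, (A z)⁻¹ j k * V γ j k z) y =
        -pd f γ (up f B (lnv A) γ) y := by
      rw [pd_congr_on (e := f) hU (fun z hz => hlow z hz γ) hy γ, pd_neg]
    have h2 : pd f γ (fun z => ∑ j, ∑ k, (A z)⁻¹ j k * V γ j k z) y =
        ∑ j, ∑ k, ((A y)⁻¹ j k * pd f γ (V γ j k) y +
          pd f γ (fun z => (A z)⁻¹ j k) y * V γ j k y) := by
      rw [pd_sum (F := fun j z => ∑ k, (A z)⁻¹ j k * V γ j k z) (fun j _ =>
        DifferentiableAt.fun_sum fun k _ => (had j k).mul (hVd γ j k))]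
      refine Finset.sum_congr rfl fun j _ => ?_
      rw [pd_sum (F := fun k z => (A z)⁻¹ j k * V γ j k z) (fun k _ =>
        (had j k).mul (hVd γ j k))]
      exact Finset.sum_congr rfl fun k _ => pd_mul (had j k) (hVd γ j k) γ
    have h3 : ∀ j k, pd f γ (fun z => (A z)⁻¹ j k) y =
        -(2 * ∑ l, rr f A γ y j l * (A y)⁻¹ l k) := by
      intro j k
      have h4 := hA.pd_inv (e := fun _ => f γ) hy j j k
      change pd f γ (fun z => (A z)⁻¹ j k) y = _ at h4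
      rw [h4, Finset.mul_sum, Finset.sum_comm]
      congr 1
      refine Finset.sum_congr rfl fun l _ => ?_
      unfold rr
      rw [Matrix.smul_apply, Matrix.mul_apply, smul_eq_mul, Finset.mul_sum, Finset.sum_mul,
        Finset.mul_sum]
      refine Finset.sum_congr rfl fun i _ => ?_
      rw [Matrix.of_apply]
      change (A y)⁻¹ j i * pd f γ (fun z => A z i l) y * (A y)⁻¹ l k = _
      ring
    have h5 := xx_one (fun j k => (A y)⁻¹ j k) (fun i j => rr f A γ y i j)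
      (fun j k => V γ j k y)
    simp only [h3, Finset.sum_add_distrib] at h2
    rw [h5] at h2
    linarith
  have hVsym : ∀ γ i j, V γ i j y = V γ j i y := by
    intro γ i j
    simp only [hV]
    congr 1
    unfold up
    exact Finset.sum_congr rfl fun l _ =>
      congrArg (fun r => (B y)⁻¹ γ l * r) (hA.pd_symm (e := fun _ => f l) hy i i j)
  have hmain : ∀ j k, (A y)⁻¹ j k * ric e (two A B) (Sum.inl j) (Sum.inl k) y =
      (A y)⁻¹ j k * ric g A j k y - (A y)⁻¹ j k * (pd g j (pd g k (lnv B)) y -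
        ∑ p, chr g A p j k y * pd g p (lnv B) y) -
      (A y)⁻¹ j k * (rr g B j y * rr g B k y).trace +
      (∑ γ, (A y)⁻¹ j k * pd f γ (V γ j k) y +
        ∑ δ, pd f δ (lnv A) y * ((A y)⁻¹ j k * V δ j k y) +
        ∑ γ, ∑ δ, chr f B γ γ δ y * ((A y)⁻¹ j k * V δ j k y) -
        ∑ δ, (A y)⁻¹ j k * ∑ i, rr f A δ y i j * V δ i k y -
        ∑ γ, (A y)⁻¹ j k * ∑ p, V γ j p y * rr f A γ y p k) := by
    intro j k
    rw [ric_11 hA hB hy e j k]
    have h1 : ∑ γ, (A y)⁻¹ j k * pd f γ (V γ j k) y = (A y)⁻¹ j k * ∑ γ, pd f γ (V γ j k) y :=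
      (Finset.mul_sum _ _ _).symm
    have h2 : ∑ δ, pd f δ (lnv A) y * ((A y)⁻¹ j k * V δ j k y) =
        (A y)⁻¹ j k * ∑ δ, pd f δ (lnv A) y * V δ j k y := by
      rw [Finset.mul_sum]
      exact Finset.sum_congr rfl fun δ _ => by ring
    have h3 : ∑ γ, ∑ δ, chr f B γ γ δ y * ((A y)⁻¹ j k * V δ j k y) =
        (A y)⁻¹ j k * ∑ γ, ∑ δ, chr f B γ γ δ y * V δ j k y := by
      rw [Finset.mul_sum]
      refine Finset.sum_congr rfl fun γ _ => ?_
      rw [Finset.mul_sum]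
      exact Finset.sum_congr rfl fun δ _ => by ring
    have h4 : ∑ δ, (A y)⁻¹ j k * ∑ i, rr f A δ y i j * V δ i k y =
        (A y)⁻¹ j k * ∑ δ, ∑ i, rr f A δ y i j * V δ i k y := (Finset.mul_sum _ _ _).symm
    have h5 : ∑ γ, (A y)⁻¹ j k * ∑ p, V γ j p y * rr f A γ y p k =
        (A y)⁻¹ j k * ∑ γ, ∑ p, V γ j p y * rr f A γ y p k := (Finset.mul_sum _ _ _).symm
    rw [h1, h2, h3, h4, h5]
    ring
  have c1 : ∑ j, ∑ k, ∑ γ, (A y)⁻¹ j k * pd f γ (V γ j k) y =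
      ∑ γ, (-pd f γ (up f B (lnv A) γ) y + 2 * xx (fun j k => (A y)⁻¹ j k)
        (fun i j => rr f A γ y i j) (fun j k => V γ j k y)) := by
    rw [Finset.sum_congr rfl fun j _ => Finset.sum_comm, Finset.sum_comm]
    exact Finset.sum_congr rfl fun γ _ => hder γ
  have c2 : ∑ j, ∑ k, ∑ δ, pd f δ (lnv A) y * ((A y)⁻¹ j k * V δ j k y) =
      ∑ δ, pd f δ (lnv A) y * -up f B (lnv A) δ y := by
    rw [Finset.sum_congr rfl fun j _ => Finset.sum_comm, Finset.sum_comm]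
    refine Finset.sum_congr rfl fun δ _ => ?_
    rw [← hlow y hy δ, Finset.mul_sum]
    exact Finset.sum_congr rfl fun j _ => (Finset.mul_sum _ _ _).symm
  have c3 : ∑ j, ∑ k, ∑ γ, ∑ δ, chr f B γ γ δ y * ((A y)⁻¹ j k * V δ j k y) =
      ∑ γ, ∑ δ, chr f B γ γ δ y * -up f B (lnv A) δ y := by
    rw [Finset.sum_congr rfl fun j _ => Finset.sum_comm, Finset.sum_comm]
    refine Finset.sum_congr rfl fun γ _ => ?_
    rw [Finset.sum_congr rfl fun j _ => Finset.sum_comm, Finset.sum_comm]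
    refine Finset.sum_congr rfl fun δ _ => ?_
    rw [← hlow y hy δ, Finset.mul_sum]
    exact Finset.sum_congr rfl fun j _ => (Finset.mul_sum _ _ _).symm
  have c4 : ∑ j, ∑ k, ∑ δ, (A y)⁻¹ j k * ∑ i, rr f A δ y i j * V δ i k y =
      ∑ δ, xx (fun j k => (A y)⁻¹ j k) (fun i j => rr f A δ y i j) (fun j k => V δ j k y) := by
    rw [Finset.sum_congr rfl fun j _ => Finset.sum_comm, Finset.sum_comm]
    exact Finset.sum_congr rfl fun δ _ => xx_two _ _ _
  have c5 : ∑ j, ∑ k, ∑ γ, (A y)⁻¹ j k * ∑ p, V γ j p y * rr f A γ y p k =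
      ∑ γ, xx (fun j k => (A y)⁻¹ j k) (fun i j => rr f A γ y i j) (fun j k => V γ j k y) := by
    rw [Finset.sum_congr rfl fun j _ => Finset.sum_comm, Finset.sum_comm]
    exact Finset.sum_congr rfl fun δ _ => xx_three _ _ _ (fun i j => hA.inv_symm hy i j)
      (fun i j => hVsym δ i j)
  have hdiv := div_up (e := f) hB (lnv_smooth hA) hy
  have hgrd := grd_eq (e := f) (f := lnv A) (u := lnv A) hB hy
  simp only [hmain, Finset.sum_add_distrib, Finset.sum_sub_distrib]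
  rw [c1, c2, c3, c4, c5, hgrd, ← hdiv]
  simp only [Finset.sum_add_distrib, Finset.sum_neg_distrib, mul_neg, ← Finset.mul_sum]
  unfold scal tau
  have c6 : lap g A (lnv B) y = ∑ j, ∑ k, (A y)⁻¹ j k * (pd g j (pd g k (lnv B)) y -
      ∑ p, chr g A p j k y * pd g p (lnv B) y) := rfl
  have c7 : ∑ δ, up f B (lnv A) δ y * pd f δ (lnv A) y =
      ∑ δ, pd f δ (lnv A) y * up f B (lnv A) δ y :=
    Finset.sum_congr rfl fun δ _ => mul_comm _ _
  rw [c6, c7]
  ring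

end Pool.Agent.Work.MP_2fa4be_gt.MB
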